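import Pool.Agent.Helper72.OB.Stab

/-!
# Orbit theorem, block H3b: the charts of `G ×^Q Z`
-/

set_option autoImplicit false

namespace Pool.Agent.Helper72.OB

namespace ChartAux

variable {n : ℕ}

section Mat

variable {R R' : Type} [CommRing R] [CommRing R']

/-- The matrix with column `o` equal to `v`, column `j` equal to `e_o` (if `j ≠ o`), and the other
columns equal to those of the identity matrix. -/
def sig (o j : Fin n) (v : Fin n → R) : Matrix (Fin n) (Fin n) R :=
  (Matrix.updateCol (1 : Matrix (Fin n) (Fin n) R) j v).submatrix id (Equiv.swap o j)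

theorem sig_apply (o j : Fin n) (v : Fin n → R) (i k : Fin n) :
    sig o j v i k = if Equiv.swap o j k = j then v i else
      if i = Equiv.swap o j k then 1 else 0 := by
  simp [sig, Matrix.updateCol_apply, Matrix.one_apply]

theorem det_sig (o j : Fin n) (v : Fin n → R) (hv : v j = 1) : IsUnit (sig o j v).det := by
  have h1 : (Matrix.updateCol (1 : Matrix (Fin n) (Fin n) R) j v).det = 1 := by
    rw [← Matrix.cramer_apply, Matrix.cramer_one]
    simpa using hv
  rw [sig, Matrix.det_permute', h1, mul_one]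
  exact (Units.map (Int.castRingHom R).toMonoidHom (Equiv.Perm.sign (Equiv.swap o j))).isUnit

theorem supp_sig {r : Pre n} {o j : Fin n} (hj : r.rel o j) (v : Fin n → R)
    (hv : ∀ i, ¬ r.rel i o → v i = 0) : Supp r (sig o j v) := by
  intro i k hik
  rw [sig_apply]
  by_cases hk : k = o
  · subst hk
    rw [Equiv.swap_apply_left, if_pos rfl]
    exact hv i hik
  · have h1 : Equiv.swap o j k ≠ j := by
      intro h
      apply hk
      exact (Equiv.swap o j).injective (h.trans (Equiv.swap_apply_left o j).symm)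
    rw [if_neg h1, if_neg]
    intro h2
    apply hik
    by_cases hkj : k = j
    · subst hkj
      rw [Equiv.swap_apply_right] at h2
      rw [h2]
      exact hj
    · rw [Equiv.swap_apply_of_ne_of_ne hk hkj] at h2
      rw [h2]
      exact r.refl k

theorem sig_mulVec (o j : Fin n) (v c : Fin n → R) (i : Fin n) :
    (sig o j v).mulVec c i = v i * c o + if i = j then 0 else c (Equiv.swap o j i) := by
  have h1 : (sig o j v).mulVec c i =
      ∑ k, (if k = j then v i else if i = k then 1 else 0) * c (Equiv.swap o j k) := by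
    rw [Matrix.mulVec, dotProduct, ← Equiv.sum_comp (Equiv.swap o j)]
    refine Finset.sum_congr rfl fun k _ => ?_
    rw [sig_apply, Equiv.swap_apply_self]
  rw [h1, ← Finset.add_sum_erase _ _ (Finset.mem_univ j), if_pos rfl, Equiv.swap_apply_right]
  congr 1
  by_cases hij : i = j
  · rw [if_pos hij]
    refine Finset.sum_eq_zero fun k hk => ?_
    rw [if_neg (Finset.ne_of_mem_erase hk), if_neg, zero_mul]
    intro h
    exact Finset.ne_of_mem_erase hk (h.symm.trans hij)
  · rw [if_neg hij, Finset.sum_eq_single i]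
    · rw [if_neg hij, if_pos rfl, one_mul]
    · intro k hk hki
      rw [if_neg (Finset.ne_of_mem_erase hk), if_neg (Ne.symm hki), zero_mul]
    · intro h
      exact absurd (Finset.mem_erase.2 ⟨hij, Finset.mem_univ i⟩) h

end Mat

variable (r : Pre n) (o : Fin n)

/-- the indices equivalent to `o` -/
abbrev Cls : Type := {i : Fin n // r.rel i o ∧ r.rel o i}

variable {r o} {m : ℕ} (E : Fin m ≃ Cls r o)

open Classical in
/-- the vector supported on the class of `o` with given entries -/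
noncomputable def vec {R : Type} [CommRing R] (t : Fin m → R) (i : Fin n) : R :=
  if h : r.rel i o ∧ r.rel o i then t (E.symm ⟨i, h⟩) else 0

theorem vec_E {R : Type} [CommRing R] (t : Fin m → R) (j : Fin m) : vec E t (E j).1 = t j := by
  rw [vec, dif_pos (E j).2]
  congr 1
  exact E.symm_apply_apply j

theorem vec_not {R : Type} [CommRing R] (t : Fin m → R) (i : Fin n)
    (h : ¬ (r.rel i o ∧ r.rel o i)) : vec E t i = 0 := dif_neg h

theorem map_vec {R R' : Type} [CommRing R] [CommRing R'] (f : R →+* R') (t : Fin m → R)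
    (i : Fin n) : f (vec E t i) = vec E (fun i => f (t i)) i := by
  by_cases h : r.rel i o ∧ r.rel o i
  · rw [vec, vec, dif_pos h, dif_pos h]
  · rw [vec_not E _ _ h, vec_not E _ _ h, map_zero]

/-- the section `σ_j` -/
noncomputable def sg {R : Type} [CommRing R] (j : Fin m) (t : Fin m → R) (ht : t j = 1) :
    Gp r R :=
  Gp.mk r (sig o (E j).1 (vec E t)) (supp_sig (E j).2.2 _ fun i h => vec_not E t i fun h' => h h'.1)
    (det_sig _ _ _ (by rw [vec_E, ht]))

theorem sg_apply {R : Type} [CommRing R] (j : Fin m) (t : Fin m → R) (ht : t j = 1)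
    (i k : Fin n) : (sg E j t ht).1.1 i k = sig o (E j).1 (vec E t) i k := rfl

theorem sg_E {R : Type} [CommRing R] (j : Fin m) (t : Fin m → R) (ht : t j = 1) (i : Fin m) :
    (sg E j t ht).1.1 (E i).1 o = t i := by
  rw [sg_apply, sig_apply, Equiv.swap_apply_left, if_pos rfl, vec_E]

theorem map_sg {R R' : Type} [CommRing R] [CommRing R'] (f : R →+* R') (j : Fin m)
    (t : Fin m → R) (ht : t j = 1) :
    Gp.map r f (sg E j t ht) = sg E j (fun i => f (t i)) (by rw [ht, map_one]) := by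
  apply Gp.ext'
  intro i k _
  rw [Gp.map_val, sg_apply, sg_apply, sig_apply, sig_apply, apply_ite f, apply_ite f, map_vec,
    map_one, map_zero]

/-- `σ_j⁻¹ g` fixes the line spanned by `e_o` modulo the vectors outside the class of `o` -/
theorem supp_q {R : Type} [CommRing R] (j : Fin m) (t : Fin m → R) (ht : t j = 1) (g : Gp r R)
    (hg : ∀ i, g.1.1 (E i).1 o = t i * g.1.1 (E j).1 o) :
    Supp (r.cut o) ((sg E j t ht)⁻¹ * g).1.1 := by
  classical
  intro i k hik
  by_cases h1 : r.rel i k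
  swap
  · exact (((sg E j t ht)⁻¹ * g).2 i k h1).1
  have h2 : k = o ∧ i ≠ o ∧ r.rel o i := by
    by_contra h2
    exact hik ⟨h1, h2⟩
  obtain ⟨rfl, hio, hoi⟩ := h2
  -- the column
  set c : Fin n → R := fun l => if l = k then g.1.1 (E j).1 k else
    if r.rel l k ∧ r.rel k l then 0 else g.1.1 l k with hc
  have h3 : (sg E j t ht).1.1.mulVec c = fun l => g.1.1 l k := by
    funext l
    have h4 : (sg E j t ht).1.1 = sig k (E j).1 (vec E t) := rfl
    rw [h4, sig_mulVec]
    have hck : c k = g.1.1 (E j).1 k := by rw [hc]; simp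
    rw [hck]
    by_cases hl : r.rel l k ∧ r.rel k l
    · have h5 : l = (E (E.symm ⟨l, hl⟩)).1 := by rw [E.apply_symm_apply]
      have h6 : vec E t l * g.1.1 (E j).1 k = g.1.1 l k := by
        rw [h5, vec_E, ← hg]
      rw [h6]
      have h7 : (if l = (E j).1 then 0 else c (Equiv.swap k (E j).1 l)) = 0 := by
        split_ifs with h8
        · rfl
        · by_cases hlk : l = k
          · rw [hlk, Equiv.swap_apply_left, hc]
            have h9 : (E j).1 ≠ k := fun h => h8 (hlk.trans h.symm)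
            simp only [if_neg h9, if_pos (E j).2]
          · rw [Equiv.swap_apply_of_ne_of_ne hlk h8, hc]
            simp only [if_neg hlk, if_pos hl]
      rw [h7, add_zero]
    · have h8 : l ≠ (E j).1 := fun h => hl (h ▸ (E j).2)
      have h9 : l ≠ k := fun h => hl (h ▸ ⟨r.refl _, r.refl _⟩)
      rw [vec_not E t l hl, zero_mul, zero_add, if_neg h8, Equiv.swap_apply_of_ne_of_ne h9 h8, hc]
      simp only [if_neg h9, if_neg hl]
  have h4 : (fun l => ((sg E j t ht)⁻¹ * g).1.1 l k) = c := by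
    have h5 : (fun l => ((sg E j t ht)⁻¹ * g).1.1 l k) =
        ((sg E j t ht)⁻¹).1.1.mulVec (fun l => g.1.1 l k) := by
      funext l
      rfl
    rw [h5, ← h3, Matrix.mulVec_mulVec]
    have h6 : ((sg E j t ht)⁻¹).1.1 * (sg E j t ht).1.1 = 1 := by
      have h7 := congrArg (fun x : Gp r R => x.1.1) (inv_mul_cancel (sg E j t ht))
      exact h7
    rw [h6, Matrix.one_mulVec]
  have h5 : ((sg E j t ht)⁻¹ * g).1.1 i k = c i := congrFun h4 i
  rw [h5, hc]
  simp only [if_neg hio, if_pos (And.intro h1 hoi)]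

/-- the element `σ_j⁻¹ g` of the parabolic subgroup -/
noncomputable def qq {R : Type} [CommRing R] (j : Fin m) (t : Fin m → R) (ht : t j = 1)
    (g : Gp r R) (hg : ∀ i, g.1.1 (E i).1 o = t i * g.1.1 (E j).1 o) : Gp (r.cut o) R :=
  Gp.mk (r.cut o) ((sg E j t ht)⁻¹ * g).1.1 (supp_q E j t ht g hg)
    ((Matrix.isUnit_iff_isUnit_det _).1 ((sg E j t ht)⁻¹ * g).1.isUnit)

theorem incl_qq {R : Type} [CommRing R] (j : Fin m) (t : Fin m → R) (ht : t j = 1)
    (g : Gp r R) (hg : ∀ i, g.1.1 (E i).1 o = t i * g.1.1 (E j).1 o) :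
    Gp.incl (r.cut_le o) R (qq E j t ht g hg) = (sg E j t ht)⁻¹ * g :=
  Gp.ext' fun _ _ _ => rfl

theorem map_qq {R R' : Type} [CommRing R] [CommRing R'] (f : R →+* R') (j : Fin m)
    (t : Fin m → R) (ht : t j = 1) (g : Gp r R)
    (hg : ∀ i, g.1.1 (E i).1 o = t i * g.1.1 (E j).1 o) :
    Gp.map (r.cut o) f (qq E j t ht g hg) = qq E j (fun i => f (t i)) (by rw [ht, map_one])
      (Gp.map r f g) (fun i => by rw [Gp.map_val, Gp.map_val, hg, map_mul]) := by
  have h1 : Gp.map r f ((sg E j t ht)⁻¹ * g) =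
      (sg E j (fun i => f (t i)) (by rw [ht, map_one]))⁻¹ * Gp.map r f g := by
    rw [map_mul, map_inv, map_sg]
  apply Gp.ext'
  intro i k _
  exact congrArg (fun x : Gp r R' => x.1.1 i k) h1

section Chart

variable {A : Type} [CommRing A] (α : Act r A) (I : Ideal A)
  (hI : (α.restr (r.cut_le o)).Stable I)

/-- the generic chart map -/
noncomputable def Ph {R : Type} [CommRing R] (j : Fin m) (t : Fin m → R) (ht : t j = 1)
    (g : Gp r R) (hg : ∀ i, g.1.1 (E i).1 o = t i * g.1.1 (E j).1 o) (z : A ⧸ I →+* R) :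
    MvPolynomial {i : Fin m // i ≠ j} (A ⧸ I) →+* R :=
  MvPolynomial.eval₂Hom (((α.restr (r.cut_le o)).quot I hI).act (qq E j t ht g hg) z)
    fun i => t i

theorem Ph_X {R : Type} [CommRing R] (j : Fin m) (t : Fin m → R) (ht : t j = 1)
    (g : Gp r R) (hg : ∀ i, g.1.1 (E i).1 o = t i * g.1.1 (E j).1 o) (z : A ⧸ I →+* R)
    (i : {i : Fin m // i ≠ j}) : Ph E α I hI j t ht g hg z (MvPolynomial.X i) = t i :=
  MvPolynomial.eval₂Hom_X' _ _ _

theorem Ph_congr {R : Type} [CommRing R] (j : Fin m) {t t' : Fin m → R} (ht : t j = 1)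
    (ht' : t' j = 1) {g g' : Gp r R} (hg : ∀ i, g.1.1 (E i).1 o = t i * g.1.1 (E j).1 o)
    (hg' : ∀ i, g'.1.1 (E i).1 o = t' i * g'.1.1 (E j).1 o) {z z' : A ⧸ I →+* R}
    (h1 : t = t') (h2 : g = g') (h3 : z = z') :
    Ph E α I hI j t ht g hg z = Ph E α I hI j t' ht' g' hg' z' := by
  subst h1 h2 h3
  rfl

theorem Ph_C {R : Type} [CommRing R] (j : Fin m) (t : Fin m → R) (ht : t j = 1)
    (g : Gp r R) (hg : ∀ i, g.1.1 (E i).1 o = t i * g.1.1 (E j).1 o) (z : A ⧸ I →+* R) :
    (Ph E α I hI j t ht g hg z).comp MvPolynomial.C =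
      ((α.restr (r.cut_le o)).quot I hI).act (qq E j t ht g hg) z := by
  ext a
  simp [Ph]

theorem Ph_C_mk {R : Type} [CommRing R] (j : Fin m) (t : Fin m → R) (ht : t j = 1)
    (g : Gp r R) (hg : ∀ i, g.1.1 (E i).1 o = t i * g.1.1 (E j).1 o) (z : A ⧸ I →+* R) :
    ((Ph E α I hI j t ht g hg z).comp MvPolynomial.C).comp (Ideal.Quotient.mk I) =
      α.act (sg E j t ht)⁻¹ (α.act g (z.comp (Ideal.Quotient.mk I))) := by
  rw [Ph_C, Act.quot_comp_mk, ← α.mul, ← incl_qq E j t ht g hg]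
  rfl

theorem comp_Ph {R R' : Type} [CommRing R] [CommRing R'] (f : R →+* R') (j : Fin m)
    (t : Fin m → R) (ht : t j = 1) (g : Gp r R)
    (hg : ∀ i, g.1.1 (E i).1 o = t i * g.1.1 (E j).1 o) (z : A ⧸ I →+* R) :
    f.comp (Ph E α I hI j t ht g hg z) = Ph E α I hI j (fun i => f (t i)) (by rw [ht, map_one])
      (Gp.map r f g) (fun i => by rw [Gp.map_val, Gp.map_val, hg, map_mul]) (f.comp z) := by
  apply MvPolynomial.ringHom_ext
  · intro a
    have h1 := Ph_C E α I hI j t ht g hg z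
    have h2 := Ph_C E α I hI j (fun i => f (t i)) (by rw [ht, map_one])
      (Gp.map r f g) (fun i => by rw [Gp.map_val, Gp.map_val, hg, map_mul]) (f.comp z)
    rw [← map_qq E f j t ht g hg, Act.nat, ← h1] at h2
    exact (congrArg (fun x => x a) h2).symm
  · intro i
    rw [RingHom.comp_apply, Ph_X, Ph_X]

/-- the coordinates on the chart -/
noncomputable def tt (D : Type) [CommRing D] (j i : Fin m) :
    MvPolynomial {i : Fin m // i ≠ j} D :=
  if h : i = j then 1 else MvPolynomial.X ⟨i, h⟩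

theorem tt_self (D : Type) [CommRing D] (j : Fin m) : tt D j j = 1 := dif_pos rfl

theorem tt_coe (D : Type) [CommRing D] (j : Fin m) (i : {i : Fin m // i ≠ j}) :
    tt D j i = MvPolynomial.X i := dif_neg i.2

/-- the universal section `σ_j(u)` -/
noncomputable def ss (D : Type) [CommRing D] (j : Fin m) :
    Gp r (MvPolynomial {i : Fin m // i ≠ j} D) := sg E j (tt D j) (tt_self D j)

/-- the map `a ↦ a(σ_j(u) mk)` -/
noncomputable def kap (j : Fin m) : A →+* MvPolynomial {i : Fin m // i ≠ j} (A ⧸ I) :=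
  α.act (ss E (A ⧸ I) j) (MvPolynomial.C.comp (Ideal.Quotient.mk I))

theorem Ph_comp_kap {R : Type} [CommRing R] (j : Fin m) (t : Fin m → R) (ht : t j = 1)
    (g : Gp r R) (hg : ∀ i, g.1.1 (E i).1 o = t i * g.1.1 (E j).1 o) (z : A ⧸ I →+* R) :
    (Ph E α I hI j t ht g hg z).comp (kap E α I j) = α.act g (z.comp (Ideal.Quotient.mk I)) := by
  have h1 : Gp.map r (Ph E α I hI j t ht g hg z) (ss E (A ⧸ I) j) = sg E j t ht := by
    rw [ss, map_sg]
    have h2 : (fun i => Ph E α I hI j t ht g hg z (tt (A ⧸ I) j i)) = t := by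
      funext i
      by_cases h : i = j
      · subst h
        rw [tt_self, map_one, ht]
      · rw [show tt (A ⧸ I) j i = MvPolynomial.X ⟨i, h⟩ from dif_neg h, Ph_X]
    congr 1
  rw [kap, ← α.nat, h1, ← RingHom.comp_assoc, Ph_C_mk, ← α.mul, mul_inv_cancel, α.one]

/-- the chart map has a left inverse for the universal section -/
theorem Ph_ss (j : Fin m) :
    Ph E α I hI j (tt (A ⧸ I) j) (tt_self _ j) (ss E (A ⧸ I) j)
      (fun i => by rw [ss, sg_E, sg_E, tt_self, mul_one]) MvPolynomial.C = RingHom.id _ := by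
  apply MvPolynomial.ringHom_ext
  · intro a
    obtain ⟨a, rfl⟩ := Ideal.Quotient.mk_surjective a
    have h1 := Ph_C_mk E α I hI j (tt (A ⧸ I) j) (tt_self _ j) (ss E (A ⧸ I) j)
      (fun i => by rw [ss, sg_E, sg_E, tt_self, mul_one]) MvPolynomial.C
    have h2 : ∀ x : A →+* MvPolynomial {i : Fin m // i ≠ j} (A ⧸ I),
        α.act (ss E (A ⧸ I) j)⁻¹ (α.act (ss E (A ⧸ I) j) x) = x := fun x => by
      rw [← α.mul, inv_mul_cancel, α.one]
    exact congrArg (fun x => x a) (h1.trans (h2 _))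
  · intro i
    rw [Ph_X, tt_coe, RingHom.id_apply]

theorem stable_apply {α : Act r A} {e : Ideal A} (he : α.Stable e) {R R' : Type} [CommRing R]
    [CommRing R'] (q : R →+* R') (g : Gp r R) (x : A →+* R) (hx : ∀ a ∈ e, q (x a) = 0) (a : A)
    (ha : a ∈ e) : q (α.act g x a) = 0 := by
  have h1 := he (Gp.map r q g) (q.comp x) hx a ha
  rw [α.nat] at h1
  exact h1

/-- the image of a stable ideal -/
theorem map_kap (j : Fin m) (e : Ideal A) (he : α.Stable e) :
    e.map (kap E α I j) = (e.map (Ideal.Quotient.mk I)).map MvPolynomial.C := by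
  apply le_antisymm
  · rw [Ideal.map_le_iff_le_comap]
    intro a ha
    rw [Ideal.mem_comap, ← Ideal.Quotient.eq_zero_iff_mem]
    refine stable_apply (R' := MvPolynomial {i : Fin m // i ≠ j} (A ⧸ I) ⧸
      (e.map (Ideal.Quotient.mk I)).map MvPolynomial.C) he (Ideal.Quotient.mk _)
      (ss E (A ⧸ I) j) (MvPolynomial.C.comp (Ideal.Quotient.mk I)) (fun b hb => ?_) a ha
    exact Ideal.Quotient.eq_zero_iff_mem.2 (Ideal.mem_map_of_mem _ (Ideal.mem_map_of_mem _ hb))
  · rw [Ideal.map_le_iff_le_comap, Ideal.map_le_iff_le_comap]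
    intro a ha
    rw [Ideal.mem_comap, Ideal.mem_comap, ← Ideal.Quotient.eq_zero_iff_mem]
    have h1 := stable_apply (R' := MvPolynomial {i : Fin m // i ≠ j} (A ⧸ I) ⧸
      e.map (kap E α I j)) he (Ideal.Quotient.mk _) (ss E (A ⧸ I) j)⁻¹
      (kap E α I j) (fun b hb => Ideal.Quotient.eq_zero_iff_mem.2 (Ideal.mem_map_of_mem _ hb)) a ha
    rw [kap, ← α.mul, inv_mul_cancel, α.one] at h1
    exact h1

theorem Ph_inj {R : Type} [CommRing R] (j : Fin m) (t : Fin m → R) (ht : t j = 1)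
    (g : Gp r R) (hg : ∀ i, g.1.1 (E i).1 o = t i * g.1.1 (E j).1 o) (z : A ⧸ I →+* R)
    (s : R →+* MvPolynomial {i : Fin m // i ≠ j} (A ⧸ I))
    (h1 : (fun i => s (t i)) = tt (A ⧸ I) j) (h2 : Gp.map r s g = ss E (A ⧸ I) j)
    (h3 : s.comp z = MvPolynomial.C) : Function.Injective (Ph E α I hI j t ht g hg z) := by
  have h4 : s.comp (Ph E α I hI j t ht g hg z) = RingHom.id _ :=
    (comp_Ph E α I hI s j t ht g hg z).trans
      ((Ph_congr E α I hI j _ (tt_self _ j) _
        (fun i => by rw [ss, sg_E, sg_E, tt_self, mul_one]) h1 h2 h3).trans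
        (Ph_ss E α I hI j))
  intro a b hab
  have h5 := congrArg s hab
  rw [← RingHom.comp_apply, ← RingHom.comp_apply, h4] at h5
  exact h5

/-- the coordinate functions `w_i` -/
noncomputable def ww (D : Type) [CommRing D] (i : Fin m) : RR r D := (gam r D).1.1 (E i).1 o

theorem ev_ww {D : Type} [CommRing D] (j i : Fin m) :
    ev r (MvPolynomial.C : D →+* MvPolynomial {i : Fin m // i ≠ j} D) (ss E D j) (ww E D i) =
      tt D j i := by
  have h2 := congrArg (fun g : Gp r _ => g.1.1 (E i).1 o) (map_ev_gam r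
    (MvPolynomial.C : D →+* MvPolynomial {i : Fin m // i ≠ j} D) (ss E D j))
  have h3 : (ss E D j).1.1 (E i).1 o = tt D j i := by rw [ss, sg_E]
  exact h2.trans h3

theorem ww_ne_zero {D : Type} [CommRing D] [IsDomain D] (i : Fin m) : ww E D i ≠ 0 := by
  intro h
  rw [ww, gam_val r _ _ (E i).2.1] at h
  exact MvPolynomial.X_ne_zero _ (algebraMap_RR_inj r D (h.trans (map_zero _).symm))

section Away

variable {D : Type} [CommRing D] (j : Fin m)

/-- the localisation at `w_j` -/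
abbrev Bj (D : Type) [CommRing D] (j : Fin m) : Type := Localization.Away (ww E D j)

/-- lifting a map to the localisation -/
noncomputable def liftB {R : Type} [CommRing R] (g : RR r D →+* R) (hg : IsUnit (g (ww E D j))) :
    Bj E D j →+* R := IsLocalization.Away.lift (S := Bj E D j) (ww E D j) hg

theorem liftB_comp {R : Type} [CommRing R] (g : RR r D →+* R) (hg : IsUnit (g (ww E D j))) :
    (liftB E j g hg).comp (algebraMap (RR r D) (Bj E D j)) = g :=
  IsLocalization.Away.lift_comp (ww E D j) hg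

theorem isUnit_ev_ww : IsUnit
    (ev r (MvPolynomial.C : D →+* MvPolynomial {i : Fin m // i ≠ j} D) (ss E D j)
      (ww E D j)) := by
  rw [ev_ww, tt_self]; exact isUnit_one

/-- the section -/
noncomputable def secB : Bj E D j →+* MvPolynomial {i : Fin m // i ≠ j} D :=
  liftB E j (ev r (MvPolynomial.C : D →+* MvPolynomial {i : Fin m // i ≠ j} D) (ss E D j))
    (isUnit_ev_ww E j)

theorem secB_comp : (secB E j).comp (algebraMap (RR r D) (Bj E D j)) =
    ev r (MvPolynomial.C : D →+* MvPolynomial {i : Fin m // i ≠ j} D) (ss E D j) :=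
  liftB_comp E j _ (isUnit_ev_ww E j)

/-- the inverse of `w_j` -/
noncomputable def vB (D : Type) [CommRing D] (j : Fin m) : Bj E D j :=
  IsLocalization.Away.invSelf (ww E D j)

theorem mul_vB : algebraMap (RR r D) (Bj E D j) (ww E D j) * vB E D j = 1 :=
  IsLocalization.Away.mul_invSelf _

/-- the map to the fraction field -/
noncomputable def toK {K : Type} [Field K] (β : RR r D →+* K) (hβ : β (ww E D j) ≠ 0) :
    Bj E D j →+* K := liftB E j β hβ.isUnit

theorem toK_comp {K : Type} [Field K] (β : RR r D →+* K) (hβ : β (ww E D j) ≠ 0) :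
    (toK E j β hβ).comp (algebraMap (RR r D) (Bj E D j)) = β := liftB_comp E j β hβ.isUnit

theorem toK_inj {K : Type} [Field K] (β : RR r D →+* K) (hβ : β (ww E D j) ≠ 0)
    (hi : Function.Injective β) : Function.Injective (toK E j β hβ) := by
  rw [injective_iff_map_eq_zero]
  intro b hb
  obtain ⟨k, c, hc⟩ := IsLocalization.Away.surj (ww E D j) b
  have h1 : toK E j β hβ (algebraMap (RR r D) (Bj E D j) c) = 0 := by
    rw [← hc, map_mul, hb, zero_mul]
  have h0 : β c = 0 := (congrArg (fun f => f c) (toK_comp E j β hβ)).symm.trans h1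
  have h2 : c = 0 := hi (h0.trans (map_zero _).symm)
  rw [h2, map_zero] at hc
  have h3 : IsUnit (algebraMap (RR r D) (Bj E D j) (ww E D j) ^ k) :=
    (IsLocalization.Away.algebraMap_isUnit (ww E D j)).pow k
  exact (h3.mul_left_eq_zero).1 hc

end Away

/-- injectivity of the chart map to the fraction field -/
theorem inj_K {K : Type} [Field K] (β : RR r (A ⧸ I) →+* K) (hi : Function.Injective β)
    (j : Fin m) (hβ : β (ww E (A ⧸ I) j) ≠ 0) (t : Fin m → K) (ht : t j = 1)
    (ht' : ∀ i, t i = β (ww E (A ⧸ I) i) / β (ww E (A ⧸ I) j))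
    (hg : ∀ i, (Gp.map r β (gam r (A ⧸ I))).1.1 (E i).1 o =
      t i * (Gp.map r β (gam r (A ⧸ I))).1.1 (E j).1 o) :
    Function.Injective (Ph E α I hI j t ht (Gp.map r β (gam r (A ⧸ I))) hg
      (β.comp (ιR r (A ⧸ I)))) := by
  have htB : (fun i => algebraMap (RR r (A ⧸ I)) (Bj E (A ⧸ I) j) (ww E (A ⧸ I) i) *
      vB E (A ⧸ I) j) j = 1 := mul_vB E j
  have hgB : ∀ i, (Gp.map r (algebraMap (RR r (A ⧸ I)) (Bj E (A ⧸ I) j))
      (gam r (A ⧸ I))).1.1 (E i).1 o =
      (fun i => algebraMap (RR r (A ⧸ I)) (Bj E (A ⧸ I) j) (ww E (A ⧸ I) i) *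
        vB E (A ⧸ I) j) i *
        (Gp.map r (algebraMap (RR r (A ⧸ I)) (Bj E (A ⧸ I) j)) (gam r (A ⧸ I))).1.1
          (E j).1 o := by
    intro i
    have h1 : vB E (A ⧸ I) j * algebraMap (RR r (A ⧸ I)) (Bj E (A ⧸ I) j)
        (ww E (A ⧸ I) j) = 1 := (mul_comm _ _).trans (mul_vB E j)
    have h2 : algebraMap (RR r (A ⧸ I)) (Bj E (A ⧸ I) j) (ww E (A ⧸ I) i) =
        algebraMap (RR r (A ⧸ I)) (Bj E (A ⧸ I) j) (ww E (A ⧸ I) i) * vB E (A ⧸ I) j *
          algebraMap (RR r (A ⧸ I)) (Bj E (A ⧸ I) j) (ww E (A ⧸ I) j) := by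
      rw [mul_assoc, h1, mul_one]
    exact h2
  have h1 := Ph_inj E α I hI j _ htB _ hgB
    ((algebraMap (RR r (A ⧸ I)) (Bj E (A ⧸ I) j)).comp (ιR r (A ⧸ I))) (secB E j) (by
      funext i
      have h3 : ∀ i, secB E j (algebraMap (RR r (A ⧸ I)) (Bj E (A ⧸ I) j)
          (ww E (A ⧸ I) i)) = tt (A ⧸ I) j i := fun i =>
        (congrArg (fun f => f (ww E (A ⧸ I) i)) (secB_comp E j)).trans (ev_ww E j i)
      have h8 := congrArg (secB E j) (mul_vB E (D := A ⧸ I) j)
      rw [map_mul, map_one, h3, tt_self, one_mul] at h8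
      rw [map_mul, h3, h8, mul_one])
    (by rw [← Gp.map_comp, secB_comp, map_ev_gam])
    (by rw [← RingHom.comp_assoc, secB_comp, ev_comp_ι])
  have h2 := comp_Ph E α I hI (toK E j β hβ) j _ htB _ hgB
    ((algebraMap (RR r (A ⧸ I)) (Bj E (A ⧸ I) j)).comp (ιR r (A ⧸ I)))
  have h3 := h2.trans (Ph_congr E α I hI j _ ht _ hg (by
      funext i
      have h3 : ∀ i, toK E j β hβ (algebraMap (RR r (A ⧸ I)) (Bj E (A ⧸ I) j)
          (ww E (A ⧸ I) i)) = β (ww E (A ⧸ I) i) := fun i =>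
        congrArg (fun f => f (ww E (A ⧸ I) i)) (toK_comp E j β hβ)
      have h8 := congrArg (toK E j β hβ) (mul_vB E (D := A ⧸ I) j)
      rw [map_mul, map_one, h3] at h8
      rw [map_mul, h3, ht', div_eq_mul_inv, eq_inv_of_mul_eq_one_right h8])
    (by rw [← Gp.map_comp, toK_comp]) (by rw [← RingHom.comp_assoc, toK_comp]))
  rw [← h3]
  exact (toK_inj E j β hβ hi).comp h1

/-- the image of the base -/
theorem C_mem {K : Type} [Field K] (β : RR r (A ⧸ I) →+* K)
    (j : Fin m) (t : Fin m → K) (ht : t j = 1)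
    (hg : ∀ i, (Gp.map r β (gam r (A ⧸ I))).1.1 (E i).1 o =
      t i * (Gp.map r β (gam r (A ⧸ I))).1.1 (E j).1 o) (S : Subring K)
    (hS : ∀ a, β (α.orb (Ideal.Quotient.mk I) a) ∈ S) (hX : ∀ i, t i ∈ S) (d : A ⧸ I) :
    Ph E α I hI j t ht (Gp.map r β (gam r (A ⧸ I))) hg (β.comp (ιR r (A ⧸ I)))
      (MvPolynomial.C d) ∈ S := by
  obtain ⟨a, rfl⟩ := Ideal.Quotient.mk_surjective d
  let κ' : A →+* S := (β.comp (α.orb (Ideal.Quotient.mk I))).codRestrict S hS
  have hκ' : S.subtype.comp κ' = β.comp (α.orb (Ideal.Quotient.mk I)) := rfl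
  let t' : Fin m → S := fun i => ⟨t i, hX i⟩
  have ht' : t' j = 1 := Subtype.ext ht
  have h0 : Gp.map r S.subtype (sg E j t' ht')⁻¹ = (sg E j t ht)⁻¹ := by
    rw [map_inv, map_sg]
    rfl
  have h1 : α.act (sg E j t ht)⁻¹ (β.comp (α.orb (Ideal.Quotient.mk I))) =
      S.subtype.comp (α.act (sg E j t' ht')⁻¹ κ') := by
    rw [← α.nat, h0, hκ']
  have h2 := Ph_C_mk E α I hI j t ht
    (Gp.map r β (gam r (A ⧸ I))) hg (β.comp (ιR r (A ⧸ I)))
  have h5 : (β.comp (ιR r (A ⧸ I))).comp (Ideal.Quotient.mk I) =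
    β.comp ((ιR r (A ⧸ I)).comp (Ideal.Quotient.mk I)) := rfl
  rw [h5, α.nat] at h2
  have h3 := congrArg (fun x => x a) (h2.trans h1)
  have h4 : Ph E α I hI j t ht (Gp.map r β (gam r (A ⧸ I))) hg (β.comp (ιR r (A ⧸ I)))
      (MvPolynomial.C (Ideal.Quotient.mk I a)) =
      S.subtype (α.act (sg E j t' ht')⁻¹ κ' a) := h3
  rw [h4]
  exact (α.act (sg E j t' ht')⁻¹ κ' a).2

end Chart

end ChartAux

open ChartAux in
theorem exists_chart {n : ℕ} {r : Pre n} (o : Fin n) {A : Type} [CommRing A] (α : Act r A)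
    (I : Ideal A) [I.IsPrime] (hI : (α.restr (r.cut_le o)).Stable I) (K : Type) [Field K]
    [Algebra (RR r (A ⧸ I)) K] [IsFractionRing (RR r (A ⧸ I)) K] :
    ∃ (m : ℕ) (_ : 0 < m) (w : Fin m → RR r (A ⧸ I)), (∀ j, w j ≠ 0) ∧
      ∀ j, ∃ (Φ : MvPolynomial {i : Fin m // i ≠ j} (A ⧸ I) →+* K)
        (κ : A →+* MvPolynomial {i : Fin m // i ≠ j} (A ⧸ I)), Function.Injective Φ ∧
        (∀ i : {i : Fin m // i ≠ j}, Φ (MvPolynomial.X i) =
          algebraMap (RR r (A ⧸ I)) K (w i) / algebraMap (RR r (A ⧸ I)) K (w j)) ∧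
        Φ.comp κ = (algebraMap (RR r (A ⧸ I)) K).comp (α.orb (Ideal.Quotient.mk I)) ∧
        Φ.range = Subring.closure
          (Set.range ((algebraMap (RR r (A ⧸ I)) K).comp (α.orb (Ideal.Quotient.mk I))) ∪
            Set.range fun i => algebraMap (RR r (A ⧸ I)) K (w i) /
              algebraMap (RR r (A ⧸ I)) K (w j)) ∧
        ∀ e : Ideal A, α.Stable e → e.map κ = (e.map (Ideal.Quotient.mk I)).map MvPolynomial.C := by
  classical
  have hdom : IsDomain (RR r (A ⧸ I)) := isDomain_RR r _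
  let E : Fin (Fintype.card (Cls r o)) ≃ Cls r o := (Fintype.equivFin _).symm
  have hm0 : 0 < Fintype.card (Cls r o) := Fintype.card_pos_iff.2 ⟨⟨o, r.refl o, r.refl o⟩⟩
  refine ⟨Fintype.card (Cls r o), hm0, ww E (A ⧸ I), fun j => ww_ne_zero E j, fun j => ?_⟩
  have hβi : Function.Injective (algebraMap (RR r (A ⧸ I)) K) := IsFractionRing.injective _ _
  generalize algebraMap (RR r (A ⧸ I)) K = β at hβi
  have hβ0 : ∀ j, β (ww E (A ⧸ I) j) ≠ 0 := fun j h =>
    ww_ne_zero E j (hβi (h.trans (map_zero _).symm))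
  obtain ⟨t, ht'⟩ : ∃ t : Fin (Fintype.card (Cls r o)) → K,
    ∀ i, t i = β (ww E (A ⧸ I) i) / β (ww E (A ⧸ I) j) := ⟨_, fun _ => rfl⟩
  have ht : t j = 1 := by rw [ht', div_self (hβ0 j)]
  have hg : ∀ i, (Gp.map r β (gam r (A ⧸ I))).1.1 (E i).1 o =
      t i * (Gp.map r β (gam r (A ⧸ I))).1.1 (E j).1 o := by
    intro i
    have h1 : β (ww E (A ⧸ I) i) = t i * β (ww E (A ⧸ I) j) := by
      rw [ht', div_mul_cancel₀ _ (hβ0 j)]
    exact h1
  have hΦκ : (Ph E α I hI j t ht (Gp.map r β (gam r (A ⧸ I))) hg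
      (β.comp (ιR r (A ⧸ I)))).comp (kap E α I j) = β.comp (α.orb (Ideal.Quotient.mk I)) := by
    rw [Ph_comp_kap, RingHom.comp_assoc, α.nat]
    rfl
  have hX := Ph_X E α I hI j t ht (Gp.map r β (gam r (A ⧸ I))) hg (β.comp (ιR r (A ⧸ I)))
  have hinj := inj_K E α I hI β hβi j (hβ0 j) t ht ht' hg
  have hC := C_mem E α I hI β j t ht hg
  generalize Ph E α I hI j t ht (Gp.map r β (gam r (A ⧸ I))) hg
      (β.comp (ιR r (A ⧸ I))) = Φ at hΦκ hX hinj hC
  have ht2 : (fun i => β (ww E (A ⧸ I) i) / β (ww E (A ⧸ I) j)) = t :=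
    funext fun i => (ht' i).symm
  rw [ht2]
  refine ⟨Φ, kap E α I j, hinj, fun i => (hX i).trans (ht' i), hΦκ, ?_,
    fun e he => map_kap E α I j e he⟩
  apply le_antisymm
  · have hS1 : ∀ a, β (α.orb (Ideal.Quotient.mk I) a) ∈ Subring.closure
        (Set.range (β.comp (α.orb (Ideal.Quotient.mk I))) ∪ Set.range t) := fun a =>
      Subring.subset_closure (Or.inl ⟨a, rfl⟩)
    have hS2 : ∀ i, t i ∈ Subring.closure
        (Set.range (β.comp (α.orb (Ideal.Quotient.mk I))) ∪ Set.range t) := fun i =>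
      Subring.subset_closure (Or.inr ⟨i, rfl⟩)
    rintro x ⟨p, rfl⟩
    induction p using MvPolynomial.induction_on with
    | C d => exact hC _ hS1 hS2 d
    | add p q hp hq => rw [map_add]; exact Subring.add_mem _ hp hq
    | mul_X p i hp =>
      rw [map_mul, hX]
      exact Subring.mul_mem _ hp (hS2 i)
  · rw [Subring.closure_le]
    rintro x (⟨a, rfl⟩ | ⟨i, rfl⟩)
    · exact ⟨kap E α I j a, congrArg (fun f => f a) hΦκ⟩
    · by_cases h : i = j
      · subst h
        rw [ht]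
        exact Φ.range.one_mem
      · exact ⟨MvPolynomial.X ⟨i, h⟩, hX ⟨i, h⟩⟩

end Pool.Agent.Helper72.OB
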