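import Pool.Agent.Helper72.OB.Defs2

/-!
# Orbit theorem, block A: generators of `G_r` for antisymmetric `r`
-/

set_option autoImplicit false

namespace Pool.Agent.Helper72.OB

variable {n : ℕ} (r : Pre n)

/-- the diagonal torus -/
noncomputable def diagG {R : Type} [CommRing R] (u : Fin n → Rˣ) : Gp r R :=
  Gp.mk r (Matrix.diagonal fun i => (u i : R))
    (fun i j h => Matrix.diagonal_apply_ne _ fun e => h (e ▸ r.refl i))
    (by
      rw [Matrix.det_diagonal]
      exact IsUnit.prod_iff.2 fun i _ => (u i).isUnit)

/-- strictly related pairs -/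
structure Root (r : Pre n) where
  fst : Fin n
  snd : Fin n
  rel : r.rel fst snd
  ne : fst ≠ snd

variable {r}

/-- the root subgroups `t ↦ 1 + t E_ij` -/
noncomputable def xel (k : Root r) {R : Type} [CommRing R] (t : R) : Gp r R :=
  Gp.mk r (Matrix.transvection k.fst k.snd t)
    (fun i j h => by
      have h1 : i ≠ j := fun e => h (e ▸ r.refl i)
      have h2 : ¬ (k.fst = i ∧ k.snd = j) := fun ⟨h3, h4⟩ => h (h3 ▸ h4 ▸ k.rel)
      simp [Matrix.transvection, Matrix.one_apply_ne h1, h2])
    (by rw [Matrix.det_transvection_of_ne _ _ k.ne]; exact isUnit_one)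

/-- the number of `h` between `i` and `j` -/
noncomputable def Root.height (k : Root r) : ℕ := Nat.card {h // r.rel k.fst h ∧ r.rel h k.snd}

theorem xel_val (k : Root r) {R : Type} [CommRing R] (t : R) :
    (xel k t).1.1 = Matrix.transvection k.fst k.snd t := rfl

theorem diagG_val {R : Type} [CommRing R] (u : Fin n → Rˣ) :
    (diagG r u).1.1 = Matrix.diagonal fun i => (u i : R) := rfl

/-- equality of elements of `G_r(R)` from equality of the matrices -/
theorem Gp.ext_val {R : Type} [CommRing R] {g h : Gp r R} (H : g.1.1 = h.1.1) : g = h :=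
  Gp.ext' fun i j _ => by rw [H]

theorem Gp.mul_val {R : Type} [CommRing R] (g h : Gp r R) : (g * h).1.1 = g.1.1 * h.1.1 := rfl

theorem Gp.one_val {R : Type} [CommRing R] : (1 : Gp r R).1.1 = 1 := rfl

theorem xel_zero (k : Root r) (R : Type) [CommRing R] : xel k (0 : R) = 1 := by
  apply Gp.ext_val
  rw [xel_val, Gp.one_val, Matrix.transvection_zero]

theorem xel_add (k : Root r) {R : Type} [CommRing R] (s t : R) : xel k (s + t) = xel k s * xel k t := by
  apply Gp.ext_val
  rw [Gp.mul_val, xel_val, xel_val, xel_val, Matrix.transvection_mul_transvection_same _ _ k.ne]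

theorem map_xel (k : Root r) {R R' : Type} [CommRing R] [CommRing R'] (f : R →+* R') (t : R) :
    Gp.map r f (xel k t) = xel k (f t) := by
  apply Gp.ext'
  intro i j _
  rw [Gp.map_val, xel_val, xel_val]
  simp only [Matrix.transvection, Matrix.add_apply, Matrix.single_apply, Matrix.one_apply, map_add]
  split_ifs <;> simp

theorem map_diagG {R R' : Type} [CommRing R] [CommRing R'] (f : R →+* R') (u : Fin n → Rˣ) :
    Gp.map r f (diagG r u) = diagG r fun i => Units.map f (u i) := by
  apply Gp.ext'
  intro i j _
  rw [Gp.map_val, diagG_val, diagG_val]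
  simp only [Matrix.diagonal_apply]
  split_ifs <;> simp

theorem diagG_mul {R : Type} [CommRing R] (u v : Fin n → Rˣ) :
    diagG r (fun i => u i * v i) = diagG r u * diagG r v := by
  apply Gp.ext_val
  rw [Gp.mul_val, diagG_val, diagG_val, diagG_val, Matrix.diagonal_mul_diagonal]
  simp

theorem diagG_one (R : Type) [CommRing R] : diagG r (fun _ => (1 : Rˣ)) = 1 := by
  apply Gp.ext_val
  rw [diagG_val, Gp.one_val]
  simp

theorem diagG_mul_xel (k : Root r) {R : Type} [CommRing R] (u : Fin n → Rˣ) (t : R) :
    diagG r u * xel k t = xel k ((u k.fst : R) * t * ((u k.snd)⁻¹ : Rˣ)) * diagG r u := by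
  apply Gp.ext_val
  rw [Gp.mul_val, Gp.mul_val, diagG_val, xel_val, xel_val]
  ext a b
  rw [Matrix.diagonal_mul, Matrix.mul_diagonal]
  simp only [Matrix.transvection, Matrix.add_apply, Matrix.single_apply, Matrix.one_apply]
  by_cases hab : a = b
  · subst hab
    have h1 : ¬ (k.fst = a ∧ k.snd = a) := fun h => k.ne (h.1.trans h.2.symm)
    simp [h1]
  · by_cases h2 : k.fst = a ∧ k.snd = b
    · obtain ⟨h3, h4⟩ := h2
      subst h3 h4
      simp [k.ne, mul_assoc]
    · simp [hab, h2]

private theorem card_lt {α : Type} [Finite α] {p q : α → Prop} (h : ∀ x, p x → q x) (x : α)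
    (h1 : ¬ p x) (h2 : q x) : Nat.card {y // p y} < Nat.card {y // q y} := by
  have e1 : Nat.card {y // p y} = Set.ncard {y | p y} := Nat.card_coe_set_eq _
  have e2 : Nat.card {y // q y} = Set.ncard {y | q y} := Nat.card_coe_set_eq _
  rw [e1, e2]
  exact Set.ncard_lt_ncard ⟨fun y hy => h y hy, fun hc => h1 (hc h2)⟩

/-- the height of `(i, m)` is larger than the height of `(i, j)` if `j` is below `m` -/
theorem height_lt_right (hr : r.Antisymm) (k h : Root r) (h1 : h.fst = k.fst)
    (h2 : r.rel k.snd h.snd) (h3 : k.snd ≠ h.snd) : k.height < h.height := by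
  unfold Root.height
  refine card_lt (fun x hx => ⟨h1 ▸ hx.1, r.trans hx.2 h2⟩) h.snd ?_ ⟨h.rel, r.refl _⟩
  intro hx
  exact h3 (hr _ _ h2 hx.2)

/-- the height of `(m, j)` is larger than the height of `(i, j)` if `i` is above `m` -/
theorem height_lt_left (hr : r.Antisymm) (k h : Root r) (h1 : h.snd = k.snd)
    (h2 : r.rel h.fst k.fst) (h3 : h.fst ≠ k.fst) : k.height < h.height := by
  unfold Root.height
  refine card_lt (fun x hx => ⟨r.trans h2 hx.1, h1 ▸ hx.2⟩) h.fst ?_ ⟨r.refl _, h.rel⟩
  intro hx
  exact h3 (hr _ _ h2 hx.1)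

/-- products of two transvections -/
private theorem tv_mul {R : Type} [CommRing R] (i j p q : Fin n) (s t : R) :
    Matrix.transvection p q s * Matrix.transvection i j t =
      1 + Matrix.single p q s + Matrix.single i j t +
        (if q = i then Matrix.single p j (s * t) else 0) := by
  unfold Matrix.transvection
  rw [mul_add, mul_one, add_mul, one_mul]
  by_cases h : q = i
  · subst h
    rw [if_pos rfl, Matrix.single_mul_single_same]
    abel
  · rw [if_neg h, Matrix.single_mul_single_of_ne _ _ _ _ h]
    abel

/-- commutation of root subgroups up to a root subgroup of larger height -/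
theorem xel_mul_xel (hr : r.Antisymm) (k l : Root r) {R : Type} [CommRing R] (s t : R) :
    xel l s * xel k t = xel k t * xel l s ∨ ∃ (h : Root r) (c : R), l.height < h.height ∧
      k.height < h.height ∧ xel l s * xel k t = xel h c * (xel k t * xel l s) := by
  by_cases h1 : l.snd = k.fst
  · right
    have h2 : k.snd ≠ l.fst := by
      intro h2
      apply k.ne
      apply hr _ _ k.rel
      rw [h2, ← h1]
      exact l.rel
    have h3 : l.fst ≠ k.snd := fun e => h2 e.symm
    refine ⟨⟨l.fst, k.snd, r.trans l.rel (h1 ▸ k.rel), h3⟩, s * t, ?_, ?_, ?_⟩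
    · refine height_lt_right hr _ _ rfl ?_ ?_
      · show r.rel l.snd k.snd
        rw [h1]
        exact k.rel
      · show l.snd ≠ k.snd
        rw [h1]
        exact k.ne
    · refine height_lt_left hr _ _ rfl ?_ ?_
      · show r.rel l.fst k.fst
        rw [← h1]
        exact l.rel
      · show l.fst ≠ k.fst
        rw [← h1]
        exact l.ne
    · apply Gp.ext_val
      simp only [Gp.mul_val, xel_val]
      rw [tv_mul, tv_mul, if_pos h1, if_neg h2, add_zero]
      have e1 : Matrix.single l.fst k.snd (s * t) * Matrix.single k.fst k.snd t = 0 :=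
        Matrix.single_mul_single_of_ne _ _ _ _ k.ne.symm _
      have e2 : Matrix.single l.fst k.snd (s * t) * Matrix.single l.fst l.snd s = 0 :=
        Matrix.single_mul_single_of_ne _ _ _ _ h2 _
      unfold Matrix.transvection
      simp only [add_mul, mul_add, one_mul, mul_one]
      rw [e1, e2]
      abel
  · by_cases h2 : k.snd = l.fst
    · right
      have h3 : k.fst ≠ l.snd := fun e => h1 e.symm
      refine ⟨⟨k.fst, l.snd, r.trans k.rel (h2 ▸ l.rel), h3⟩, -(t * s), ?_, ?_, ?_⟩
      · refine height_lt_left hr _ _ rfl ?_ ?_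
        · show r.rel k.fst l.fst
          rw [← h2]
          exact k.rel
        · show k.fst ≠ l.fst
          rw [← h2]
          exact k.ne
      · refine height_lt_right hr _ _ rfl ?_ ?_
        · show r.rel k.snd l.snd
          rw [h2]
          exact l.rel
        · show k.snd ≠ l.snd
          rw [h2]
          exact l.ne
      · apply Gp.ext_val
        simp only [Gp.mul_val, xel_val]
        rw [tv_mul, tv_mul, if_neg h1, if_pos h2, add_zero]
        have e1 : Matrix.single k.fst l.snd (-(t * s)) * Matrix.single k.fst k.snd t = 0 :=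
          Matrix.single_mul_single_of_ne _ _ _ _ h1 _
        have e2 : Matrix.single k.fst l.snd (-(t * s)) * Matrix.single l.fst l.snd s = 0 :=
          Matrix.single_mul_single_of_ne _ _ _ _ l.ne.symm _
        have e3 : Matrix.single k.fst l.snd (-(t * s)) * Matrix.single k.fst l.snd (t * s) = 0 :=
          Matrix.single_mul_single_of_ne _ _ _ _ h1 _
        have e4 : Matrix.single k.fst l.snd (-(t * s)) = -Matrix.single k.fst l.snd (t * s) := by
          rw [Matrix.single_neg]
        unfold Matrix.transvection
        simp only [add_mul, mul_add, one_mul, mul_one]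
        rw [e1, e2, e3, e4]
        abel
    · left
      apply Gp.ext_val
      simp only [Gp.mul_val, xel_val]
      rw [tv_mul, tv_mul, if_neg h1, if_neg h2]
      abel

instance : Finite (Root r) := by
  apply Finite.of_injective (fun k : Root r => (k.fst, k.snd))
  rintro ⟨a, b, _, _⟩ ⟨c, d, _, _⟩ h
  simp only [Prod.mk.injEq] at h
  obtain ⟨rfl, rfl⟩ := h
  rfl

/-- the roots listed by decreasing height -/
theorem exists_list (r : Pre n) : ∃ (N : ℕ) (e : Fin N ≃ Root r), ∀ h l : Fin N,
    (e l).height < (e h).height → h < l := by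
  obtain ⟨N, ⟨e0⟩⟩ := Finite.exists_equiv_fin (Root r)
  obtain ⟨f, hf⟩ : ∃ f : Fin N → ℤ, ∀ i, f i = -((e0.symm i).height : ℤ) := ⟨_, fun _ => rfl⟩
  refine ⟨N, (Tuple.sort f).trans e0.symm, ?_⟩
  intro h l hhl
  by_contra hc
  push Not at hc
  have h1 := Tuple.monotone_sort f hc
  simp only [Function.comp_apply, hf] at h1
  simp only [Equiv.trans_apply] at hhl
  omega

/-- the diagonal entries are invertible -/
theorem diag_inv (hr : r.Antisymm) {R : Type} [CommRing R] (g : Gp r R) (j : Fin n) :
    g.1.1 j j * g⁻¹.1.1 j j = 1 := by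
  have h1 : (g.1.1 * g⁻¹.1.1) j j = 1 := by
    rw [← Gp.mul_val, mul_inv_cancel, Gp.one_val, Matrix.one_apply_eq]
  rw [Matrix.mul_apply] at h1
  rw [← h1]
  symm
  apply Finset.sum_eq_single j
  · intro h _ hh
    by_cases h2 : r.rel j h
    · by_cases h3 : r.rel h j
      · exact absurd (hr _ _ h3 h2) hh
      · rw [(g⁻¹.2 h j h3).1, mul_zero]
    · rw [(g.2 j h h2).1, zero_mul]
  · intro h
    exact absurd (Finset.mem_univ _) h

/-- for antisymmetric `r` the group `G_r(R)` is generated by the torus and the root subgroups -/
theorem closure_eq_top (hr : r.Antisymm) {R : Type} [CommRing R] (H : Subgroup (Gp r R))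
    (h1 : ∀ u, diagG r u ∈ H) (h2 : ∀ (k : Root r) (t : R), xel k t ∈ H) : H = ⊤ := by
  obtain ⟨N, e, he⟩ := exists_list r
  have key : ∀ l : ℕ, ∀ g : Gp r R, (∀ k : Root r, g.1.1 k.fst k.snd ≠ 0 → (e.symm k : ℕ) < l) →
      g ∈ H := by
    intro l
    induction l with
    | zero =>
      intro g hg
      have hu : ∀ j, g.1.1 j j * g⁻¹.1.1 j j = 1 := diag_inv hr g
      have h3 : g = diagG r fun j => Units.mkOfMulEqOne _ _ (hu j) := by
        apply Gp.ext'
        intro i j hij
        rw [diagG_val, Matrix.diagonal_apply]
        by_cases hd : i = j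
        · subst hd
          rw [if_pos rfl, Units.val_mkOfMulEqOne]
        · rw [if_neg hd]
          by_contra hc
          exact absurd (hg ⟨i, j, hij, hd⟩ hc) (Nat.not_lt_zero _)
      rw [h3]
      exact h1 _
    | succ l ih =>
      intro g hg
      by_cases hl : l < N
      · obtain ⟨k, hk⟩ : ∃ k, k = e ⟨l, hl⟩ := ⟨_, rfl⟩
        have hkl : (e.symm k : ℕ) = l := by rw [hk, Equiv.symm_apply_apply]
        obtain ⟨t, ht⟩ : ∃ t, t = -(g.1.1 k.fst k.snd * g⁻¹.1.1 k.snd k.snd) := ⟨_, rfl⟩
        have h3 : xel k t * g ∈ H := by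
          apply ih
          intro h hh
          rw [Gp.mul_val, xel_val] at hh
          by_cases ha : h.fst = k.fst
          · rw [ha, Matrix.transvection_mul_apply_same] at hh
            by_cases hb : h.snd = k.snd
            · exfalso
              apply hh
              rw [hb, ht]
              have h4 := diag_inv hr g k.snd
              linear_combination (-(g.1.1 k.fst k.snd)) * h4
            · by_cases hc : r.rel k.snd h.snd
              · have h5 : k.height < h.height := height_lt_right hr _ _ ha hc fun e => hb e.symm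
                have h6 := he (e.symm h) (e.symm k) (by
                  rw [Equiv.apply_symm_apply, Equiv.apply_symm_apply]
                  exact h5)
                rw [← hkl]
                exact h6
              · rw [(g.2 _ _ hc).1, mul_zero, add_zero, ← ha] at hh
                have h7 := hg h hh
                have h8 : (e.symm h : ℕ) ≠ l := by
                  intro h9
                  apply hb
                  have h10 : e.symm h = e.symm k := Fin.ext (h9.trans hkl.symm)
                  rw [e.symm.injective h10]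
                omega
          · rw [Matrix.transvection_mul_apply_of_ne _ _ _ _ ha] at hh
            have h7 := hg h hh
            have h8 : (e.symm h : ℕ) ≠ l := by
              intro h9
              apply ha
              have h10 : e.symm h = e.symm k := Fin.ext (h9.trans hkl.symm)
              rw [e.symm.injective h10]
            omega
        have h4 := H.mul_mem (H.inv_mem (h2 k t)) h3
        rwa [inv_mul_cancel_left] at h4
      · apply ih
        intro k _
        have := (e.symm k).2
        omega
  rw [eq_top_iff]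
  intro g _
  exact key N g fun k _ => (e.symm k).2

end Pool.Agent.Helper72.OB
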