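import Pool.Agent.Helper72.OB.Defs2

/-!
# Orbit theorem, block E: open subschemes of affine schemes and the rules
-/

set_option autoImplicit false

namespace Pool.Agent.Helper72.OB

open AlgebraicGeometry CategoryTheory
open Pool.Agent.Helper65.Mor (Arithmetic ClosedOpen FGen)

section

variable {A B : Type} [CommRing A] [CommRing B]

theorem mem_DD (e : Ideal A) (x : Spec (CommRingCat.of A)) : x ∈ DD e ↔ ¬ e ≤ x.asIdeal := Iff.rfl

theorem DD_congr {e e' : Ideal A} (h : ∀ p : Ideal A, p.IsPrime → (e ≤ p ↔ e' ≤ p)) :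
    DD e = DD e' := by
  apply TopologicalSpace.Opens.ext
  ext x
  exact not_congr (h _ x.2)

theorem arithmetic_DD (hA : FGen A) (e : Ideal A) : Arithmetic (DD e).toScheme := by
  have := (Pool.Agent.Helper65.Mor.arithmetic_of_fgen hA).isNoetherian
  exact Arithmetic.comp (DD e).ι (Pool.Agent.Helper65.Mor.arithmetic_of_fgen hA)

/-- preimages of the opens `DD e` -/
theorem preimage_DD57 (g : A →+* B) (e : Ideal A) :
    (Spec.map (CommRingCat.ofHom g)) ⁻¹ᵁ (DD e) = DD (e.map g) := by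
  apply TopologicalSpace.Opens.ext
  ext x
  exact not_congr Ideal.map_le_iff_le_comap.symm

theorem DD_iso (f : A ≃+* B) (e : Ideal A) :
    Nonempty ((DD e).toScheme ≅ (DD (e.map (f : A →+* B))).toScheme) := by
  have h : IsIso (Spec.map (CommRingCat.ofHom (f : A →+* B))) := by
    have h1 : Spec.map (CommRingCat.ofHom (f : A →+* B)) =
        (Scheme.Spec.mapIso f.toCommRingCatIso.op).hom := rfl
    rw [h1]
    infer_instance
  exact ⟨(asIso (Spec.map (CommRingCat.ofHom (f : A →+* B)) ∣_ (DD e))).symm ≪≫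
    Scheme.isoOfEq _ (preimage_DD57 _ e)⟩

/-- `D(e) ∩ V(b)`, `D(e)` and `D(e b)` -/
theorem closedOpen_DD (b e : Ideal A) : ∃ (i : LC b e ⟶ (DD e).toScheme)
    (j : (DD (e * b)).toScheme ⟶ (DD e).toScheme), ClosedOpen i j := by
  have hle : DD (e * b) ≤ DD e := fun x hx h => hx (Ideal.mul_le_left.trans (show e ≤ _ from h))
  set φ := Spec.map (CommRingCat.ofHom (Ideal.Quotient.mk b)) with hφ
  have hφc : IsClosedImmersion φ :=
    IsClosedImmersion.spec_of_surjective _ Ideal.Quotient.mk_surjective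
  have hr : Set.range φ = PrimeSpectrum.zeroLocus (b : Set A) := by
    have := range_comap_of_surjective (A ⧸ b) (Ideal.Quotient.mk b) Ideal.Quotient.mk_surjective
    rw [Ideal.mk_ker] at this
    exact this
  let s := (Scheme.isoOfEq _ (preimage_DD57 (Ideal.Quotient.mk b) e)).inv
  refine ⟨s ≫ φ ∣_ (DD e), (Spec (CommRingCat.of A)).homOfLE hle, inferInstance, inferInstance, ?_⟩
  have h1 : Set.range (s ≫ φ ∣_ (DD e)) = Set.range (φ ∣_ (DD e)) := by
    rw [Scheme.Hom.comp_base, TopCat.coe_comp, Set.range_comp, Set.range_eq_univ.2 s.surjective,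
      Set.image_univ]
  have h2 : Set.range (φ ∣_ (DD e)) = Subtype.val ⁻¹' Set.range φ := by
    refine (congrArg Set.range (morphismRestrict_base φ (DD e))).trans ?_
    exact Set.range_restrictPreimage _ _
  have h3 : ∀ x : (DD e).toScheme, x ∈ Set.range (s ≫ φ ∣_ (DD e)) ↔ b ≤ x.1.asIdeal := by
    intro x
    rw [h1, h2]
    change x.1 ∈ Set.range φ ↔ _
    rw [hr]
    rfl
  refine Set.ext fun x => (?_ : _ ↔ ¬ x ∈ Set.range (s ≫ φ ∣_ (DD e)))
  rw [h3]
  constructor
  · rintro ⟨y, rfl⟩ h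
    refine y.2 (Ideal.mul_le_right.trans ?_ : e * b ≤ y.1.asIdeal)
    have h4 := congrArg PrimeSpectrum.asIdeal (Scheme.homOfLE_apply hle y)
    exact h.trans h4.le
  · intro h
    have hx : x.1 ∈ DD (e * b) := by
      rw [mem_DD, Ideal.IsPrime.mul_le x.1.2]
      rintro (h2 | h2)
      · exact x.2 h2
      · exact h h2
    exact ⟨⟨x.1, hx⟩, Subtype.ext (Scheme.homOfLE_apply _ _)⟩

/-- localisation does not change opens inside `D(f)` -/
theorem DD_away (f : A) (e : Ideal A) (he : e ≤ Ideal.span {f}) [Algebra A B]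
    [IsLocalization.Away f B] :
    Nonempty ((DD (e.map (algebraMap A B))).toScheme ≅ (DD e).toScheme) := by
  have ho : IsOpenImmersion (Spec.map (CommRingCat.ofHom (algebraMap A B))) :=
    IsOpenImmersion.of_isLocalization f
  refine ⟨IsOpenImmersion.isoOfRangeEq ((DD (e.map (algebraMap A B))).ι ≫
    Spec.map (CommRingCat.ofHom (algebraMap A B))) (DD e).ι ?_⟩
  rw [Scheme.Hom.comp_base, TopCat.coe_comp, Set.range_comp, Scheme.Opens.range_ι,
    Scheme.Opens.range_ι, ← preimage_DD57]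
  refine (Set.image_preimage_eq_inter_range (f := Spec.map (CommRingCat.ofHom (algebraMap A B)))
    (t := (DD e : Set (Spec (CommRingCat.of A))))).trans ?_
  refine Set.inter_eq_left.2 ?_
  have h3 : Set.range (Spec.map (CommRingCat.ofHom (algebraMap A B))) =
      (PrimeSpectrum.basicOpen f : Set (PrimeSpectrum A)) :=
    PrimeSpectrum.localization_away_comap_range _ f
  rw [h3]
  intro x hx hf
  exact hx (he.trans ((Ideal.span_singleton_le_iff_mem _).2 hf))

/-- the closed subscheme `V(b)` of `D(e) ∩ V(a)` -/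
theorem LC_quot57 (a b e : Ideal A) :
    Nonempty (LC (b.map (Ideal.Quotient.mk a)) (e.map (Ideal.Quotient.mk a)) ≅ LC (a ⊔ b) e) := by
  obtain ⟨h⟩ := DD_iso (DoubleQuot.quotQuotEquivQuotSup a b)
    ((e.map (Ideal.Quotient.mk a)).map (Ideal.Quotient.mk (b.map (Ideal.Quotient.mk a))))
  have h1 : ((e.map (Ideal.Quotient.mk a)).map
      (Ideal.Quotient.mk (b.map (Ideal.Quotient.mk a)))).map
      (DoubleQuot.quotQuotEquivQuotSup a b : _ →+* A ⧸ a ⊔ b) =
      e.map (Ideal.Quotient.mk (a ⊔ b)) := by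
    rw [Ideal.map_map, Ideal.map_map]
    rfl
  rw [h1] at h
  exact ⟨h⟩

end

variable {P : Scheme.{0} → Prop} (hP : Rules P) {A B : Type} [CommRing A] [CommRing B]

include hP

theorem P_iso (hA : FGen A) (f : A ≃+* B) (e : Ideal A) :
    P (DD e).toScheme ↔ P (DD (e.map (f : A →+* B))).toScheme := by
  obtain ⟨h⟩ := DD_iso f e
  exact ⟨hP.iso _ _ (arithmetic_DD hA e) ⟨h⟩,
    hP.iso _ _ (Arithmetic.comp h.inv (arithmetic_DD hA e)) ⟨h.symm⟩⟩

theorem P_away (hA : FGen A) (f : A) (e : Ideal A) (he : e ≤ Ideal.span {f}) [Algebra A B]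
    [IsLocalization.Away f B] (h : P (DD (e.map (algebraMap A B))).toScheme) :
    P (DD e).toScheme := by
  obtain ⟨h1⟩ := DD_away (B := B) f e he
  exact hP.iso _ _ (Arithmetic.comp h1.hom (arithmetic_DD hA e)) ⟨h1⟩ h

theorem P_empty57 {e : Ideal A} (h : ∀ p : Ideal A, p.IsPrime → e ≤ p) : P (DD e).toScheme :=
  hP.empty _ ⟨fun x => x.2 (h _ x.1.2)⟩

theorem P_bot : P (DD (⊥ : Ideal A)).toScheme := P_empty57 hP fun _ _ => bot_le

theorem P_glue (hA : FGen A) {b e : Ideal A} (h1 : P (LC b e)) (h2 : P (DD (e * b)).toScheme) :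
    P (DD e).toScheme := by
  obtain ⟨i, j, h⟩ := closedOpen_DD b e
  exact hP.glue _ _ _ i j (arithmetic_DD hA e) h h1 h2

theorem P_opn (hA : FGen A) {b e : Ideal A} (h1 : P (DD e).toScheme) (h2 : P (LC b e)) :
    P (DD (e * b)).toScheme := by
  obtain ⟨i, j, h⟩ := closedOpen_DD b e
  exact hP.opn _ _ _ i j (arithmetic_DD hA e) h h1 h2

theorem P_closed57 (hA : FGen A) {b e : Ideal A} (h1 : P (DD e).toScheme)
    (h2 : P (DD (e * b)).toScheme) : P (LC b e) := by
  obtain ⟨i, j, h⟩ := closedOpen_DD b e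
  exact hP.closed _ _ _ i j (arithmetic_DD hA e) h h1 h2

theorem P_quot57 (hA : FGen A) (a b e : Ideal A) :
    P (LC (b.map (Ideal.Quotient.mk a)) (e.map (Ideal.Quotient.mk a))) ↔ P (LC (a ⊔ b) e) := by
  obtain ⟨h⟩ := LC_quot57 a b e
  have h1 : Arithmetic (LC (a ⊔ b) e) := arithmetic_DD (hA.quot _) _
  exact ⟨hP.iso _ _ (Arithmetic.comp h.hom h1) ⟨h⟩, hP.iso _ _ h1 ⟨h.symm⟩⟩

/-- a closed subscheme with the same support -/
theorem P_sup57 (hA : FGen A) {a b e : Ideal A}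
    (h : ∀ p : Ideal A, p.IsPrime → ¬ e ≤ p → a ≤ p → b ≤ p) :
    P (LC a e) ↔ P (LC (a ⊔ b) e) := by
  have h0 : P (DD (e.map (Ideal.Quotient.mk a) * b.map (Ideal.Quotient.mk a))).toScheme := by
    refine P_empty57 hP fun p hp => ?_
    rw [← Ideal.map_mul, Ideal.map_le_iff_le_comap]
    have hc := Ideal.comap_isPrime (Ideal.Quotient.mk a) p
    by_cases he : e ≤ p.comap (Ideal.Quotient.mk a)
    · exact Ideal.mul_le_left.trans he
    · refine Ideal.mul_le_right.trans (h _ hc he ?_)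
      intro x hx
      rw [Ideal.mem_comap, Ideal.Quotient.eq_zero_iff_mem.2 hx]
      exact p.zero_mem
  rw [← P_quot57 hP hA]
  exact ⟨fun h1 => P_closed57 hP (hA.quot a) h1 h0, fun h1 => P_glue hP (hA.quot a) h1 h0⟩

/-- `P (D(e) ∩ V(a))` depends only on the set `D(e) ∩ V(a)` -/
theorem P_support (hA : FGen A) {a b e : Ideal A}
    (h : ∀ p : Ideal A, p.IsPrime → ¬ e ≤ p → (a ≤ p ↔ b ≤ p)) (h1 : P (LC a e)) : P (LC b e) := by
  rw [P_sup57 hP hA fun p h2 h3 h4 => (h p h2 h3).2 h4]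
  rw [sup_comm, ← P_sup57 hP hA fun p h2 h3 h4 => (h p h2 h3).1 h4]
  exact h1

/-- stratification of `D(e) ∩ V(a)` by `V(b)`, `a ≤ b` -/
theorem P_strat_LC (hA : FGen A) {a b e : Ideal A} (hab : a ≤ b) (h1 : P (LC b e))
    (h2 : P (LC a (e * b))) : P (LC a e) := by
  refine P_glue hP (hA.quot a) (b := b.map (Ideal.Quotient.mk a)) ?_ ?_
  · rw [P_quot57 hP hA, sup_eq_right.2 hab]
    exact h1
  · rw [← Ideal.map_mul]
    exact h2

theorem P_union (hA : FGen A) {a b e : Ideal A} (h1 : P (LC a e)) (h2 : P (LC b e))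
    (h3 : P (LC (a ⊔ b) e)) : P (LC (a * b) e) := by
  refine P_strat_LC hP hA (b := a) Ideal.mul_le_left h1 ?_
  refine P_support hP hA (a := b) (fun p hp h => ?_) ?_
  · rw [hp.mul_le] at h ⊢
    exact ⟨Or.inr, fun h4 => h4.resolve_left fun h5 => h (Or.inr h5)⟩
  · have h4 := P_opn hP (hA.quot b) (b := a.map (Ideal.Quotient.mk b))
      (e := e.map (Ideal.Quotient.mk b)) h2 (by rw [P_quot57 hP hA, sup_comm]; exact h3)
    rw [← Ideal.map_mul] at h4
    exact h4

theorem P_top57 (hA : FGen A) (hdim : ringKrullDim A ≤ 1) : P (DD (⊤ : Ideal A)).toScheme := by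
  have h : (DD (⊤ : Ideal A)) = ⊤ := by
    apply TopologicalSpace.Opens.ext
    ext x
    exact ⟨fun _ => trivial, fun _ h => x.2.1 (top_le_iff.1 h)⟩
  refine hP.iso _ _ (Pool.Agent.Helper65.Mor.arithmetic_of_fgen hA) ⟨?_⟩ (hP.dimOne A hA hdim)
  exact (Scheme.topIso _).symm ≪≫ Scheme.isoOfEq _ h.symm

theorem P_dimOne (hA : FGen A) (hdim : ringKrullDim A ≤ 1) (e : Ideal A) : P (DD e).toScheme := by
  have h1 := P_opn hP hA (b := e) (P_top57 hP hA hdim) (by
    rw [LC, Ideal.map_top]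
    exact P_top57 hP (hA.quot e) ((ringKrullDim_quotient_le e).trans hdim))
  rw [Ideal.top_mul] at h1
  exact h1

end Pool.Agent.Helper72.OB
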