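import Pool.Agent.Helper65.Mor.SchemeDefs

/-!
# Linear groups of preorders, their actions on affine schemes, and classes of arithmetic schemes
-/

set_option autoImplicit false

namespace Pool.Agent.Helper72.OB

open AlgebraicGeometry CategoryTheory
open Pool.Agent.Helper65.Mor (Arithmetic ClosedOpen)

/-- A preorder on `Fin n`. -/
structure Pre (n : ℕ) where
  rel : Fin n → Fin n → Prop
  refl : ∀ i, rel i i
  trans : ∀ {i j k}, rel i j → rel j k → rel i k

variable {n : ℕ}

/-- The group `G_r(R)`: the invertible `n × n` matrices `g` over `R` such that the `(i, j)`-entries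
of `g` and of its inverse vanish whenever `i`, `j` are not related. -/
def Gp (r : Pre n) (R : Type) [CommRing R] : Subgroup (Matrix.GeneralLinearGroup (Fin n) R) where
  carrier := {g | ∀ i j, ¬ r.rel i j → g.1 i j = 0 ∧ g⁻¹.1 i j = 0}
  one_mem' i j h := by
    have hij : i ≠ j := fun e => h (e ▸ r.refl i)
    simp [hij]
  mul_mem' {a b} ha hb i j h := by
    constructor
    · rw [Units.val_mul, Matrix.mul_apply]
      refine Finset.sum_eq_zero fun k _ => ?_
      by_cases h1 : r.rel i k
      · rw [(hb k j fun h2 => h (r.trans h1 h2)).1, mul_zero]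
      · rw [(ha i k h1).1, zero_mul]
    · rw [mul_inv_rev, Units.val_mul, Matrix.mul_apply]
      refine Finset.sum_eq_zero fun k _ => ?_
      by_cases h1 : r.rel i k
      · rw [(ha k j fun h2 => h (r.trans h1 h2)).2, mul_zero]
      · rw [(hb i k h1).2, zero_mul]
  inv_mem' {a} ha i j h := ⟨(ha i j h).2, by rw [inv_inv]; exact (ha i j h).1⟩

/-- The map `G_r(R) → G_r(R')` induced by a ring homomorphism `f : R → R'`. -/
def Gp.map (r : Pre n) {R R' : Type} [CommRing R] [CommRing R'] (f : R →+* R') :
    Gp r R →* Gp r R' where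
  toFun g := ⟨Matrix.GeneralLinearGroup.map f g.1, fun i j h => by
    refine ⟨?_, ?_⟩
    · exact (congrArg f (g.2 i j h).1).trans (map_zero f)
    · rw [← map_inv]
      exact (congrArg f (g.2 i j h).2).trans (map_zero f)⟩
  map_one' := Subtype.ext (map_one _)
  map_mul' g h := Subtype.ext (map_mul _ _ _)

/-- An action of the group functor `G_r` on `Spec A`, that is on the functor `Hom(A, -)`. -/
structure Act (r : Pre n) (A : Type) [CommRing A] where
  act : ∀ {R : Type} [CommRing R], Gp r R → (A →+* R) → (A →+* R)
  one : ∀ {R : Type} [CommRing R] (x : A →+* R), act 1 x = x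
  mul : ∀ {R : Type} [CommRing R] (g h : Gp r R) (x : A →+* R), act (g * h) x = act g (act h x)
  nat : ∀ {R R' : Type} [CommRing R] [CommRing R'] (f : R →+* R') (g : Gp r R) (x : A →+* R),
    act (Gp.map r f g) (f.comp x) = f.comp (act g x)

/-- The ideal `I` (equivalently, the closed subscheme given by `I`) is stable under the action. -/
def Act.Stable {r : Pre n} {A : Type} [CommRing A] (α : Act r A) (I : Ideal A) : Prop :=
  ∀ {R : Type} [CommRing R] (g : Gp r R) (x : A →+* R), (∀ a ∈ I, x a = 0) →
    ∀ a ∈ I, α.act g x a = 0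

/-- The open subscheme of `Spec A` given by the complement of the zero locus of `e`. -/
def DD {A : Type} [CommRing A] (e : Ideal A) : (Spec (CommRingCat.of A)).Opens :=
  ⟨(PrimeSpectrum.zeroLocus (e : Set A))ᶜ, (PrimeSpectrum.isClosed_zeroLocus _).isOpen_compl⟩

/-- The open subscheme of `Proj 𝒮` given by the complement of the zero locus of `c`. -/
def projOpen {S : Type} [CommRing S] (𝒮 : ℕ → AddSubgroup S) [GradedRing 𝒮] (c : Ideal S) :
    (Proj 𝒮).Opens :=
  ⟨(ProjectiveSpectrum.zeroLocus 𝒮 (c : Set S))ᶜ,
    (ProjectiveSpectrum.isClosed_zeroLocus 𝒮 _).isOpen_compl⟩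

/-- The graded ring `𝒮` is finitely generated, and is generated by its elements of degree `0`
and `1`. -/
structure Std {S : Type} [CommRing S] (𝒮 : ℕ → AddSubgroup S) : Prop where
  fg : (Int.castRingHom S).FiniteType
  gen : Subring.closure ((𝒮 0 : Set S) ∪ 𝒮 1) = ⊤

/-- Classes of arithmetic schemes with the formal properties of the class of those `X` for which
all groups `H^i(X_et, ℤ^c(n))` with `n < 0` are finitely generated. -/
structure Rules (P : Scheme.{0} → Prop) : Prop where
  /-- invariance under isomorphism -/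
  iso : ∀ X Y : Scheme.{0}, Arithmetic X → Nonempty (X ≅ Y) → P X → P Y
  /-- the empty scheme -/
  empty : ∀ X : Scheme.{0}, IsEmpty X → P X
  /-- two-out-of-three for a closed subscheme `Z` of `X` and its open complement `U` -/
  closed : ∀ (Z X U : Scheme.{0}) (i : Z ⟶ X) (j : U ⟶ X), Arithmetic X → ClosedOpen i j →
    P X → P U → P Z
  /-- two-out-of-three for a closed subscheme `Z` of `X` and its open complement `U` -/
  opn : ∀ (Z X U : Scheme.{0}) (i : Z ⟶ X) (j : U ⟶ X), Arithmetic X → ClosedOpen i j →
    P X → P Z → P U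
  /-- two-out-of-three for a closed subscheme `Z` of `X` and its open complement `U` -/
  glue : ∀ (Z X U : Scheme.{0}) (i : Z ⟶ X) (j : U ⟶ X), Arithmetic X → ClosedOpen i j →
    P Z → P U → P X
  /-- homotopy invariance: the affine line over a member -/
  line : ∀ X : Scheme.{0}, Arithmetic X → P X → P (AffineSpace (Fin 1) X)
  /-- spectra of finitely generated rings of dimension at most one -/
  dimOne : ∀ (A : Type) [CommRing A], (Int.castRingHom A).FiniteType → ringKrullDim A ≤ 1 →
    P (Spec (CommRingCat.of A))
  /-- transfer: proper surjective maps to schemes which are smooth over `ℤ` or over a prime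
  field -/
  proper : ∀ (E X : Scheme.{0}) (f : E ⟶ X) (p : ℕ) (s : X ⟶ Spec (CommRingCat.of (ZMod p))),
    (p = 0 ∨ p.Prime) → Arithmetic X → IsProper f → Surjective f → Smooth s → P E → P X
  /-- the projection of a punctured affine cone to its base -/
  cone : ∀ (S : Type) [CommRing S] (𝒮 : ℕ → AddSubgroup S) [GradedRing 𝒮] (c : Ideal S),
    Std 𝒮 → c.IsHomogeneous 𝒮 → P (DD (c * Ideal.span (𝒮 1 : Set S))).toScheme →
    P (projOpen 𝒮 c).toScheme

end Pool.Agent.Helper72.OB
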