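import Pool.Agent.Helper72.OB.Defs
import Pool.Agent.Helper65.Mor.SchemeMain
import Pool.Agent.Helper9.RS.Defs2

/-!
# Orbit theorem: internal definitions
-/

set_option autoImplicit false

namespace Pool.Agent.Helper72.OB

open AlgebraicGeometry CategoryTheory
open Pool.Agent.Helper65.Mor (Arithmetic ClosedOpen FGen)
open Pool.Agent.Helper9.RS (Kron)

variable {n : ℕ}

section Group

variable (r : Pre n)

/-- matrices supported on `r` -/
def Supp {R : Type} [CommRing R] (M : Matrix (Fin n) (Fin n) R) : Prop :=
  ∀ i j, ¬ r.rel i j → M i j = 0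

theorem Supp.mul {r : Pre n} {R : Type} [CommRing R] {M N : Matrix (Fin n) (Fin n) R}
    (hM : Supp r M) (hN : Supp r N) : Supp r (M * N) := by
  intro i j h
  rw [Matrix.mul_apply]
  refine Finset.sum_eq_zero fun k _ => ?_
  by_cases h1 : r.rel i k
  · rw [hN k j fun h2 => h (r.trans h1 h2), mul_zero]
  · rw [hM i k h1, zero_mul]

theorem Supp.one {r : Pre n} {R : Type} [CommRing R] : Supp r (1 : Matrix (Fin n) (Fin n) R) := by
  intro i j h
  have hij : i ≠ j := fun e => h (e ▸ r.refl i)
  simp [hij]

theorem Supp.smul {r : Pre n} {R : Type} [CommRing R] {M : Matrix (Fin n) (Fin n) R}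
    (hM : Supp r M) (c : R) : Supp r (c • M) := by
  intro i j h
  simp [hM i j h]

theorem Supp.add {r : Pre n} {R : Type} [CommRing R] {M N : Matrix (Fin n) (Fin n) R}
    (hM : Supp r M) (hN : Supp r N) : Supp r (M + N) := by
  intro i j h
  simp [hM i j h, hN i j h]

/-- the inverse of an invertible matrix supported on `r` is supported on `r` -/
theorem Supp.inv {r : Pre n} {R : Type} [CommRing R] (g : Matrix.GeneralLinearGroup (Fin n) R)
    (hg : Supp r g.1) : Supp r g⁻¹.1 := by
  set M := g.1 with hM
  have hp : ∀ p : Polynomial R, Supp r (Polynomial.aeval M p) := by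
    intro p
    induction p using Polynomial.induction_on' with
    | add p q hp hq => rw [map_add]; exact hp.add hq
    | monomial k c =>
      rw [Polynomial.aeval_monomial]
      have h1 : Supp r (M ^ k) := by
        induction k with
        | zero => rw [pow_zero]; exact Supp.one
        | succ k ih => rw [pow_succ]; exact ih.mul hg
      rw [← Algebra.smul_def]
      exact h1.smul c
  have h2 := Matrix.aeval_self_charpoly M
  rw [← Polynomial.X_mul_divX_add M.charpoly, map_add, map_mul, Polynomial.aeval_X,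
    Polynomial.aeval_C] at h2
  set c := M.charpoly.coeff 0 with hc
  set q := Polynomial.aeval M M.charpoly.divX with hq
  have hq' : Supp r q := hp _
  have hdet : IsUnit M.det := (Matrix.isUnit_iff_isUnit_det _).1 g.isUnit
  have hcu : IsUnit c := by
    rw [Matrix.det_eq_sign_charpoly_coeff] at hdet
    exact isUnit_of_mul_isUnit_right hdet
  obtain ⟨d, hd⟩ := hcu.exists_left_inv
  have h3 : g⁻¹.1 * M = 1 := by
    rw [hM]
    exact g.inv_mul
  have h4 : q = -(c • g⁻¹.1) := by
    have h5 : g⁻¹.1 * (M * q + algebraMap R (Matrix (Fin n) (Fin n) R) c) = 0 := by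
      rw [h2, mul_zero]
    rw [mul_add, ← mul_assoc, h3, one_mul, ← Algebra.commutes, ← Algebra.smul_def] at h5
    exact eq_neg_of_add_eq_zero_left h5
  have h6 : g⁻¹.1 = (-d) • q := by
    rw [h4, smul_neg, neg_smul, neg_neg, smul_smul, hd, one_smul]
  rw [h6]
  exact hq'.smul _

/-- an element of `G_r(R)` from a supported matrix with invertible determinant -/
noncomputable def Gp.mk {R : Type} [CommRing R] (M : Matrix (Fin n) (Fin n) R) (hM : Supp r M)
    (hdet : IsUnit M.det) : Gp r R :=
  ⟨Matrix.GeneralLinearGroup.mk'' M hdet, fun i j h => ⟨hM i j h, Supp.inv _ hM i j h⟩⟩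

@[simp] theorem Gp.mk_val {R : Type} [CommRing R] (M : Matrix (Fin n) (Fin n) R) (hM : Supp r M)
    (hdet : IsUnit M.det) : (Gp.mk r M hM hdet).1.1 = M := rfl

@[simp] theorem Gp.map_val {R R' : Type} [CommRing R] [CommRing R'] (f : R →+* R') (g : Gp r R)
    (i j : Fin n) : (Gp.map r f g).1.1 i j = f (g.1.1 i j) := rfl

theorem Gp.ext' {r : Pre n} {R : Type} [CommRing R] {g h : Gp r R}
    (H : ∀ i j, r.rel i j → g.1.1 i j = h.1.1 i j) : g = h := by
  apply Subtype.ext
  apply Units.ext
  ext i j
  by_cases hij : r.rel i j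
  · exact H i j hij
  · rw [(g.2 i j hij).1, (h.2 i j hij).1]

theorem Gp.map_comp {R R' R'' : Type} [CommRing R] [CommRing R'] [CommRing R''] (f : R →+* R')
    (f' : R' →+* R'') (g : Gp r R) : Gp.map r (f'.comp f) g = Gp.map r f' (Gp.map r f g) :=
  Gp.ext' fun _ _ _ => rfl

theorem Gp.map_id {R : Type} [CommRing R] (g : Gp r R) : Gp.map r (RingHom.id R) g = g :=
  Gp.ext' fun _ _ _ => rfl

/-- the variables of the coordinate ring of `G_r` -/
abbrev Idx := {p : Fin n × Fin n // r.rel p.1 p.2}

open Classical in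
/-- the generic supported matrix -/
noncomputable def gmat (A : Type) [CommRing A] :
    Matrix (Fin n) (Fin n) (MvPolynomial (Idx r) A) :=
  fun i j => if h : r.rel i j then MvPolynomial.X ⟨(i, j), h⟩ else 0

/-- the coordinate ring of `G_r` over `A` -/
abbrev RR (A : Type) [CommRing A] : Type := Localization.Away (gmat r A).det

/-- the structure map of the coordinate ring -/
noncomputable def ιR (A : Type) [CommRing A] : A →+* RR r A :=
  (algebraMap (MvPolynomial (Idx r) A) (RR r A)).comp MvPolynomial.C

/-- the universal element -/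
noncomputable def gam (A : Type) [CommRing A] : Gp r (RR r A) :=
  Gp.mk r ((gmat r A).map (algebraMap (MvPolynomial (Idx r) A) (RR r A)))
    (fun i j h => by simp [gmat, h])
    (by
      have h : ((gmat r A).map (algebraMap (MvPolynomial (Idx r) A) (RR r A))).det =
          algebraMap (MvPolynomial (Idx r) A) (RR r A) (gmat r A).det :=
        (RingHom.map_det _ _).symm
      rw [h]
      exact IsLocalization.Away.algebraMap_isUnit _)

theorem gam_val {A : Type} [CommRing A] (i j : Fin n) (h : r.rel i j) :
    (gam r A).1.1 i j = algebraMap (MvPolynomial (Idx r) A) (RR r A) (MvPolynomial.X ⟨(i, j), h⟩) := by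
  have h1 : (gam r A).1.1 i j = algebraMap (MvPolynomial (Idx r) A) (RR r A) (gmat r A i j) := rfl
  rw [h1, gmat, dif_pos h]

/-- evaluation of functions on `G_r` at an element -/
noncomputable def ev {A R : Type} [CommRing A] [CommRing R] (x : A →+* R) (g : Gp r R) :
    RR r A →+* R :=
  IsLocalization.Away.lift (S := RR r A) (g := MvPolynomial.eval₂Hom x fun p => g.1.1 p.1.1 p.1.2)
    (gmat r A).det (by
      have h : (MvPolynomial.eval₂Hom x fun p : Idx r => g.1.1 p.1.1 p.1.2) (gmat r A).det =
          g.1.1.det := by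
        rw [RingHom.map_det]
        congr 1
        ext i j
        by_cases h : r.rel i j
        · simp [gmat, h]
        · simp [gmat, h, (g.2 i j h).1]
      rw [h]
      exact (Matrix.isUnit_iff_isUnit_det _).1 g.1.isUnit)

theorem ev_algebraMap {A R : Type} [CommRing A] [CommRing R] (x : A →+* R) (g : Gp r R)
    (F : MvPolynomial (Idx r) A) : ev r x g (algebraMap _ _ F) =
      MvPolynomial.eval₂ x (fun p => g.1.1 p.1.1 p.1.2) F :=
  IsLocalization.Away.lift_eq _ _ _

theorem ev_comp_ι {A R : Type} [CommRing A] [CommRing R] (x : A →+* R) (g : Gp r R) :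
    (ev r x g).comp (ιR r A) = x := by
  ext a
  simp only [ιR, RingHom.comp_apply]
  rw [ev_algebraMap, MvPolynomial.eval₂_C]

theorem ev_ι {A R : Type} [CommRing A] [CommRing R] (x : A →+* R) (g : Gp r R) (a : A) :
    ev r x g (ιR r A a) = x a := congrArg (fun f => f a) (ev_comp_ι r x g)

theorem map_ev_gam {A R : Type} [CommRing A] [CommRing R] (x : A →+* R) (g : Gp r R) :
    Gp.map r (ev r x g) (gam r A) = g := by
  apply Gp.ext'
  intro i j h
  rw [Gp.map_val, gam_val r i j h, ev_algebraMap, MvPolynomial.eval₂_X]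

theorem RR_hom_ext {A R : Type} [CommRing A] [CommRing R] {f f' : RR r A →+* R}
    (h1 : f.comp (ιR r A) = f'.comp (ιR r A))
    (h2 : Gp.map r f (gam r A) = Gp.map r f' (gam r A)) : f = f' := by
  apply IsLocalization.ringHom_ext (Submonoid.powers (gmat r A).det)
  apply MvPolynomial.ringHom_ext
  · intro a
    exact congrArg (fun f => f a) h1
  · rintro ⟨⟨i, j⟩, h⟩
    have := congrArg (fun g => g.1.1 i j) h2
    simp only [Gp.map_val] at this
    rw [gam_val r i j h] at this
    exact this

theorem eq_ev {A R : Type} [CommRing A] [CommRing R] (f : RR r A →+* R) :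
    f = ev r (f.comp (ιR r A)) (Gp.map r f (gam r A)) :=
  RR_hom_ext r (ev_comp_ι r _ _).symm (map_ev_gam r _ _).symm

/-- functoriality of the coordinate ring -/
noncomputable def RRmap {A B : Type} [CommRing A] [CommRing B] (f : A →+* B) : RR r A →+* RR r B :=
  ev r ((ιR r B).comp f) (gam r B)

end Group

variable {r : Pre n} {A : Type} [CommRing A]

/-- the coaction -/
noncomputable def Act.rho (α : Act r A) : A →+* RR r A := α.act (gam r A) (ιR r A)

/-- the orbit map of the point `y` -/
noncomputable def Act.orb (α : Act r A) {R : Type} [CommRing R] (y : A →+* R) : A →+* RR r R :=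
  α.act (gam r R) ((ιR r R).comp y)

theorem Act.act_eq (α : Act r A) {R : Type} [CommRing R] (g : Gp r R) (x : A →+* R) :
    α.act g x = (ev r x g).comp α.rho := by
  rw [Act.rho, ← α.nat, ev_comp_ι, map_ev_gam]

theorem Act.orb_eq (α : Act r A) {R : Type} [CommRing R] (y : A →+* R) :
    α.orb y = (RRmap r y).comp α.rho := by
  rw [Act.orb, Act.act_eq]
  rfl

/-- evaluation of the orbit map -/
theorem Act.ev_orb (α : Act r A) {R R' : Type} [CommRing R] [CommRing R'] (y : A →+* R)
    (f : R →+* R') (g : Gp r R') : (ev r f g).comp (α.orb y) = α.act g (f.comp y) := by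
  rw [Act.orb, ← α.nat, ← RingHom.comp_assoc, ev_comp_ι, map_ev_gam]

/-- the largest stable ideal contained in `I` -/
noncomputable def Act.core (α : Act r A) (I : Ideal A) : Ideal A :=
  RingHom.ker (α.orb (Ideal.Quotient.mk I))

/-- the action on a stable closed subscheme -/
noncomputable def Act.quot (α : Act r A) (I : Ideal A) (hI : α.Stable I) : Act r (A ⧸ I) where
  act g x := Ideal.Quotient.lift I (α.act g (x.comp (Ideal.Quotient.mk I)))
    (hI g _ fun a ha => by
      rw [RingHom.comp_apply, Ideal.Quotient.eq_zero_iff_mem.2 ha, map_zero])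
  one x := by
    apply Ideal.Quotient.ringHom_ext
    rw [Ideal.Quotient.lift_comp_mk, α.one]
  mul g h x := by
    apply Ideal.Quotient.ringHom_ext
    rw [Ideal.Quotient.lift_comp_mk, α.mul, Ideal.Quotient.lift_comp_mk,
      Ideal.Quotient.lift_comp_mk]
  nat f g x := by
    apply Ideal.Quotient.ringHom_ext
    rw [Ideal.Quotient.lift_comp_mk, RingHom.comp_assoc, RingHom.comp_assoc,
      Ideal.Quotient.lift_comp_mk, α.nat]

theorem Act.quot_comp_mk (α : Act r A) (I : Ideal A) (hI : α.Stable I) {R : Type} [CommRing R]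
    (g : Gp r R) (x : A ⧸ I →+* R) : ((α.quot I hI).act g x).comp (Ideal.Quotient.mk I) =
      α.act g (x.comp (Ideal.Quotient.mk I)) := Ideal.Quotient.lift_comp_mk _ _ _

/-- the inclusion `G_{r'} → G_r` for `r' ≤ r` -/
def Gp.incl {r' r : Pre n} (h : ∀ i j, r'.rel i j → r.rel i j) (R : Type) [CommRing R] :
    Gp r' R →* Gp r R where
  toFun g := ⟨g.1, fun i j hij => g.2 i j fun h' => hij (h i j h')⟩
  map_one' := rfl
  map_mul' _ _ := rfl

/-- restriction of an action -/
def Act.restr {r' r : Pre n} (h : ∀ i j, r'.rel i j → r.rel i j) (α : Act r A) : Act r' A where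
  act g x := α.act (Gp.incl h _ g) x
  one x := by rw [map_one, α.one]
  mul g g' x := by rw [map_mul, α.mul]
  nat f g x := by rw [← α.nat]; rfl

theorem Act.Stable.restr {r' r : Pre n} (h : ∀ i j, r'.rel i j → r.rel i j) {α : Act r A}
    {I : Ideal A} (hI : α.Stable I) : (α.restr h).Stable I := fun g x hx => hI (Gp.incl h _ g) x hx

/-- the scheme `D(c) ∩ V(b)` -/
noncomputable abbrev LC {A : Type} [CommRing A] (b c : Ideal A) : Scheme.{0} :=
  (DD (c.map (Ideal.Quotient.mk b))).toScheme

/-- the generic statement for the group `G_r`: if a geometric generic point of the integral scheme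
`Spec A` is in the orbit of a point `y` over a small field, then there is a nonempty stable open
subscheme of `Spec A` all of whose nonempty stable open subschemes belong to `P`. -/
def Gen (P : Scheme.{0} → Prop) (r : Pre n) : Prop :=
  ∀ (A : Type) [CommRing A] [IsDomain A], FGen A → ∀ (α : Act r A) (L : Type) [Field L]
    (y : A →+* L), Kron 0 L → Function.Injective (α.orb y) →
    ∃ d : Ideal A, d ≠ ⊥ ∧ α.Stable d ∧ ∀ e : Ideal A, e ≠ ⊥ → e ≤ d → α.Stable e →
      P (DD e).toScheme

/-- antisymmetric preorders -/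
def Pre.Antisymm (r : Pre n) : Prop := ∀ i j, r.rel i j → r.rel j i → i = j

/-- remove from `r` the relations `i → o` for `i ≠ o` equivalent to `o` -/
def Pre.cut (r : Pre n) (o : Fin n) : Pre n where
  rel i j := r.rel i j ∧ ¬ (j = o ∧ i ≠ o ∧ r.rel o i)
  refl i := ⟨r.refl i, fun h => h.2.1 h.1⟩
  trans {i j k} h1 h2 := ⟨r.trans h1.1 h2.1, fun ⟨hk, hi, hoi⟩ => by
    subst hk
    have h3 : j = k := by
      by_contra h4
      exact h2.2 ⟨rfl, h4, r.trans hoi h1.1⟩
    subst h3
    exact h1.2 ⟨rfl, hi, hoi⟩⟩

theorem Pre.cut_le (r : Pre n) (o : Fin n) (i j : Fin n) (h : (r.cut o).rel i j) : r.rel i j := h.1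

end Pool.Agent.Helper72.OB
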