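import Pool.Agent.Helper72.OB.Defs2

/-!
# Orbit theorem: the graded ring of the parabolic step
-/

set_option autoImplicit false

namespace Pool.Agent.Helper72.OB

open AlgebraicGeometry

/-- A graded ring `S` with `S_0 = A`, generated by elements `ω_i`, `i < m`, of degree one, whose
charts `S_{(ω_j)}` are polynomial rings `D[u_i : i ≠ j]` with `ω_i / ω_j ↦ u_i`. -/
structure ProjData (A D : Type) [CommRing A] [CommRing D] (m : ℕ) where
  S : Type
  ring : CommRing S
  𝒮 : ℕ → AddSubgroup S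
  graded : GradedRing 𝒮
  zero : A ≃+* 𝒮 0
  ω : Fin m → S
  ω_mem : ∀ i, ω i ∈ 𝒮 1
  gen : Algebra.adjoin (𝒮 0) (Set.range ω) = ⊤
  chart : ∀ j, HomogeneousLocalization.Away 𝒮 (ω j) ≃+* MvPolynomial {i : Fin m // i ≠ j} D
  chart_ω : ∀ (j i : Fin m) (h : i ≠ j),
    chart j (HomogeneousLocalization.Away.mk 𝒮 (ω_mem j) 1 (ω i) (by simpa using ω_mem i)) =
      MvPolynomial.X ⟨i, h⟩

attribute [instance] ProjData.ring ProjData.graded

/-- the map from `A` to the chart `S_{(ω_j)}` -/
noncomputable def ProjData.toAway {A D : Type} [CommRing A] [CommRing D] {m : ℕ}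
    (pd : ProjData A D m) (j : Fin m) : A →+* HomogeneousLocalization.Away pd.𝒮 (pd.ω j) :=
  (HomogeneousLocalization.fromZeroRingHom pd.𝒮 (Submonoid.powers (pd.ω j))).comp
    (pd.zero : A →+* pd.𝒮 0)

end Pool.Agent.Helper72.OB
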