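import Mathlib

/-!
# Orbit theorem, block H3a: the graded ring `⊕ (φ(A)[w])_d X^d` and its charts
-/

set_option autoImplicit false

namespace Pool.Agent.Helper72.OB

namespace ReesAux

open Polynomial

variable {A B : Type} [CommRing A] [CommRing B] [Algebra A B]

/-- The polynomials whose coefficient of degree `d` is in `W ^ d`. -/
def alg (W : Submodule A B) : Subring B[X] where
  carrier := {F | ∀ d, F.coeff d ∈ W ^ d}
  mul_mem' := by
    intro F G hF hG d
    rw [Polynomial.coeff_mul]
    refine Submodule.sum_mem _ fun p hp => ?_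
    rw [← Finset.HasAntidiagonal.mem_antidiagonal.1 hp, pow_add]
    exact Submodule.mul_mem_mul (hF _) (hG _)
  one_mem' := by
    intro d
    rw [Polynomial.coeff_one]
    split_ifs with h
    · subst h
      rw [pow_zero]
      exact Submodule.one_le.1 le_rfl
    · exact Submodule.zero_mem _
  add_mem' := by
    intro F G hF hG d
    rw [Polynomial.coeff_add]
    exact Submodule.add_mem _ (hF d) (hG d)
  zero_mem' := by
    intro d
    rw [Polynomial.coeff_zero]
    exact Submodule.zero_mem _
  neg_mem' := by
    intro F hF d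
    rw [Polynomial.coeff_neg]
    exact Submodule.neg_mem _ (hF d)

lemma mem_alg {W : Submodule A B} {F : B[X]} : F ∈ alg W ↔ ∀ d, F.coeff d ∈ W ^ d := Iff.rfl

/-- The part of degree `d`. -/
def gr (W : Submodule A B) (d : ℕ) : AddSubgroup (alg W) where
  carrier := {F | ∀ k, k ≠ d → (F : B[X]).coeff k = 0}
  add_mem' := by
    intro F G hF hG k hk
    change ((F : B[X]) + (G : B[X])).coeff k = 0
    rw [Polynomial.coeff_add, hF k hk, hG k hk, add_zero]
  zero_mem' := by
    intro k _
    exact Polynomial.coeff_zero k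
  neg_mem' := by
    intro F hF k hk
    change (-(F : B[X])).coeff k = 0
    rw [Polynomial.coeff_neg, hF k hk, neg_zero]

lemma mem_gr {W : Submodule A B} {d : ℕ} {F : alg W} :
    F ∈ gr W d ↔ ∀ k, k ≠ d → (F : B[X]).coeff k = 0 := Iff.rfl

/-- The monomial `c X^d`. -/
noncomputable def mono (W : Submodule A B) (d : ℕ) (c : B) (hc : c ∈ W ^ d) : alg W :=
  ⟨monomial d c, by
    intro k
    rw [Polynomial.coeff_monomial]
    split_ifs with h
    · subst h
      exact hc
    · exact Submodule.zero_mem _⟩

@[simp] lemma mono_coe (W : Submodule A B) (d : ℕ) (c : B) (hc : c ∈ W ^ d) :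
    ((mono W d c hc : alg W) : B[X]) = monomial d c := rfl

lemma mono_mem (W : Submodule A B) (d : ℕ) (c : B) (hc : c ∈ W ^ d) : mono W d c hc ∈ gr W d := by
  intro k hk
  rw [mono_coe, Polynomial.coeff_monomial, if_neg (Ne.symm hk)]

lemma eq_mono {W : Submodule A B} {d : ℕ} {F : alg W} (hF : F ∈ gr W d) :
    F = mono W d ((F : B[X]).coeff d) (F.2 d) := by
  refine Subtype.ext (Polynomial.ext fun k => ?_)
  rw [mono_coe, Polynomial.coeff_monomial]
  split_ifs with h
  · rw [h]
  · exact hF k (Ne.symm h)

instance gradedMonoid (W : Submodule A B) : SetLike.GradedMonoid (gr W) where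
  one_mem := by
    intro k hk
    change (1 : B[X]).coeff k = 0
    rw [Polynomial.coeff_one, if_neg hk]
  mul_mem := by
    intro i j F G hF hG k hk
    change ((F : B[X]) * (G : B[X])).coeff k = 0
    rw [Polynomial.coeff_mul]
    refine Finset.sum_eq_zero fun p hp => ?_
    rcases eq_or_ne p.1 i with h1 | h1
    · rcases eq_or_ne p.2 j with h2 | h2
      · exact absurd (by rw [← Finset.HasAntidiagonal.mem_antidiagonal.1 hp, h1, h2]) hk
      · rw [hG _ h2, mul_zero]
    · rw [hF _ h1, zero_mul]

open DirectSum in
lemma coeff_coe (W : Submodule A B) (x : ⨁ i, gr W i) (i : ℕ) :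
    ((DirectSum.coeAddMonoidHom (gr W) x : alg W) : B[X]).coeff i =
      (((x i : gr W i) : alg W) : B[X]).coeff i := by
  classical
  induction x using DirectSum.induction_on with
  | zero =>
    rw [map_zero, DirectSum.zero_apply]
    rfl
  | of j y =>
    rw [DirectSum.coeAddMonoidHom_of]
    rcases eq_or_ne j i with h | h
    · subst h
      rw [DirectSum.of_eq_same]
    · rw [DirectSum.of_eq_of_ne _ _ _ (Ne.symm h)]
      exact y.2 i (Ne.symm h)
  | add x y hx hy =>
    rw [map_add, DirectSum.add_apply]
    change ((_ : B[X]) + (_ : B[X])).coeff i = ((_ : B[X]) + (_ : B[X])).coeff i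
    rw [Polynomial.coeff_add, Polynomial.coeff_add, hx, hy]

lemma isInternal (W : Submodule A B) : DirectSum.IsInternal (gr W) := by
  classical
  refine ⟨(injective_iff_map_eq_zero _).2 fun x hx => ?_, fun F => ?_⟩
  · refine DFinsupp.ext fun i => Subtype.ext ?_
    have h := coeff_coe W x i
    rw [hx] at h
    have h2 := eq_mono (x i).2
    refine h2.trans (Subtype.ext ?_)
    rw [mono_coe, ← h]
    change monomial i ((0 : B[X]).coeff i) = 0
    rw [Polynomial.coeff_zero, Polynomial.monomial_zero_right]
  · refine ⟨∑ i ∈ (F : B[X]).support,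
      DirectSum.of (fun i => gr W i) i ⟨mono W i ((F : B[X]).coeff i) (F.2 i), mono_mem W _ _ _⟩, ?_⟩
    rw [map_sum]
    refine Subtype.ext ?_
    rw [AddSubmonoidClass.coe_finsetSum]
    simp only [DirectSum.coeAddMonoidHom_of, mono_coe]
    exact ((F : B[X]).as_sum_support).symm

noncomputable instance gradedRing (W : Submodule A B) : GradedRing (gr W) where
  __ := gradedMonoid W
  __ := (isInternal W).chooseDecomposition

section Zero

/-- The ring homomorphism `A → S_0`. -/
noncomputable def zeroHom (W : Submodule A B) : A →+* gr W 0 where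
  toFun a := ⟨mono W 0 (algebraMap A B a) (by rw [pow_zero]; exact Submodule.algebraMap_mem a),
    mono_mem _ _ _ _⟩
  map_one' := by
    refine Subtype.ext (Subtype.ext ?_)
    rw [mono_coe, map_one]
    rfl
  map_mul' a b := by
    refine Subtype.ext (Subtype.ext ?_)
    change monomial 0 (algebraMap A B (a * b)) =
      monomial 0 (algebraMap A B a) * monomial 0 (algebraMap A B b)
    rw [Polynomial.monomial_mul_monomial, map_mul]
  map_zero' := by
    refine Subtype.ext (Subtype.ext ?_)
    rw [mono_coe, map_zero, Polynomial.monomial_zero_right]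
    rfl
  map_add' a b := by
    refine Subtype.ext (Subtype.ext ?_)
    change monomial 0 (algebraMap A B (a + b)) =
      monomial 0 (algebraMap A B a) + monomial 0 (algebraMap A B b)
    rw [← map_add, ← map_add]

lemma zeroHom_coe (W : Submodule A B) (a : A) :
    (((zeroHom W a : gr W 0) : alg W) : B[X]) = monomial 0 (algebraMap A B a) := rfl

lemma zeroHom_bijective (W : Submodule A B) (h : Function.Injective (algebraMap A B)) :
    Function.Bijective (zeroHom W) := by
  refine ⟨fun a b hab => h ?_, fun F => ?_⟩
  · have h1 : (((zeroHom W a : gr W 0) : alg W) : B[X]).coeff 0 =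
        (((zeroHom W b : gr W 0) : alg W) : B[X]).coeff 0 := by rw [hab]
    rw [zeroHom_coe, zeroHom_coe, Polynomial.coeff_monomial_same,
      Polynomial.coeff_monomial_same] at h1
    exact h1
  · have h1 := (F : alg W).2 0
    rw [pow_zero, Submodule.mem_one] at h1
    obtain ⟨a, ha⟩ := h1
    refine ⟨a, Subtype.ext ((Subtype.ext ?_ : ((zeroHom W a : gr W 0) : alg W) =
      mono W 0 _ ((F : alg W).2 0)).trans (eq_mono F.2).symm)⟩
    rw [zeroHom_coe, mono_coe, ha]

end Zero

section Main

variable {m : ℕ} (w : Fin m → B)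

variable (A) in
/-- The span of the elements `w_i`. -/
abbrev spn : Submodule A B := Submodule.span A (Set.range w)

lemma w_mem (i : Fin m) : w i ∈ spn A w ^ 1 := by
  rw [pow_one]
  exact Submodule.subset_span ⟨i, rfl⟩

variable (A) in
/-- The generators `w_i X`. -/
noncomputable def om (i : Fin m) : alg (spn A w) := mono _ 1 (w i) (w_mem w i)

lemma om_mem (i : Fin m) : om A w i ∈ gr (spn A w) 1 := mono_mem _ _ _ _

lemma mono_mem_adjoin (d : ℕ) : ∀ (c : B) (hc : c ∈ spn A w ^ d), mono (spn A w) d c hc ∈
    Algebra.adjoin (gr (spn A w) 0) (Set.range (om A w)) := by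
  have h0 : ∀ (a : A) (F : alg (spn A w)), F ∈ Algebra.adjoin (gr (spn A w) 0)
      (Set.range (om A w)) → ((zeroHom (spn A w) a : gr (spn A w) 0) : alg (spn A w)) * F ∈
        Algebra.adjoin (gr (spn A w) 0) (Set.range (om A w)) := by
    intro a F hF
    exact Subalgebra.smul_mem (Algebra.adjoin (gr (spn A w) 0) (Set.range (om A w))) hF
      (zeroHom (spn A w) a)
  have h1 : ∀ (c : B) (hc : c ∈ spn A w ^ 1), mono (spn A w) 1 c hc ∈
      Algebra.adjoin (gr (spn A w) 0) (Set.range (om A w)) := by
    intro c hc
    have hc' : c ∈ spn A w := by rwa [pow_one] at hc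
    induction hc' using Submodule.span_induction with
    | mem x hx =>
      obtain ⟨i, rfl⟩ := hx
      exact Algebra.subset_adjoin ⟨i, rfl⟩
    | zero =>
      have : mono (spn A w) 1 0 hc = 0 := Subtype.ext (by
        rw [mono_coe, Polynomial.monomial_zero_right]; rfl)
      rw [this]
      exact Subalgebra.zero_mem _
    | add x y hx hy h1 h2 =>
      have hx' : x ∈ spn A w ^ 1 := by rwa [pow_one]
      have hy' : y ∈ spn A w ^ 1 := by rwa [pow_one]
      have : mono (spn A w) 1 (x + y) hc = mono (spn A w) 1 x hx' + mono (spn A w) 1 y hy' :=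
        Subtype.ext (by
          change monomial 1 (x + y) = monomial 1 x + monomial 1 y
          rw [map_add])
      rw [this]
      exact Subalgebra.add_mem _ (h1 hx') (h2 hy')
    | smul a x hx h1 =>
      have hx' : x ∈ spn A w ^ 1 := by rwa [pow_one]
      have : mono (spn A w) 1 (a • x) hc =
          ((zeroHom (spn A w) a : gr (spn A w) 0) : alg (spn A w)) * mono (spn A w) 1 x hx' :=
        Subtype.ext (by
          change monomial 1 (a • x) = monomial 0 (algebraMap A B a) * monomial 1 x
          rw [Polynomial.monomial_mul_monomial, Algebra.smul_def])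
      rw [this]
      exact h0 _ _ (h1 hx')
  induction d with
  | zero =>
    intro c hc
    have hc' := hc
    rw [pow_zero, Submodule.mem_one] at hc'
    obtain ⟨a, ha⟩ := hc'
    have : mono (spn A w) 0 c hc =
        ((zeroHom (spn A w) a : gr (spn A w) 0) : alg (spn A w)) * 1 := Subtype.ext (by
          rw [mul_one, mono_coe, zeroHom_coe, ha])
    rw [this]
    exact h0 _ _ (Subalgebra.one_mem _)
  | succ d ih =>
    intro c hc
    have hc' := hc
    rw [pow_succ] at hc'
    induction hc' using Submodule.mul_induction_on' with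
    | mem_mul_mem x hx y hy =>
      have hy' : y ∈ spn A w ^ 1 := by rwa [pow_one]
      have : mono (spn A w) (d + 1) (x * y) hc = mono (spn A w) d x hx * mono (spn A w) 1 y hy' :=
        Subtype.ext (by
          change monomial (d + 1) (x * y) = monomial d x * monomial 1 y
          rw [Polynomial.monomial_mul_monomial])
      rw [this]
      exact Subalgebra.mul_mem _ (ih x hx) (h1 y hy')
    | add x hx y hy h2 h3 =>
      have hx' : x ∈ spn A w ^ (d + 1) := by rwa [pow_succ]
      have hy' : y ∈ spn A w ^ (d + 1) := by rwa [pow_succ]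
      have : mono (spn A w) (d + 1) (x + y) hc =
          mono (spn A w) (d + 1) x hx' + mono (spn A w) (d + 1) y hy' :=
        Subtype.ext (by
          change monomial (d + 1) (x + y) = monomial (d + 1) x + monomial (d + 1) y
          rw [map_add])
      rw [this]
      exact Subalgebra.add_mem _ (h2 hx') (h3 hy')

lemma adjoin_eq : Algebra.adjoin (gr (spn A w) 0) (Set.range (om A w)) = ⊤ := by
  refine eq_top_iff.2 fun F _ => ?_
  have hF : F = ∑ i ∈ (F : B[X]).support, mono (spn A w) i ((F : B[X]).coeff i) (F.2 i) := by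
    refine Subtype.ext ?_
    rw [AddSubmonoidClass.coe_finsetSum]
    simp only [mono_coe]
    exact (F : B[X]).as_sum_support
  rw [hF]
  exact Subalgebra.sum_mem _ fun i _ => mono_mem_adjoin w i _ _

variable {K : Type} [Field K] [Algebra B K]

variable (A K) in
/-- Evaluation of `S` at `X = 1 / w_j`. -/
noncomputable def ev (j : Fin m) : alg (spn A w) →+* K :=
  (Polynomial.eval₂RingHom (algebraMap B K) (algebraMap B K (w j))⁻¹).comp (alg (spn A w)).subtype

lemma ev_of_mem {j : Fin m} {d : ℕ} {F : alg (spn A w)} (hF : F ∈ gr (spn A w) d) :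
    ev A w K j F = algebraMap B K ((F : B[X]).coeff d) / algebraMap B K (w j) ^ d := by
  conv_lhs => rw [eq_mono hF]
  change Polynomial.eval₂ _ _ (monomial d _) = _
  rw [Polynomial.eval₂_monomial, inv_pow, div_eq_mul_inv]

variable (A K) in
lemma ev_om [FaithfulSMul B K] {j : Fin m} (hw : w j ≠ 0) : ev A w K j (om A w j) = 1 := by
  have h : algebraMap B K (w j) ≠ 0 := by
    rw [Ne, ← map_zero (algebraMap B K)]
    exact fun h => hw (FaithfulSMul.algebraMap_injective B K h)
  rw [ev_of_mem w (om_mem w j), om, mono_coe, Polynomial.coeff_monomial_same, pow_one,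
    div_self h]

variable (A K) in
lemma isUnit_ev [FaithfulSMul B K] {j : Fin m} (hw : w j ≠ 0) :
    IsUnit (ev A w K j (om A w j)) := by
  rw [ev_om A w K hw]
  exact isUnit_one

variable (A K) in
/-- The embedding of the chart in `K`. -/
noncomputable def psi [FaithfulSMul B K] {j : Fin m} (hw : w j ≠ 0) :
    HomogeneousLocalization.Away (gr (spn A w)) (om A w j) →+* K :=
  (IsLocalization.Away.lift (S := Localization.Away (om A w j)) (om A w j)
    (g := ev A w K j) (isUnit_ev A w K hw)).comp
    (algebraMap (HomogeneousLocalization.Away (gr (spn A w)) (om A w j))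
      (Localization.Away (om A w j)))

lemma psi_mk [FaithfulSMul B K] {j : Fin m} (hw : w j ≠ 0) (h1 : om A w j ∈ gr (spn A w) 1) (k : ℕ)
    (F : alg (spn A w)) (hF : F ∈ gr (spn A w) (k • 1)) :
    psi A w K hw (HomogeneousLocalization.Away.mk (gr (spn A w)) h1 k F hF) = ev A w K j F := by
  change IsLocalization.Away.lift (S := Localization.Away (om A w j)) (om A w j)
    (isUnit_ev A w K hw) (HomogeneousLocalization.Away.mk (gr (spn A w)) h1 k F hF).val = _
  rw [HomogeneousLocalization.Away.val_mk]
  have h : Localization.mk F ⟨om A w j ^ k, by use k⟩ *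
      algebraMap (alg (spn A w)) (Localization.Away (om A w j)) (om A w j ^ k) =
        algebraMap (alg (spn A w)) (Localization.Away (om A w j)) F := by
    rw [Localization.mk_eq_mk', IsLocalization.mk'_spec]
  have h2 := congrArg (IsLocalization.Away.lift (S := Localization.Away (om A w j)) (om A w j)
    (g := ev A w K j) (isUnit_ev A w K hw)) h
  rw [map_mul, IsLocalization.Away.lift_eq, IsLocalization.Away.lift_eq, map_pow,
    ev_om A w K hw, one_pow, mul_one] at h2
  exact h2

lemma psi_zero [FaithfulSMul B K] {j : Fin m} (hw : w j ≠ 0) (F : gr (spn A w) 0) :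
    psi A w K hw (HomogeneousLocalization.fromZeroRingHom (gr (spn A w))
      (Submonoid.powers (om A w j)) F) = ev A w K j (F : alg (spn A w)) := by
  change IsLocalization.Away.lift (S := Localization.Away (om A w j)) (om A w j)
    (isUnit_ev A w K hw) (algebraMap (alg (spn A w)) (Localization.Away (om A w j)) (F : alg (spn A w))) = _
  rw [IsLocalization.Away.lift_eq]

lemma psi_injective [FaithfulSMul B K] {j : Fin m} (hw : w j ≠ 0) :
    Function.Injective (psi A w K hw) := by
  have h : algebraMap B K (w j) ≠ 0 := by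
    rw [Ne, ← map_zero (algebraMap B K)]
    exact fun h => hw (FaithfulSMul.algebraMap_injective B K h)
  refine (injective_iff_map_eq_zero _).2 fun x hx => ?_
  obtain ⟨k, F, hF, rfl⟩ := HomogeneousLocalization.Away.mk_surjective (gr (spn A w))
    (om_mem w j) x
  rw [psi_mk, ev_of_mem w hF, div_eq_zero_iff] at hx
  have h3 : (F : B[X]).coeff (k • 1) = 0 := by
    rcases hx with hx | hx
    · rw [← map_zero (algebraMap B K)] at hx
      exact FaithfulSMul.algebraMap_injective B K hx
    · exact absurd hx (pow_ne_zero _ h)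
  have h4 : F = 0 := by
    refine (eq_mono hF).trans (Subtype.ext ?_)
    rw [mono_coe, h3, Polynomial.monomial_zero_right]
    rfl
  subst h4
  refine HomogeneousLocalization.val_injective _ ?_
  rw [HomogeneousLocalization.Away.val_mk, Localization.mk_zero, HomogeneousLocalization.val_zero]

lemma div_mem {j : Fin m} (R : Subring K) (h0 : ∀ a : A, algebraMap B K (algebraMap A B a) ∈ R)
    (h1 : ∀ i, algebraMap B K (w i) / algebraMap B K (w j) ∈ R) (k : ℕ) :
    ∀ c ∈ spn A w ^ k, algebraMap B K c / algebraMap B K (w j) ^ k ∈ R := by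
  have h2 : ∀ c ∈ spn A w, algebraMap B K c / algebraMap B K (w j) ∈ R := by
    intro c hc
    induction hc using Submodule.span_induction with
    | mem x hx =>
      obtain ⟨i, rfl⟩ := hx
      exact h1 i
    | zero =>
      rw [map_zero, zero_div]
      exact R.zero_mem
    | add x y hx hy h3 h4 =>
      rw [map_add, add_div]
      exact R.add_mem h3 h4
    | smul a x hx h3 =>
      rw [Algebra.smul_def, map_mul, mul_div_assoc]
      exact R.mul_mem (h0 a) h3
  induction k with
  | zero =>
    intro c hc
    rw [pow_zero, Submodule.mem_one] at hc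
    obtain ⟨a, rfl⟩ := hc
    rw [pow_zero, div_one]
    exact h0 a
  | succ k ih =>
    intro c hc
    rw [pow_succ] at hc
    induction hc using Submodule.mul_induction_on' with
    | mem_mul_mem x hx y hy =>
      rw [map_mul, pow_succ, mul_div_mul_comm]
      exact R.mul_mem (ih x hx) (h2 y hy)
    | add x hx y hy h3 h4 =>
      rw [map_add, add_div]
      exact R.add_mem h3 h4

lemma psi_range [FaithfulSMul B K] {j : Fin m} (hw : w j ≠ 0) :
    (psi A w K hw).range = Subring.closure (Set.range ((algebraMap B K).comp (algebraMap A B)) ∪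
          Set.range fun i => algebraMap B K (w i) / algebraMap B K (w j)) := by
  refine le_antisymm ?_ ((Subring.closure_le).2 ?_)
  · rintro _ ⟨x, rfl⟩
    obtain ⟨k, F, hF, rfl⟩ := HomogeneousLocalization.Away.mk_surjective (gr (spn A w))
      (om_mem w j) x
    rw [psi_mk, ev_of_mem w hF]
    refine div_mem w (K := K) (Subring.closure _) (fun a => ?_) (fun i => ?_) _ _ (F.2 _)
    · exact Subring.subset_closure (Or.inl ⟨a, rfl⟩)
    · exact Subring.subset_closure (Or.inr ⟨i, rfl⟩)
  · rintro _ (⟨a, rfl⟩ | ⟨i, rfl⟩)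
    · refine ⟨HomogeneousLocalization.fromZeroRingHom (gr (spn A w))
        (Submonoid.powers (om A w j)) (zeroHom (spn A w) a), ?_⟩
      rw [psi_zero, ev_of_mem w (zeroHom (spn A w) a).2, zeroHom_coe,
        Polynomial.coeff_monomial_same, pow_zero, div_one]
      rfl
    · refine ⟨HomogeneousLocalization.Away.mk (gr (spn A w)) (om_mem w j) 1 (om A w i)
        (by simpa using om_mem w i), ?_⟩
      rw [psi_mk, ev_of_mem w (om_mem w i), om, mono_coe, Polynomial.coeff_monomial_same, pow_one]

end Main

end ReesAux

/-- Let `φ : A → B` be an injective map to a domain and `w_1, ..., w_m` nonzero elements of `B`. The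
subring `S = φ(A)[w_1 X, ..., w_m X]` of `B[X]` is graded by the degree in `X`, `S_0 = A`, and the
chart `S_{(w_j X)}` is the subring `φ(A)[w_i / w_j]` of the fraction field `K` of `B`. -/
theorem exists_rees {A B K : Type} [CommRing A] [CommRing B] [IsDomain B] [Field K] [Algebra B K]
    [IsFractionRing B K] (φ : A →+* B) (hφ : Function.Injective φ) {m : ℕ} (w : Fin m → B)
    (hw : ∀ j, w j ≠ 0) :
    ∃ (S : Type) (_ : CommRing S) (𝒮 : ℕ → AddSubgroup S) (_ : GradedRing 𝒮) (zero : A ≃+* 𝒮 0)
      (ω : Fin m → S) (ω_mem : ∀ i, ω i ∈ 𝒮 1), Algebra.adjoin (𝒮 0) (Set.range ω) = ⊤ ∧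
      ∃ ψ : ∀ j, HomogeneousLocalization.Away 𝒮 (ω j) →+* K, ∀ j, Function.Injective (ψ j) ∧
        (∀ i, ψ j (HomogeneousLocalization.Away.mk 𝒮 (ω_mem j) 1 (ω i) (by simpa using ω_mem i)) =
          algebraMap B K (w i) / algebraMap B K (w j)) ∧
        (∀ a, ψ j (HomogeneousLocalization.fromZeroRingHom 𝒮 (Submonoid.powers (ω j)) (zero a)) =
          algebraMap B K (φ a)) ∧
        (ψ j).range = Subring.closure (Set.range ((algebraMap B K).comp φ) ∪
          Set.range fun i => algebraMap B K (w i) / algebraMap B K (w j)) := by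
  let _ : Algebra A B := φ.toAlgebra
  have : FaithfulSMul B K :=
    (faithfulSMul_iff_algebraMap_injective B K).2 (IsFractionRing.injective B K)
  refine ⟨ReesAux.alg (ReesAux.spn A w), inferInstance, ReesAux.gr (ReesAux.spn A w),
    ReesAux.gradedRing _,
    RingEquiv.ofBijective (ReesAux.zeroHom (ReesAux.spn A w)) (ReesAux.zeroHom_bijective _ hφ),
    ReesAux.om A w, ReesAux.om_mem w, ReesAux.adjoin_eq w, fun j => ReesAux.psi A w K (hw j),
    fun j => ⟨ReesAux.psi_injective w (hw j), fun i => ?_, fun a => ?_, ReesAux.psi_range w (hw j)⟩⟩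
  · rw [ReesAux.psi_mk, ReesAux.ev_of_mem w (ReesAux.om_mem w i), ReesAux.om, ReesAux.mono_coe,
      Polynomial.coeff_monomial_same, pow_one]
  · rw [ReesAux.psi_zero]
    change ReesAux.ev A w K j ((ReesAux.zeroHom (ReesAux.spn A w) a : ReesAux.gr (ReesAux.spn A w) 0) :
      ReesAux.alg (ReesAux.spn A w)) = _
    rw [ReesAux.ev_of_mem w (ReesAux.zeroHom (ReesAux.spn A w) a).2, ReesAux.zeroHom_coe,
        Polynomial.coeff_monomial_same, pow_zero, div_one]
    rfl

end Pool.Agent.Helper72.OB
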