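import Pool.Agent.Helper72.OB.Chart
import Pool.Agent.Helper72.OB.Rees
import Pool.Agent.Helper72.OB.ProjDefs

/-!
# Orbit theorem, block H3: the graded ring of the proper map `G ×^Q Z → Spec A`
-/

set_option autoImplicit false

namespace Pool.Agent.Helper72.OB

/-- two rings which embed in a third one with the same image are isomorphic over it -/
private theorem exists_ringEquiv {R S K : Type} [CommRing R] [CommRing S] [CommRing K]
    (f : R →+* K) (g : S →+* K) (hf : Function.Injective f) (hg : Function.Injective g)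
    (h : f.range = g.range) : ∃ e : R ≃+* S, ∀ x, g (e x) = f x := by
  let ef : R ≃+* f.range := RingEquiv.ofBijective f.rangeRestrict
    ⟨fun x y hxy => hf (congrArg Subtype.val hxy), f.rangeRestrict_surjective⟩
  let eg : S ≃+* g.range := RingEquiv.ofBijective g.rangeRestrict
    ⟨fun x y hxy => hg (congrArg Subtype.val hxy), g.rangeRestrict_surjective⟩
  refine ⟨(ef.trans (RingEquiv.subringCongr h)).trans eg.symm, fun x => ?_⟩
  have h1 : eg (eg.symm ((RingEquiv.subringCongr h) (ef x))) = (RingEquiv.subringCongr h) (ef x) :=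
    eg.apply_symm_apply _
  have h2 := congrArg Subtype.val h1
  exact h2

theorem exists_projData {n : ℕ} {r : Pre n} (o : Fin n) {A : Type} [CommRing A] (α : Act r A)
    (I : Ideal A) [I.IsPrime] (hI : (α.restr (r.cut_le o)).Stable I) (hcore : α.core I = ⊥) :
    ∃ (m : ℕ) (_ : 0 < m) (pd : ProjData A (A ⧸ I) m), (∀ j, Function.Injective (pd.toAway j)) ∧
      ∀ e : Ideal A, α.Stable e → ∀ j,
        (e.map (pd.toAway j)).map (pd.chart j : _ →+* MvPolynomial {i : Fin m // i ≠ j} (A ⧸ I)) =
          (e.map (Ideal.Quotient.mk I)).map MvPolynomial.C := by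
  have : IsDomain (RR r (A ⧸ I)) := isDomain_RR r (A ⧸ I)
  obtain ⟨m, hm, w, hw, hch⟩ := exists_chart o α I hI (FractionRing (RR r (A ⧸ I)))
  choose Φ κ hΦ hX hκ hrange he using hch
  have hφ : Function.Injective (α.orb (Ideal.Quotient.mk I)) := by
    rw [RingHom.injective_iff_ker_eq_bot]
    exact hcore
  obtain ⟨S, iS, 𝒮, gr, zero, ω, ω_mem, gen, ψ, hψ⟩ :=
    exists_rees (K := FractionRing (RR r (A ⧸ I))) (α.orb (Ideal.Quotient.mk I)) hφ w hw
  choose chart hchart using fun j => exists_ringEquiv (ψ j) (Φ j) (hψ j).1 (hΦ j)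
    ((hψ j).2.2.2.trans (hrange j).symm)
  let pd : ProjData A (A ⧸ I) m :=
    { S := S
      ring := iS
      𝒮 := 𝒮
      graded := gr
      zero := zero
      ω := ω
      ω_mem := ω_mem
      gen := gen
      chart := chart
      chart_ω := fun j i h => hΦ j (by
        rw [hchart, (hψ j).2.1, hX j ⟨i, h⟩]) }
  have hψA : ∀ j, (ψ j).comp (pd.toAway j) =
      (algebraMap (RR r (A ⧸ I)) (FractionRing (RR r (A ⧸ I)))).comp
        (α.orb (Ideal.Quotient.mk I)) := fun j => by
    ext a
    exact (hψ j).2.2.1 a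
  have hκ' : ∀ j, (chart j : _ →+* MvPolynomial {i : Fin m // i ≠ j} (A ⧸ I)).comp
      (pd.toAway j) = κ j := fun j => by
    ext1 a
    apply hΦ j
    have h1 := congrArg (fun f => f a) (hκ j)
    have h2 := congrArg (fun f => f a) (hψA j)
    exact ((hchart j (pd.toAway j a)).trans h2).trans h1.symm
  refine ⟨m, hm, pd, fun j => ?_, fun e hes j => ?_⟩
  · have h1 : Function.Injective ((ψ j).comp (pd.toAway j)) := by
      rw [hψA]
      exact (IsFractionRing.injective _ _).comp hφ
    exact Function.Injective.of_comp h1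
  · rw [← he j e hes, ← hκ' j, Ideal.map_map]

end Pool.Agent.Helper72.OB
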