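import Pool.Agent.Helper72.OB.Defs2

/-!
# Orbit theorem, block E9: stratifications from ordered affine open covers
-/

set_option autoImplicit false

namespace Pool.Agent.Helper72.OB

open AlgebraicGeometry CategoryTheory
open Pool.Agent.Helper65.Mor (Arithmetic ClosedOpen FGen)

private theorem arithmetic_opens63 {X : Scheme.{0}} (hX : Arithmetic X) (U : X.Opens) :
    Arithmetic U.toScheme := by
  have h4 := hX.isNoetherian
  obtain ⟨f, h1, h2, h3⟩ := hX
  exact ⟨U.ι ≫ f, inferInstance, inferInstance, inferInstance⟩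

/-- the range of the immersion of the stratum -/
private theorem range_stratum63 {Y : Scheme.{0}} {C : Type} [CommRing C]
    (φ : Spec (CommRingCat.of C) ⟶ Y) (w e : Ideal C) :
    Set.range ((DD (e.map (Ideal.Quotient.mk w))).ι ≫
      Spec.map (CommRingCat.ofHom (Ideal.Quotient.mk w)) ≫ φ) =
      {y | ∃ x : Spec (CommRingCat.of C), φ x = y ∧ w ≤ x.asIdeal ∧ ¬ e ≤ x.asIdeal} := by
  have hr : Set.range (Spec.map (CommRingCat.ofHom (Ideal.Quotient.mk w))) =
      PrimeSpectrum.zeroLocus (w : Set C) := by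
    have := range_comap_of_surjective (C ⧸ w) (Ideal.Quotient.mk w) Ideal.Quotient.mk_surjective
    rw [Ideal.mk_ker] at this
    exact this
  ext y
  constructor
  · rintro ⟨z, rfl⟩
    set z' : Spec (CommRingCat.of (C ⧸ w)) := (DD (e.map (Ideal.Quotient.mk w))).ι z with hz'
    have hzD : z' ∈ DD (e.map (Ideal.Quotient.mk w)) := z.2
    refine ⟨Spec.map (CommRingCat.ofHom (Ideal.Quotient.mk w)) z', ?_, ?_, ?_⟩
    · rfl
    · have : Spec.map (CommRingCat.ofHom (Ideal.Quotient.mk w)) z' ∈
        Set.range (Spec.map (CommRingCat.ofHom (Ideal.Quotient.mk w))) := ⟨z', rfl⟩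
      rw [hr] at this
      exact this
    · intro h
      refine hzD ?_
      have h2 : e.map (Ideal.Quotient.mk w) ≤ z'.asIdeal := by
        rw [Ideal.map_le_iff_le_comap]
        exact h
      exact h2
  · rintro ⟨x, rfl, h1, h2⟩
    have hx : x ∈ Set.range (Spec.map (CommRingCat.ofHom (Ideal.Quotient.mk w))) := by
      rw [hr]; exact h1
    obtain ⟨z', rfl⟩ := hx
    have hz : z' ∈ DD (e.map (Ideal.Quotient.mk w)) := by
      intro h
      refine h2 ?_
      have h3 : e.map (Ideal.Quotient.mk w) ≤ z'.asIdeal := h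
      rw [Ideal.map_le_iff_le_comap] at h3
      exact h3
    exact ⟨⟨z', hz⟩, rfl⟩

/-- `Y` is covered by the affine opens `U_j` = range of `φ j`, `V` is an open of `Y` with
`V ∩ U_j = D(e_j)`, and `U_j` minus the union of the `U_l`, `l < j`, is `V(w_j)`. If all schemes
`D(e_j) ∩ V(w_j)` belong to `P`, then `V` belongs to `P`. -/
theorem P_strat {P : Scheme.{0} → Prop} (hP : Rules P) {Y : Scheme.{0}} (hY : Arithmetic Y)
    (V : Y.Opens) {m : ℕ} (C : Fin m → Type) [∀ j, CommRing (C j)]
    (φ : ∀ j, Spec (CommRingCat.of (C j)) ⟶ Y) [∀ j, IsOpenImmersion (φ j)]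
    (hcov : ∀ y : Y, ∃ j, y ∈ Set.range (φ j)) (w e : ∀ j, Ideal (C j))
    (hw : ∀ j (x : Spec (CommRingCat.of (C j))),
      w j ≤ x.asIdeal ↔ ∀ l < j, φ j x ∉ Set.range (φ l))
    (he : ∀ j (x : Spec (CommRingCat.of (C j))), φ j x ∈ V ↔ ¬ e j ≤ x.asIdeal)
    (h : ∀ j, P (LC (w j) (e j))) : P V.toScheme := by
  classical
  let W : ℕ → Y.Opens := fun k => V ⊓ ⨆ l : Fin m, ⨆ _ : l.1 < k, (φ l).opensRange
  have hW : ∀ k (y : Y), y ∈ W k ↔ y ∈ V ∧ ∃ l : Fin m, l.1 < k ∧ y ∈ Set.range (φ l) := by
    intro k y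
    simp only [W, TopologicalSpace.Opens.mem_inf, TopologicalSpace.Opens.mem_iSup]
    constructor
    · rintro ⟨h1, l, hl, h2⟩
      exact ⟨h1, l, hl, h2⟩
    · rintro ⟨h1, l, hl, h2⟩
      exact ⟨h1, l, hl, h2⟩
  have key : ∀ k, k ≤ m → P (W k).toScheme := by
    intro k
    induction k with
    | zero =>
      intro _
      refine hP.empty _ ⟨fun y => ?_⟩
      obtain ⟨-, l, hl, -⟩ := (hW 0 y.1).1 y.2
      exact absurd hl (Nat.not_lt_zero _)
    | succ k ih =>
      intro hk
      let j : Fin m := ⟨k, hk⟩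
      let f : LC (w j) (e j) ⟶ Y := (DD ((e j).map (Ideal.Quotient.mk (w j)))).ι ≫
        Spec.map (CommRingCat.ofHom (Ideal.Quotient.mk (w j))) ≫ φ j
      have hcl : IsClosedImmersion (Spec.map (CommRingCat.ofHom (Ideal.Quotient.mk (w j)))) :=
        IsClosedImmersion.spec_of_surjective _ Ideal.Quotient.mk_surjective
      have hf : IsImmersion f := by
        dsimp only [f]
        infer_instance
      have hrange : Set.range f = (W (k + 1) : Set Y) \ W k := by
        rw [range_stratum63]
        ext y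
        constructor
        · rintro ⟨x, rfl, h1, h2⟩
          refine ⟨(hW _ _).2 ⟨(he j x).2 h2, j, Nat.lt_succ_self k, x, rfl⟩, fun h3 => ?_⟩
          obtain ⟨-, l, hl, h4⟩ := (hW _ _).1 h3
          exact (hw j x).1 h1 l hl h4
        · rintro ⟨h1, h2⟩
          obtain ⟨h3, l, hl, x, rfl⟩ := (hW _ _).1 h1
          have hlj : l = j := by
            by_contra hne
            have : l.1 < k := by
              have h5 : l.1 ≠ k := fun h6 => hne (Fin.ext h6)
              omega
            exact h2 ((hW _ _).2 ⟨h3, l, this, x, rfl⟩)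
          subst hlj
          refine ⟨x, rfl, (hw j x).2 fun l' hl' h6 => h2 ((hW _ _).2 ⟨h3, l', hl', h6⟩),
            (he j x).1 h3⟩
      have hle : W k ≤ W (k + 1) := by
        intro y hy
        obtain ⟨h1, l, hl, h2⟩ := (hW _ _).1 hy
        exact (hW _ _).2 ⟨h1, l, Nat.lt_succ_of_lt hl, h2⟩
      have hfr : Set.range f ⊆ Set.range (W (k + 1)).ι := by
        rw [hrange, Scheme.Opens.range_ι]
        exact Set.sdiff_subset
      let i := IsOpenImmersion.lift (W (k + 1)).ι f hfr
      have hi : i ≫ (W (k + 1)).ι = f := IsOpenImmersion.lift_fac _ _ _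
      have hii : IsImmersion i := by
        have : IsImmersion (i ≫ (W (k + 1)).ι) := by rw [hi]; exact hf
        exact IsImmersion.of_comp i (W (k + 1)).ι
      have hir : Set.range i = {z : (W (k + 1)).toScheme | z.1 ∉ W k} := by
        ext z
        constructor
        · rintro ⟨t, rfl⟩
          have h1 : f t ∈ (W (k + 1) : Set Y) \ W k := by rw [← hrange]; exact ⟨t, rfl⟩
          have h2 : (i t).1 = f t := by
            rw [← hi]; rfl
          show (i t).1 ∉ W k
          rw [h2]
          exact h1.2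
        · intro hz
          have h1 : z.1 ∈ Set.range f := by rw [hrange]; exact ⟨z.2, hz⟩
          obtain ⟨t, ht⟩ := h1
          refine ⟨t, Subtype.ext ?_⟩
          rw [← ht, ← hi]
          rfl
      have hjr : Set.range (Y.homOfLE hle) = {z : (W (k + 1)).toScheme | z.1 ∈ W k} := by
        ext z
        constructor
        · rintro ⟨t, rfl⟩
          have h2 : (Y.homOfLE hle t).1 = t.1 := by
            have := congrArg (fun g => g t) (Y.homOfLE_ι hle)
            exact this
          show (Y.homOfLE hle t).1 ∈ W k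
          rw [h2]
          exact t.2
        · intro hz
          refine ⟨⟨z.1, hz⟩, Subtype.ext ?_⟩
          have := congrArg (fun g => g (⟨z.1, hz⟩ : (W k).toScheme)) (Y.homOfLE_ι hle)
          exact this
      have hcompl : Set.range (Y.homOfLE hle) = (Set.range i)ᶜ := by
        rw [hjr, hir]
        ext z
        simp
      refine hP.glue _ (W (k + 1)).toScheme (W k).toScheme i (Y.homOfLE hle)
        (arithmetic_opens63 hY _) ⟨.of_isPreimmersion i ?_, inferInstance, hcompl⟩ (h j)
        (ih (by omega))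
      rw [← isOpen_compl_iff, ← hcompl]
      exact (Y.homOfLE hle).isOpenEmbedding.isOpen_range
  have hWm : W m = V := by
    ext y
    refine ⟨fun hy => ((hW m y).1 hy).1, fun hy => (hW m y).2 ⟨hy, ?_⟩⟩
    obtain ⟨j, hj⟩ := hcov y
    exact ⟨j, j.2, hj⟩
  rw [← hWm]
  exact key m le_rfl

end Pool.Agent.Helper72.OB
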