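import Pool.Agent.Helper72.OB.SchLine
import Pool.Agent.Helper72.OB.Strat
import Pool.Agent.Helper72.OB.ProjDefs

/-!
# Orbit theorem, block H4: the transfer for the proper map `Proj S → Spec A`
-/

set_option autoImplicit false

namespace Pool.Agent.Helper72.OB

open AlgebraicGeometry CategoryTheory
open Pool.Agent.Helper65.Mor (Arithmetic ClosedOpen FGen arithmetic_of_fgen)

section

variable {A D : Type} [CommRing A] [CommRing D] {m : ℕ} (pd : ProjData A D m)

private theorem finiteType_S : Algebra.FiniteType (pd.𝒮 0) pd.S := by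
  classical
  refine ⟨⟨(Set.finite_range pd.ω).toFinset, ?_⟩⟩
  rw [Set.Finite.coe_toFinset]
  exact pd.gen

/-- the structure map -/
private noncomputable def str : Proj pd.𝒮 ⟶ Spec (CommRingCat.of A) :=
  Proj.toSpecZero pd.𝒮 ≫ Spec.map (CommRingCat.ofHom (pd.zero : A →+* pd.𝒮 0))

private theorem isProper_str : IsProper (str pd) := by
  have := finiteType_S pd
  have : IsIso (CommRingCat.ofHom (pd.zero : A →+* pd.𝒮 0)) :=
    pd.zero.toCommRingCatIso.isIso_hom
  unfold str
  infer_instance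

/-- the charts -/
private noncomputable def cph (j : Fin m) :
    Spec (CommRingCat.of (MvPolynomial {i : Fin m // i ≠ j} D)) ⟶ Proj pd.𝒮 :=
  Spec.map (CommRingCat.ofHom (pd.chart j : _ →+* MvPolynomial {i : Fin m // i ≠ j} D)) ≫
    Proj.awayι pd.𝒮 (pd.ω j) (pd.ω_mem j) one_pos

private theorem isIso_chart (j : Fin m) : IsIso (CommRingCat.ofHom
    (pd.chart j : HomogeneousLocalization.Away pd.𝒮 (pd.ω j) →+*
      MvPolynomial {i : Fin m // i ≠ j} D)) :=
  (pd.chart j).toCommRingCatIso.isIso_hom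

private instance isOpenImmersion_cph (j : Fin m) : IsOpenImmersion (cph pd j) := by
  have := isIso_chart pd j
  unfold cph
  infer_instance

private theorem opensRange_cph (j : Fin m) :
    (cph pd j).opensRange = Proj.basicOpen pd.𝒮 (pd.ω j) := by
  have := isIso_chart pd j
  unfold cph
  exact (Scheme.Hom.opensRange_comp_of_isIso _ _).trans (Proj.opensRange_awayι _ _ _ _)

private theorem mem_range_cph (j : Fin m) (y : Proj pd.𝒮) :
    y ∈ Set.range (cph pd j) ↔ y ∈ Proj.basicOpen pd.𝒮 (pd.ω j) := by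
  rw [← opensRange_cph pd j]
  rfl

private theorem cph_str (j : Fin m) : cph pd j ≫ str pd =
    Spec.map (CommRingCat.ofHom
      ((pd.chart j : _ →+* MvPolynomial {i : Fin m // i ≠ j} D).comp (pd.toAway j))) := by
  rw [cph, str, Category.assoc, Proj.awayι_toSpecZero_assoc, ← Spec.map_comp, ← Spec.map_comp]
  rfl

private theorem surjective_str [IsDomain A] (hm : 0 < m)
    (hinj : ∀ j, Function.Injective (pd.toAway j)) : Surjective (str pd) := by
  have := isProper_str pd
  constructor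
  have hcl : IsClosed (Set.range (str pd)) := (str pd).isClosedMap.isClosed_range
  have hinj' : Function.Injective
      ((pd.chart ⟨0, hm⟩ : _ →+* MvPolynomial {i : Fin m // i ≠ ⟨0, hm⟩} D).comp
        (pd.toAway ⟨0, hm⟩)) := (pd.chart ⟨0, hm⟩).injective.comp (hinj _)
  have hd : DenseRange (Spec.map (CommRingCat.ofHom
      ((pd.chart ⟨0, hm⟩ : _ →+* MvPolynomial {i : Fin m // i ≠ ⟨0, hm⟩} D).comp
        (pd.toAway ⟨0, hm⟩)))) := by
    refine (PrimeSpectrum.denseRange_comap_iff_ker_le_nilRadical _).2 ?_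
    exact ((RingHom.injective_iff_ker_eq_bot _).1 hinj').trans_le bot_le
  have hsub : Set.range (Spec.map (CommRingCat.ofHom
      ((pd.chart ⟨0, hm⟩ : _ →+* MvPolynomial {i : Fin m // i ≠ ⟨0, hm⟩} D).comp
        (pd.toAway ⟨0, hm⟩)))) ⊆ Set.range (str pd) := by
    rw [← cph_str]
    rintro _ ⟨x, rfl⟩
    exact ⟨cph pd _ x, rfl⟩
  have hd2 : Dense (Set.range (str pd)) := Dense.mono hsub hd
  have := hcl.closure_eq.symm.trans hd2.closure_eq
  exact Set.range_eq_univ.1 this

private theorem arithmetic_proj (hA : FGen A) : Arithmetic (Proj pd.𝒮) := by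
  have := isProper_str pd
  obtain ⟨g, h1, h2, h3⟩ := arithmetic_of_fgen hA
  exact ⟨str pd ≫ g, inferInstance, inferInstance, inferInstance⟩

private theorem cph_mem_basicOpen (j l : Fin m) (h : l ≠ j)
    (x : Spec (CommRingCat.of (MvPolynomial {i : Fin m // i ≠ j} D))) :
    cph pd j x ∈ Proj.basicOpen pd.𝒮 (pd.ω l) ↔ MvPolynomial.X ⟨l, h⟩ ∉ x.asIdeal := by
  have h1 : cph pd j x ∈ Proj.basicOpen pd.𝒮 (pd.ω l) ↔
      Spec.map (CommRingCat.ofHom (pd.chart j : _ →+* MvPolynomial {i : Fin m // i ≠ j} D)) x ∈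
        Proj.awayι pd.𝒮 (pd.ω j) (pd.ω_mem j) one_pos ⁻¹ᵁ Proj.basicOpen pd.𝒮 (pd.ω l) := Iff.rfl
  rw [h1, Proj.awayι_preimage_basicOpen pd.𝒮 (pd.ω_mem j) one_pos (pd.ω_mem l) one_pos]
  have h2 : pd.chart j (HomogeneousLocalization.Away.isLocalizationElem (pd.ω_mem j)
      (pd.ω_mem l)) = MvPolynomial.X ⟨l, h⟩ := by
    rw [← pd.chart_ω j l h]
    congr 1
    apply HomogeneousLocalization.val_injective
    simp [HomogeneousLocalization.Away.isLocalizationElem]
  rw [← h2]
  rfl

end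

private theorem quot_equiv {D σ : Type} [CommRing D] (s : Set σ) :
    ∃ f : MvPolynomial {i : σ // i ∉ s} D ≃+*
      MvPolynomial σ D ⧸ Ideal.span (MvPolynomial.X '' s : Set (MvPolynomial σ D)),
      (f : MvPolynomial {i : σ // i ∉ s} D →+* MvPolynomial σ D ⧸ Ideal.span (MvPolynomial.X '' s :
        Set (MvPolynomial σ D))).comp MvPolynomial.C = (Ideal.Quotient.mk _).comp MvPolynomial.C := by
  classical
  let F : MvPolynomial σ D ⧸ Ideal.span (MvPolynomial.X '' s : Set (MvPolynomial σ D)) →+*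
      MvPolynomial {i : σ // i ∉ s} D :=
    Ideal.Quotient.lift _ (MvPolynomial.eval₂Hom MvPolynomial.C
      (fun i => if h : i ∈ s then 0 else MvPolynomial.X ⟨i, h⟩)) (by
      intro a ha
      have h1 : Ideal.span (MvPolynomial.X '' s : Set (MvPolynomial σ D)) ≤
          RingHom.ker (MvPolynomial.eval₂Hom (MvPolynomial.C : D →+* MvPolynomial {i : σ // i ∉ s} D)
            (fun i => if h : i ∈ s then 0 else MvPolynomial.X ⟨i, h⟩)) := by
        rw [Ideal.span_le]
        rintro _ ⟨i, hi, rfl⟩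
        simp [hi]
      exact h1 ha)
  let G : MvPolynomial {i : σ // i ∉ s} D →+*
      MvPolynomial σ D ⧸ Ideal.span (MvPolynomial.X '' s : Set (MvPolynomial σ D)) :=
    MvPolynomial.eval₂Hom ((Ideal.Quotient.mk _).comp MvPolynomial.C)
      (fun i => Ideal.Quotient.mk _ (MvPolynomial.X i.1))
  refine ⟨RingEquiv.ofRingHom G F ?_ ?_, ?_⟩
  · apply Ideal.Quotient.ringHom_ext
    apply MvPolynomial.ringHom_ext
    · intro a
      simp [F, G]
    · intro i
      by_cases hi : i ∈ s
      · have h1 : (Ideal.Quotient.mk (Ideal.span (MvPolynomial.X '' s : Set (MvPolynomial σ D))))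
            (MvPolynomial.X i) = 0 :=
          Ideal.Quotient.eq_zero_iff_mem.2 (Ideal.subset_span ⟨i, hi, rfl⟩)
        simp [F, G, h1]
      · simp [F, G, hi]
  · apply MvPolynomial.ringHom_ext
    · intro a
      simp [F, G]
    · rintro ⟨i, hi⟩
      simp [F, G, hi]
  · ext a
    simp [G]

private theorem fgen_mv {D σ : Type} [CommRing D] [Finite σ] (hD : FGen D) :
    FGen (MvPolynomial σ D) :=
  hD.of_hom MvPolynomial.C (RingHom.finiteType_algebraMap.2 (inferInstance :
    Algebra.FiniteType D (MvPolynomial σ D)))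

private theorem P_LC {P : Scheme.{0} → Prop} (hP : Rules P) {D σ : Type} [CommRing D] [Finite σ]
    (hD : FGen D) (s : Set σ) (e : Ideal D) (h : P (DD e).toScheme) :
    P (LC (Ideal.span (MvPolynomial.X '' s : Set (MvPolynomial σ D)))
      (e.map MvPolynomial.C)) := by
  obtain ⟨f, hf⟩ := quot_equiv (D := D) s
  have h1 := (P_iso hP (fgen_mv (σ := {i : σ // i ∉ s}) hD) f _).1
    (P_mvPoly hP (σ := {i : σ // i ∉ s}) hD h)
  rw [Ideal.map_map, hf, ← Ideal.map_map] at h1
  exact h1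

theorem P_of_projData {P : Scheme.{0} → Prop} (hP : Rules P) {A D : Type} [CommRing A] [IsDomain A]
    [CommRing D] (hA : FGen A) (hD : FGen D) {m : ℕ} (hm : 0 < m) (pd : ProjData A D m)
    (hinj : ∀ j, Function.Injective (pd.toAway j)) (e : Ideal A) (e' : Ideal D)
    (he : ∀ j, (e.map (pd.toAway j)).map
      (pd.chart j : _ →+* MvPolynomial {i : Fin m // i ≠ j} D) = e'.map MvPolynomial.C)
    (p : ℕ) (s : (DD e).toScheme ⟶ Spec (CommRingCat.of (ZMod p))) (hp : p = 0 ∨ p.Prime)
    (hs : Smooth s) (h : P (DD e').toScheme) : P (DD e).toScheme := by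
  have hprop := isProper_str pd
  have hsurj := surjective_str pd hm hinj
  refine hP.proper _ (DD e).toScheme (str pd ∣_ DD e) p s hp (arithmetic_DD hA e) inferInstance
    (IsZariskiLocalAtTarget.restrict (P := @Surjective) hsurj (DD e)) hs ?_
  refine P_strat hP (arithmetic_proj pd hA) (str pd ⁻¹ᵁ DD e)
    (fun j => MvPolynomial {i : Fin m // i ≠ j} D) (cph pd) ?_
    (fun j => Ideal.span (MvPolynomial.X '' {i : {i : Fin m // i ≠ j} | i.1 < j}))
    (fun j => e'.map MvPolynomial.C) ?_ ?_ fun j => P_LC hP hD _ e' h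
  · intro y
    have h1 := Proj.iSup_basicOpen_eq_top' pd.𝒮 pd.ω (fun i => ⟨1, pd.ω_mem i⟩) pd.gen
    have h2 : y ∈ ⨆ i, Proj.basicOpen pd.𝒮 (pd.ω i) := by
      rw [h1]
      trivial
    obtain ⟨j, hj⟩ := TopologicalSpace.Opens.mem_iSup.1 h2
    exact ⟨j, (mem_range_cph pd j y).2 hj⟩
  · intro j x
    rw [Ideal.span_le]
    constructor
    · intro h1 l hl h2
      rw [mem_range_cph, cph_mem_basicOpen pd j l hl.ne] at h2
      exact h2 (h1 ⟨⟨l, hl.ne⟩, hl, rfl⟩)
    · rintro h1 _ ⟨⟨l, hl⟩, hl', rfl⟩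
      by_contra h2
      exact h1 l hl' ((mem_range_cph pd l _).2 ((cph_mem_basicOpen pd j l hl x).2 h2))
  · intro j x
    have h1 : cph pd j x ∈ str pd ⁻¹ᵁ DD e ↔ (cph pd j ≫ str pd) x ∈ DD e := Iff.rfl
    rw [h1, cph_str, mem_DD, ← he j, Ideal.map_map, Ideal.map_le_iff_le_comap]
    rfl

end Pool.Agent.Helper72.OB
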