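import Mathlib

/-!
# Orbit theorem, block H2a: pointwise descent of smoothness along flat base change
-/

set_option autoImplicit false

namespace Pool.Agent.Helper72.OB

open TensorProduct

attribute [local instance] Algebra.TensorProduct.rightAlgebra in
theorem h1_of_flat {k A T : Type} [CommRing k] [CommRing A] [CommRing T] [Algebra k A]
    [Algebra k T] [Module.Flat k T] (P : PrimeSpectrum (T ⊗[k] A))
    (hP : P ∉ Module.support (T ⊗[k] A) (Algebra.H1Cotangent T (T ⊗[k] A))) :
    P.comap (Algebra.TensorProduct.includeRight : A →ₐ[k] T ⊗[k] A).toRingHom ∉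
      Module.support A (Algebra.H1Cotangent k A) := by
  rw [Module.notMem_support_iff'] at hP ⊢
  intro x
  obtain ⟨b, hb, hbx⟩ := hP (Algebra.H1Cotangent.map k T A (T ⊗[k] A) x)
  let l : A →ₗ[k] Algebra.H1Cotangent k A := (LinearMap.toSpanSingleton A _ x).restrictScalars k
  have key : ∀ c : T ⊗[k] A, Algebra.tensorH1CotangentOfFlat k A T (l.lTensor T c) =
      c • Algebra.H1Cotangent.map k T A (T ⊗[k] A) x := by
    intro c
    induction c with
    | zero => simp
    | add c d hc hd => rw [map_add, map_add, hc, hd, add_smul]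
    | tmul t a =>
      rw [LinearMap.lTensor_tmul, Algebra.tensorH1CotangentOfFlat_tmul]
      have h1 : l a = a • x := rfl
      rw [h1, map_smul]
      have h2 : (t ⊗ₜ[k] a : T ⊗[k] A) = algebraMap T (T ⊗[k] A) t * algebraMap A (T ⊗[k] A) a := by
        rw [Algebra.TensorProduct.algebraMap_apply, Algebra.TensorProduct.right_algebraMap_apply,
          Algebra.TensorProduct.tmul_mul_tmul]
        simp
      rw [h2, mul_smul, algebraMap_smul, algebraMap_smul]
  have h0 : l.lTensor T b = 0 := by
    apply (Algebra.tensorH1CotangentOfFlat k A T).injective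
    rw [key, hbx, map_zero]
  have hex := Module.Flat.lTensor_exact T (LinearMap.exact_subtype_ker_map l)
  obtain ⟨c, hc⟩ := (hex b).1 h0
  by_contra hcon
  push Not at hcon
  apply hb
  rw [← hc]
  have hmem : ∀ c : T ⊗[k] (LinearMap.ker l), (LinearMap.ker l).subtype.lTensor T c ∈ P.asIdeal := by
    intro c
    induction c with
    | zero => rw [map_zero]; exact P.asIdeal.zero_mem
    | add c d hc hd => rw [map_add]; exact P.asIdeal.add_mem hc hd
    | tmul t a =>
      rw [LinearMap.lTensor_tmul]
      have h2 : (t ⊗ₜ[k] ((LinearMap.ker l).subtype a) : T ⊗[k] A) =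
          (t ⊗ₜ[k] (1 : A)) * ((1 : T) ⊗ₜ[k] (a : A)) := by
        rw [Algebra.TensorProduct.tmul_mul_tmul]
        simp
      rw [h2]
      apply P.asIdeal.mul_mem_left
      by_contra h3
      refine hcon (a : A) ?_ a.2
      exact h3
  exact hmem c

theorem free_of_flat {A B : Type} [CommRing A] [CommRing B] [Algebra A B] [IsNoetherianRing A] [Module.Flat A B]
    {M : Type} [AddCommGroup M] [Module A M] [Module.Finite A M] (P : PrimeSpectrum B)
    (hP : P ∈ Module.freeLocus B (B ⊗[A] M)) : P.comap (algebraMap A B) ∈ Module.freeLocus A M := by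
  obtain ⟨q, hq⟩ : ∃ q, q = P.comap (algebraMap A B) := ⟨_, rfl⟩
  rw [← hq]
  have : P.asIdeal.LiesOver q.asIdeal := ⟨by rw [hq]; rfl⟩
  let := Localization.AtPrime.algebraOfLiesOver q.asIdeal P.asIdeal
  rw [Module.mem_freeLocus_iff_tensor P (Localization.AtPrime P.asIdeal)] at hP
  rw [Module.mem_freeLocus_iff_tensor q (Localization.AtPrime q.asIdeal)]
  have : IsLocalHom (algebraMap (Localization.AtPrime q.asIdeal) (Localization.AtPrime P.asIdeal)) :=
    Localization.isLocalHom_localRingHom _ _ _ _
  have : Module.FaithfullyFlat (Localization.AtPrime q.asIdeal) (Localization.AtPrime P.asIdeal) :=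
    Module.FaithfullyFlat.of_flat_of_isLocalHom
  let e1 := TensorProduct.AlgebraTensorModule.cancelBaseChange A (Localization.AtPrime q.asIdeal)
    (Localization.AtPrime P.asIdeal) (Localization.AtPrime P.asIdeal) M
  let e2 := TensorProduct.AlgebraTensorModule.cancelBaseChange A B
    (Localization.AtPrime P.asIdeal) (Localization.AtPrime P.asIdeal) M
  have : Module.Free (Localization.AtPrime P.asIdeal)
      (Localization.AtPrime P.asIdeal ⊗[Localization.AtPrime q.asIdeal]
        (Localization.AtPrime q.asIdeal ⊗[A] M)) := Module.Free.of_equiv (e2 ≪≫ₗ e1.symm)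
  have : Module.Flat (Localization.AtPrime q.asIdeal) (Localization.AtPrime q.asIdeal ⊗[A] M) :=
    Module.Flat.of_flat_tensorProduct _ _ (Localization.AtPrime P.asIdeal)
  exact Module.free_of_flat_of_isLocalRing

attribute [local instance] Algebra.TensorProduct.rightAlgebra in
/-- pointwise descent of smoothness along flat base change -/
theorem mem_smoothLocus_of_flat' {k A T : Type} [CommRing k] [CommRing A] [CommRing T] [Algebra k A]
    [Algebra k T] [Algebra.FinitePresentation k A] [IsNoetherianRing A] [Module.Flat k T]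
    (P : PrimeSpectrum (T ⊗[k] A)) (hP : P ∈ Algebra.smoothLocus T (T ⊗[k] A)) :
    P.comap (Algebra.TensorProduct.includeRight : A →ₐ[k] T ⊗[k] A).toRingHom ∈
      Algebra.smoothLocus k A := by
  rw [Algebra.smoothLocus_eq_compl_support_inter] at hP ⊢
  refine ⟨h1_of_flat P hP.1, ?_⟩
  have h1 := hP.2
  rw [← Module.freeLocus_congr (KaehlerDifferential.tensorKaehlerEquiv k T A (T ⊗[k] A))] at h1
  have : Module.Flat A (A ⊗[k] T) := inferInstance
  let e : A ⊗[k] T ≃ₗ[A] T ⊗[k] A := (Algebra.TensorProduct.commRight k A T).toLinearEquiv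
  have : Module.Flat A (T ⊗[k] A) := Module.Flat.of_linearEquiv e.symm
  exact free_of_flat P h1

end Pool.Agent.Helper72.OB
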