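import Pool.Agent.Helper72.OB.Stab
import Pool.Agent.Helper72.OB.SmoFlat
import Pool.Agent.Helper72.OB.SmoFlat

/-!
# Orbit theorem, block H2: a stable open subscheme which is smooth over `ℤ` or a prime field
-/

set_option autoImplicit false

namespace Pool.Agent.Helper72.OB

open AlgebraicGeometry CategoryTheory TensorProduct
open Pool.Agent.Helper65.Mor (Arithmetic ClosedOpen FGen)

/-- pointwise descent of smoothness along flat base change -/
theorem mem_smoothLocus_of_flat {k A T : Type} [CommRing k] [CommRing A] [CommRing T] [Algebra k A]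
    [Algebra k T] [Algebra.FinitePresentation k A] [IsNoetherianRing A] [Module.Flat k T]
    (P : PrimeSpectrum (T ⊗[k] A)) (hP : P ∈ Algebra.smoothLocus T (T ⊗[k] A)) :
    P.comap (Algebra.TensorProduct.includeRight : A →ₐ[k] T ⊗[k] A).toRingHom ∈
      Algebra.smoothLocus k A := mem_smoothLocus_of_flat' P hP

/-- the generic point of a domain finitely generated over a perfect field is smooth -/
private theorem gen_smooth_perf_h4 {k A : Type} [Field k] [PerfectField k] [CommRing A] [IsDomain A]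
    [Algebra k A] [Algebra.FiniteType k A] :
    Algebra.IsSmoothAt k (⊥ : Ideal A) := by
  have h1 : IsFractionRing A (Localization.AtPrime (⊥ : Ideal A)) := by
    simpa [Ideal.primeCompl_bot] using Localization.isLocalization (M := (⊥ : Ideal A).primeCompl)
  let hF : Field (Localization.AtPrime (⊥ : Ideal A)) := IsFractionRing.toField A
  have h2 : Algebra.EssFiniteType A (Localization.AtPrime (⊥ : Ideal A)) :=
    .of_isLocalization _ (⊥ : Ideal A).primeCompl
  have h3 : Algebra.EssFiniteType k (Localization.AtPrime (⊥ : Ideal A)) := .comp _ A _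
  exact Algebra.FormallySmooth.of_perfectField

private theorem fs_int_field_h4 {K : Type} [Field K] [CharZero K] [Algebra.EssFiniteType ℤ K] :
    Algebra.FormallySmooth ℤ K := by
  have h4 : Algebra.EssFiniteType ℚ K := .of_comp ℤ ℚ _
  have h5 : Algebra.FormallySmooth ℚ K := Algebra.FormallySmooth.of_perfectField
  have h6 : Algebra.FormallySmooth ℤ ℚ := .of_isLocalization (nonZeroDivisors ℤ)
  exact .comp ℤ ℚ _

private theorem gen_smooth_int_h4 {A : Type} [CommRing A] [IsDomain A] [CharZero A]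
    [Algebra.FiniteType ℤ A] :
    Algebra.IsSmoothAt ℤ (⊥ : Ideal A) := by
  have h1 : IsFractionRing A (Localization.AtPrime (⊥ : Ideal A)) := by
    simpa [Ideal.primeCompl_bot] using Localization.isLocalization (M := (⊥ : Ideal A).primeCompl)
  let hF : Field (Localization.AtPrime (⊥ : Ideal A)) := IsFractionRing.toField A
  have hc : CharZero (Localization.AtPrime (⊥ : Ideal A)) :=
    charZero_of_injective_algebraMap (IsFractionRing.injective A (Localization.AtPrime (⊥ : Ideal A)))
  have h2 : Algebra.EssFiniteType A (Localization.AtPrime (⊥ : Ideal A)) :=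
    .of_isLocalization _ (⊥ : Ideal A).primeCompl
  have h3 : Algebra.EssFiniteType ℤ (Localization.AtPrime (⊥ : Ideal A)) := .comp _ A _
  have e2 : (Ring.toIntAlgebra (Localization.AtPrime (⊥ : Ideal A)) :
      Algebra ℤ (Localization.AtPrime (⊥ : Ideal A))) = OreLocalization.instAlgebra :=
    Subsingleton.elim _ _
  have h4 : @Algebra.EssFiniteType ℤ (Localization.AtPrime (⊥ : Ideal A)) _ _
      (Ring.toIntAlgebra _) := by
    rw [e2]
    exact h3
  have h5 := @fs_int_field_h4 (Localization.AtPrime (⊥ : Ideal A)) hF hc h4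
  unfold Algebra.IsSmoothAt
  rw [← e2]
  exact h5

/-- smoothness of an open subscheme of an affine scheme from its points -/
private theorem smooth_of_points_h4 {k A : Type} [CommRing k] [CommRing A] [Algebra k A]
    [Algebra.FinitePresentation k A] (U : (Spec (CommRingCat.of A)).Opens)
    (h : ∀ x : PrimeSpectrum A, x ∈ U → x ∈ Algebra.smoothLocus k A) :
    Smooth (U.ι ≫ Spec.map (CommRingCat.ofHom (algebraMap k A))) := by
  have hfp : LocallyOfFinitePresentation (Spec.map (CommRingCat.ofHom (algebraMap k A))) := by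
    rw [HasRingHomProperty.Spec_iff (P := @LocallyOfFinitePresentation)]
    exact (RingHom.finitePresentation_algebraMap).2 inferInstance
  have key : ∀ x : PrimeSpectrum A, x ∈ U →
      x ∈ (Spec.map (CommRingCat.ofHom (algebraMap k A))).smoothLocus := by
    intro x hx
    obtain ⟨_, ⟨_, ⟨c, rfl⟩, rfl⟩, hxc, hc⟩ :=
      PrimeSpectrum.isBasis_basic_opens.exists_subset_of_mem_open (h x hx)
        (Algebra.isOpen_smoothLocus (R := k) (A := A))
    rw [Algebra.basicOpen_subset_smoothLocus_iff_smooth] at hc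
    have h1 : Smooth (Spec.map (CommRingCat.ofHom (algebraMap A (Localization.Away c))) ≫
        Spec.map (CommRingCat.ofHom (algebraMap k A))) := by
      rw [← Spec.map_comp, HasRingHomProperty.Spec_iff (P := @Smooth)]
      have : CommRingCat.Hom.hom (CommRingCat.ofHom (algebraMap k A) ≫
          CommRingCat.ofHom (algebraMap A (Localization.Away c))) =
          algebraMap k (Localization.Away c) := by
        rw [← CommRingCat.ofHom_comp, CommRingCat.hom_ofHom]
        rfl
      rw [this, RingHom.smooth_algebraMap]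
      exact hc
    have h2 := Scheme.Hom.smoothLocus_eq_top
      (Spec.map (CommRingCat.ofHom (algebraMap A (Localization.Away c))) ≫
        Spec.map (CommRingCat.ofHom (algebraMap k A)))
    rw [← Scheme.Hom.preimage_smoothLocus_eq] at h2
    obtain ⟨y, hy⟩ : x ∈ Set.range (PrimeSpectrum.comap (algebraMap A (Localization.Away c))) := by
      rw [PrimeSpectrum.localization_away_comap_range _ c]
      exact hxc
    have h3 : (y : Spec (CommRingCat.of (Localization.Away c))) ∈
        (Spec.map (CommRingCat.ofHom (algebraMap A (Localization.Away c)))) ⁻¹ᵁ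
          (Spec.map (CommRingCat.ofHom (algebraMap k A))).smoothLocus := by
      rw [h2]
      trivial
    rw [← hy]
    exact h3
  rw [← Scheme.Hom.smoothLocus_eq_top_iff, ← Scheme.Hom.preimage_smoothLocus_eq, ← top_le_iff]
  intro x _
  exact key _ x.2


/-- a domain of finite type over its prime ring is generically smooth -/
private theorem exists_away_smooth_h4 {A : Type} [CommRing A] [IsDomain A]
    (hA : (Int.castRingHom A).FiniteType) : ∃ (p : ℕ) (_ : Algebra (ZMod p) A),
      (p = 0 ∨ p.Prime) ∧ Algebra.FinitePresentation (ZMod p) A ∧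
      ∃ s : A, s ≠ 0 ∧ Algebra.Smooth (ZMod p) (Localization.Away s) := by
  obtain ⟨p, hp⟩ := CharP.exists A
  have hft : Algebra.FiniteType ℤ A := RingHom.finiteType_algebraMap.1 hA
  rcases (CharP.char_is_prime_or_zero A p) with hpr | rfl
  · have : Fact p.Prime := ⟨hpr⟩
    let hal : Algebra (ZMod p) A := ZMod.algebra A p
    have : IsScalarTower ℤ (ZMod p) A := IsScalarTower.of_algebraMap_eq' (Subsingleton.elim _ _)
    have hft' : Algebra.FiniteType (ZMod p) A := .of_restrictScalars_finiteType ℤ (ZMod p) A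
    have hfp : Algebra.FinitePresentation (ZMod p) A :=
      Algebra.FinitePresentation.of_finiteType.1 inferInstance
    have hs : Algebra.IsSmoothAt (ZMod p) (⊥ : Ideal A) := gen_smooth_perf_h4
    obtain ⟨s, hs0, hs1⟩ := Algebra.IsSmoothAt.exists_notMem_smooth (ZMod p) (⊥ : Ideal A)
    exact ⟨p, hal, Or.inr hpr, hfp, s, hs0, hs1⟩
  · have : CharZero A := CharP.charP_to_charZero A
    have hfp : Algebra.FinitePresentation ℤ A :=
      Algebra.FinitePresentation.of_finiteType.1 inferInstance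
    have hs : Algebra.IsSmoothAt ℤ (⊥ : Ideal A) := gen_smooth_int_h4
    obtain ⟨s, hs0, hs1⟩ := Algebra.IsSmoothAt.exists_notMem_smooth ℤ (⊥ : Ideal A)
    exact ⟨0, (inferInstance : Algebra ℤ A), Or.inl rfl, hfp, s, hs0, hs1⟩


section Base

variable {n : ℕ} (r : Pre n) {k A : Type} [CommRing k] [CommRing A] [Algebra k A]

/-- `T → RR A` -/
private noncomputable def tA_h4 (hk : ∀ (R : Type) [CommRing R], Subsingleton (k →+* R)) :
    RR r k →ₐ[k] RR r A :=
  { RRmap r (algebraMap k A) with
    commutes' := fun c => by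
      have := hk (RR r A)
      exact RingHom.congr_fun (Subsingleton.elim ((RRmap r (algebraMap k A)).comp
        (algebraMap k (RR r k))) (algebraMap k (RR r A))) c }

private noncomputable def iA_h4 (hk : ∀ (R : Type) [CommRing R], Subsingleton (k →+* R)) :
    A →ₐ[k] RR r A :=
  { ιR r A with
    commutes' := fun c => by
      have := hk (RR r A)
      exact RingHom.congr_fun (Subsingleton.elim ((ιR r A).comp
        (algebraMap k A)) (algebraMap k (RR r A))) c }

private noncomputable def h1_h4 (hk : ∀ (R : Type) [CommRing R], Subsingleton (k →+* R)) :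
    RR r k ⊗[k] A →+* RR r A :=
  (Algebra.TensorProduct.lift (tA_h4 (A := A) r hk) (iA_h4 r hk) (fun _ _ => Commute.all _ _)).toRingHom

private noncomputable def h2_h4 (k A : Type) [CommRing k] [CommRing A] [Algebra k A] :
    RR r A →+* RR r k ⊗[k] A :=
  ev r (Algebra.TensorProduct.includeRight : A →ₐ[k] RR r k ⊗[k] A).toRingHom
    (Gp.map r (Algebra.TensorProduct.includeLeftRingHom : RR r k →+* RR r k ⊗[k] A) (gam r k))

private theorem h1_left_h4 (hk : ∀ (R : Type) [CommRing R], Subsingleton (k →+* R)) :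
    (h1_h4 (A := A) r hk).comp Algebra.TensorProduct.includeLeftRingHom = RRmap r (algebraMap k A) := by
  ext x
  simp [h1_h4, tA_h4]

private theorem h1_right_h4 (hk : ∀ (R : Type) [CommRing R], Subsingleton (k →+* R)) :
    (h1_h4 (A := A) r hk).comp (Algebra.TensorProduct.includeRight : A →ₐ[k] RR r k ⊗[k] A).toRingHom =
      ιR r A := by
  ext x
  simp [h1_h4, iA_h4]

private theorem h12_h4 (hk : ∀ (R : Type) [CommRing R], Subsingleton (k →+* R)) :
    (h1_h4 (A := A) r hk).comp (h2_h4 r k A) = RingHom.id _ := by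
  apply RR_hom_ext r
  · rw [RingHom.comp_assoc, h2_h4, ev_comp_ι, h1_right_h4, RingHom.id_comp]
  · rw [Gp.map_comp, h2_h4, map_ev_gam, ← Gp.map_comp, h1_left_h4, map_RRmap_gam, Gp.map_id]

private theorem h21_h4 (hk : ∀ (R : Type) [CommRing R], Subsingleton (k →+* R)) :
    (h2_h4 r k A).comp (h1_h4 (A := A) r hk) = RingHom.id _ := by
  apply Algebra.TensorProduct.ringHom_ext
  · rw [RingHom.comp_assoc, h1_left_h4, RingHom.id_comp]
    apply RR_hom_ext r
    · have := hk (RR r k ⊗[k] A)
      exact Subsingleton.elim _ _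
    · rw [Gp.map_comp, map_RRmap_gam, h2_h4, map_ev_gam]
  · rw [RingHom.comp_assoc, h1_right_h4, RingHom.id_comp, h2_h4, ev_comp_ι]

/-- `RR k ⊗ A ≃ RR A` -/
private noncomputable def eB_h4 (hk : ∀ (R : Type) [CommRing R], Subsingleton (k →+* R)) :
    RR r k ⊗[k] A ≃+* RR r A :=
  RingEquiv.ofRingHom (h1_h4 r hk) (h2_h4 r k A) (h12_h4 r hk) (h21_h4 r hk)

end Base

section Theta

variable {n : ℕ} {r : Pre n} {A : Type} [CommRing A] (α : Act r A)

private theorem act_ev_h4 {R : Type} [CommRing R] (x : A →+* R) (g : Gp r R) :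
    (ev r x g).comp (α.act (gam r A) (ιR r A)) = α.act g x := by
  rw [← α.nat, ev_comp_ι, map_ev_gam]

private theorem th1_h4 : (ev r α.rho (gam r A)).comp
    (ev r (α.act (gam r A)⁻¹ (ιR r A)) (gam r A)) = RingHom.id (RR r A) := by
  apply RR_hom_ext r
  · rw [RingHom.comp_assoc, ev_comp_ι, ← α.nat, ev_comp_ι, map_inv, map_ev_gam, Act.rho, ← α.mul,
      inv_mul_cancel, α.one, RingHom.id_comp]
  · rw [Gp.map_comp, map_ev_gam, map_ev_gam, Gp.map_id]

private theorem th2_h4 : (ev r (α.act (gam r A)⁻¹ (ιR r A)) (gam r A)).comp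
    (ev r α.rho (gam r A)) = RingHom.id (RR r A) := by
  apply RR_hom_ext r
  · rw [RingHom.comp_assoc, ev_comp_ι, Act.rho, ← α.nat, ev_comp_ι, map_ev_gam, ← α.mul,
      mul_inv_cancel, α.one, RingHom.id_comp]
  · rw [Gp.map_comp, map_ev_gam, map_ev_gam, Gp.map_id]

private noncomputable def Th_h4 : RR r A ≃+* RR r A :=
  RingEquiv.ofRingHom (ev r α.rho (gam r A)) (ev r (α.act (gam r A)⁻¹ (ιR r A)) (gam r A))
    (th1_h4 α) (th2_h4 α)

variable {k : Type} [CommRing k] [Algebra k A]

private theorem TB_comm_h4 (hk : ∀ (R : Type) [CommRing R], Subsingleton (k →+* R)) :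
    ((h2_h4 r k A).comp ((ev r α.rho (gam r A)).comp (h1_h4 r hk))).comp
      Algebra.TensorProduct.includeLeftRingHom = Algebra.TensorProduct.includeLeftRingHom := by
  apply RR_hom_ext r
  · have := hk (RR r k ⊗[k] A)
    exact Subsingleton.elim _ _
  · rw [RingHom.comp_assoc, RingHom.comp_assoc, h1_left_h4, Gp.map_comp, Gp.map_comp, map_RRmap_gam,
      map_ev_gam, h2_h4, map_ev_gam]

private noncomputable def TB_h4 (hk : ∀ (R : Type) [CommRing R], Subsingleton (k →+* R)) :
    (RR r k ⊗[k] A) ≃ₐ[RR r k] (RR r k ⊗[k] A) :=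
  AlgEquiv.ofRingEquiv (f := ((eB_h4 r hk).trans (Th_h4 α)).trans (eB_h4 r hk).symm)
    (fun t => RingHom.congr_fun (TB_comm_h4 α hk) t)

private theorem eB_one_h4 (hk : ∀ (R : Type) [CommRing R], Subsingleton (k →+* R)) (a : A) :
    eB_h4 r hk ((1 : RR r k) ⊗ₜ[k] a) = ιR r A a := by
  have h : eB_h4 r hk ((1 : RR r k) ⊗ₜ[k] a) = h1_h4 r hk ((1 : RR r k) ⊗ₜ[k] a) := rfl
  rw [h]
  simp [h1_h4, iA_h4]

private theorem TB_apply_h4 (hk : ∀ (R : Type) [CommRing R], Subsingleton (k →+* R))
    (b : RR r k ⊗[k] A) : TB_h4 α hk b = (eB_h4 r hk).symm (Th_h4 α (eB_h4 r hk b)) := rfl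

private theorem eB_TB_h4 (hk : ∀ (R : Type) [CommRing R], Subsingleton (k →+* R)) (a : A) :
    eB_h4 r hk (TB_h4 α hk ((1 : RR r k) ⊗ₜ[k] a)) = α.rho a := by
  rw [TB_apply_h4, RingEquiv.apply_symm_apply, eB_one_h4]
  exact ev_ι r _ _ a

private theorem flat_h4 : Module.Flat k (RR r k) := by
  have h1 : Module.Flat (MvPolynomial (Idx r) k) (RR r k) :=
    IsLocalization.flat _ (Submonoid.powers (gmat r k).det)
  exact Module.Flat.trans k (MvPolynomial (Idx r) k) (RR r k)

private theorem sm_h4 [Algebra.FinitePresentation k A]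
    (hk : ∀ (R : Type) [CommRing R], Subsingleton (k →+* R)) {s : A}
    (hs : Algebra.Smooth k (Localization.Away s)) (P : PrimeSpectrum (RR r k ⊗[k] A))
    (hP : TB_h4 α hk ((1 : RR r k) ⊗ₜ[k] s) ∉ P.asIdeal) :
    P ∈ Algebra.smoothLocus (RR r k) (RR r k ⊗[k] A) := by
  have h1 : Algebra.Smooth (RR r k) (Localization.Away ((1 : RR r k) ⊗ₜ[k] s)) :=
    Algebra.Smooth.of_equiv
      (IsLocalization.Away.tensorProductEquivTMulRight k (RR r k) s (Localization.Away s))
  have h2 : Submonoid.map (TB_h4 α hk) (Submonoid.powers ((1 : RR r k) ⊗ₜ[k] s)) =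
      Submonoid.powers (TB_h4 α hk ((1 : RR r k) ⊗ₜ[k] s)) := by
    rw [Submonoid.map_powers]
  have h3 : Algebra.Smooth (RR r k) (Localization.Away (TB_h4 α hk ((1 : RR r k) ⊗ₜ[k] s))) :=
    Algebra.Smooth.of_equiv
      (IsLocalization.algEquivOfAlgEquiv (Localization.Away ((1 : RR r k) ⊗ₜ[k] s))
        (Localization.Away (TB_h4 α hk ((1 : RR r k) ⊗ₜ[k] s))) (TB_h4 α hk) h2)
  rw [← Algebra.basicOpen_subset_smoothLocus_iff_smooth] at h3
  exact h3 hP

/-- the primes outside the stable hull of `s` are smooth -/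
private theorem smooth_pt_h4 [Algebra.FinitePresentation k A] [IsNoetherianRing A]
    (hk : ∀ (R : Type) [CommRing R], Subsingleton (k →+* R)) {s : A}
    (hs : Algebra.Smooth k (Localization.Away s)) (q : PrimeSpectrum A)
    (hq : RRmap r (Ideal.Quotient.mk q.asIdeal) (α.rho s) ≠ 0) :
    q ∈ Algebra.smoothLocus k A := by
  have hdom : IsDomain (RR r (A ⧸ q.asIdeal)) := isDomain_RR r _
  let φ : RR r k ⊗[k] A →+* RR r (A ⧸ q.asIdeal) :=
    (RRmap r (Ideal.Quotient.mk q.asIdeal)).comp (eB_h4 (A := A) r hk).toRingHom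
  let P : PrimeSpectrum (RR r k ⊗[k] A) := ⟨RingHom.ker φ, RingHom.ker_isPrime φ⟩
  have hP : P ∈ Algebra.smoothLocus (RR r k) (RR r k ⊗[k] A) := by
    refine sm_h4 α hk hs P fun h => hq ?_
    rw [← eB_TB_h4 α hk s]
    exact h
  have hfl : Module.Flat k (RR r k) := flat_h4
  have h1 := mem_smoothLocus_of_flat P hP
  convert h1 using 1
  apply PrimeSpectrum.ext
  ext a
  have h2 : φ ((1 : RR r k) ⊗ₜ[k] a) = ιR r _ (Ideal.Quotient.mk q.asIdeal a) := by
    have h3 : φ ((1 : RR r k) ⊗ₜ[k] a) = RRmap r (Ideal.Quotient.mk q.asIdeal)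
      (eB_h4 (A := A) r hk ((1 : RR r k) ⊗ₜ[k] a)) := rfl
    rw [h3, eB_one_h4]
    exact RingHom.congr_fun (RRmap_comp_ι r (Ideal.Quotient.mk q.asIdeal)) a
  constructor
  · intro ha
    show φ ((1 : RR r k) ⊗ₜ[k] a) = 0
    rw [h2, Ideal.Quotient.eq_zero_iff_mem.2 ha, map_zero]
  · intro ha
    have h4 : φ ((1 : RR r k) ⊗ₜ[k] a) = 0 := ha
    rw [h2] at h4
    exact Ideal.Quotient.eq_zero_iff_mem.1 ((injective_iff_map_eq_zero _).1 (ιR_inj r _) _ h4)

end Theta

theorem exists_smooth {n : ℕ} {r : Pre n} {A : Type} [CommRing A] [IsDomain A] (hA : FGen A)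
    (α : Act r A) : ∃ d : Ideal A, d ≠ ⊥ ∧ α.Stable d ∧ ∀ e : Ideal A, e ≤ d →
      ∃ (p : ℕ) (s : (DD e).toScheme ⟶ Spec (CommRingCat.of (ZMod p))), (p = 0 ∨ p.Prime) ∧
        Smooth s := by
  obtain ⟨p, hal, hp, hfp, s, hs0, hs⟩ := exists_away_smooth_h4 hA
  have hft : Algebra.FiniteType ℤ A := RingHom.finiteType_algebraMap.1 hA
  have hno : IsNoetherianRing A := Algebra.FiniteType.isNoetherianRing ℤ A
  have hk : ∀ (R : Type) [CommRing R], Subsingleton (ZMod p →+* R) := fun R _ => inferInstance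
  obtain ⟨d, hd0, hd1, hd2⟩ := α.exists_hull s hs0
  refine ⟨d, hd0, hd1, fun e he => ?_⟩
  refine ⟨p, (DD e).ι ≫ Spec.map (CommRingCat.ofHom (algebraMap (ZMod p) A)), hp, ?_⟩
  refine smooth_of_points_h4 (DD e) fun q hq => smooth_pt_h4 α hk hs q fun h => hq ?_
  intro a ha
  exact hd2 q.asIdeal h (he ha)

end Pool.Agent.Helper72.OB
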