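import Pool.Agent.Helper72.OB.RR

/-!
# Orbit theorem, block C: stable ideals
-/

set_option autoImplicit false

namespace Pool.Agent.Helper72.OB

variable {n : ℕ} {r : Pre n} {A : Type} [CommRing A] (α : Act r A)

/-- the numerator of `b` decides whether `b` is killed by `RRmap f` -/
private theorem num_iff34 {B : Type} [CommRing B] {b : RR r A} {k : ℕ}
    {F : MvPolynomial (Idx r) A}
    (h : algebraMap _ (RR r A) ((gmat r A).det ^ k) * b = algebraMap _ _ F) (f : A →+* B) :
    RRmap r f b = 0 ↔ MvPolynomial.map f F = 0 := by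
  have h1 := congrArg (RRmap r f) h
  rw [map_mul, RRmap_algebraMap, RRmap_algebraMap, map_pow, RRmap_det, map_pow] at h1
  have hu : IsUnit (algebraMap (MvPolynomial (Idx r) B) (RR r B) (gmat r B).det ^ k) :=
    (IsLocalization.Away.algebraMap_isUnit _).pow k
  constructor
  · intro h2
    rw [h2, mul_zero] at h1
    exact algebraMap_RR_inj r B (h1.symm.trans (map_zero _).symm)
  · intro h2
    rw [h2, map_zero] at h1
    exact hu.mul_right_eq_zero.1 h1

private theorem map_zero_iff34 {B : Type} [CommRing B] (F : MvPolynomial (Idx r) A) (f : A →+* B) :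
    MvPolynomial.map f F = 0 ↔ ∀ m, MvPolynomial.coeff m F ∈ RingHom.ker f := by
  rw [MvPolynomial.ext_iff]
  refine forall_congr' fun m => ?_
  rw [MvPolynomial.coeff_map, MvPolynomial.coeff_zero, RingHom.mem_ker]

private theorem RRmap_iff34 {B : Type} [CommRing B] (b : RR r A) (f : A →+* B) :
    RRmap r f b = 0 ↔ b ∈ (RingHom.ker f).map (ιR r A) := by
  obtain ⟨k, F, h⟩ := exists_num r b
  rw [num_iff34 h, map_zero_iff34, ← ker_RRmap_mk, RingHom.mem_ker, num_iff34 h, map_zero_iff34,
    Ideal.mk_ker]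

private theorem orb_act34 {R : Type} [CommRing R] (g : Gp r R) (x : A →+* R) :
    α.orb (α.act g x) =
      (ev r (ιR r R) (gam r R * Gp.map r (ιR r R) g)).comp (α.orb x) := by
  rw [α.ev_orb, Act.orb, ← α.nat, ← α.mul]

private theorem orb_comp34 {R R' : Type} [CommRing R] [CommRing R'] (f : R →+* R') (x : A →+* R) :
    α.orb (f.comp x) = (ev r ((ιR r R').comp f) (gam r R')).comp (α.orb x) := by
  rw [α.ev_orb, Act.orb, RingHom.comp_assoc]

private theorem stable_iff34 (I : Ideal A) :
    α.Stable I ↔ I.map α.rho ≤ I.map (ιR r A) := by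
  rw [Ideal.map_le_iff_le_comap]
  constructor
  · intro hI a ha
    rw [Ideal.mem_comap, ← ker_RRmap_mk, RingHom.mem_ker]
    have h := hI (gam r (A ⧸ I)) ((ιR r (A ⧸ I)).comp (Ideal.Quotient.mk I)) (fun b hb => by
      rw [RingHom.comp_apply, Ideal.Quotient.eq_zero_iff_mem.2 hb, map_zero]) a ha
    have e : α.orb (Ideal.Quotient.mk I) a = 0 := h
    rw [α.orb_eq] at e
    exact e
  · intro h R _ g x hx a ha
    rw [α.act_eq, RingHom.comp_apply]
    have h1 : I.map (ιR r A) ≤ RingHom.ker (ev r x g) := by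
      rw [Ideal.map_le_iff_le_comap]
      intro b hb
      rw [Ideal.mem_comap, RingHom.mem_ker, ev_ι]
      exact hx b hb
    exact h1 (h ha)

theorem Act.rho_inj : Function.Injective α.rho := by
  have h : (ev r (RingHom.id A) 1).comp α.rho = RingHom.id A := by
    rw [← α.act_eq, α.one]
  intro a b hab
  have h1 := congrArg (fun f => f a) h
  have h2 := congrArg (fun f => f b) h
  simp only [RingHom.comp_apply, RingHom.id_apply] at h1 h2
  rw [← h1, ← h2, hab]

/-- an ideal is stable iff the coaction maps it to its extension -/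
theorem Act.stable_iff (I : Ideal A) : α.Stable I ↔ ∀ a ∈ I, α.rho a ∈ I.map (ιR r A) := by
  rw [stable_iff34, Ideal.map_le_iff_le_comap]
  rfl

theorem Act.stable_bot : α.Stable (⊥ : Ideal A) := by
  rw [stable_iff34, Ideal.map_bot]
  exact bot_le

theorem Act.stable_top : α.Stable (⊤ : Ideal A) := by
  rw [stable_iff34, Ideal.map_top, Ideal.map_top]

variable {α}

theorem Act.Stable.mul {I J : Ideal A} (hI : α.Stable I) (hJ : α.Stable J) : α.Stable (I * J) := by
  rw [stable_iff34] at *
  rw [Ideal.map_mul, Ideal.map_mul]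
  exact Ideal.mul_mono hI hJ

theorem Act.Stable.sup {I J : Ideal A} (hI : α.Stable I) (hJ : α.Stable J) : α.Stable (I ⊔ J) := by
  rw [stable_iff34] at *
  rw [Ideal.map_sup, Ideal.map_sup]
  exact sup_le_sup hI hJ

theorem Act.Stable.pow {I : Ideal A} (hI : α.Stable I) (k : ℕ) : α.Stable (I ^ k) := by
  rw [stable_iff34] at *
  rw [Ideal.map_pow, Ideal.map_pow]
  exact Ideal.pow_right_mono hI k

theorem Act.Stable.prod {ι : Type} (s : Finset ι) (I : ι → Ideal A) (h : ∀ i ∈ s, α.Stable (I i)) :
    α.Stable (∏ i ∈ s, I i) := by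
  classical
  induction s using Finset.induction_on with
  | empty =>
    rw [Finset.prod_empty, Ideal.one_eq_top]
    exact α.stable_top
  | insert i s his ih =>
    rw [Finset.prod_insert his]
    exact Act.Stable.mul (h i (Finset.mem_insert_self i s))
      (ih fun j hj => h j (Finset.mem_insert_of_mem hj))

variable (α)

/-- the kernel of an orbit map is stable -/
theorem Act.ker_orb_stable {R : Type} [CommRing R] (y : A →+* R) :
    α.Stable (RingHom.ker (α.orb y)) := by
  rw [Act.stable_iff]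
  intro a ha
  rw [← RRmap_iff34]
  have h1 : RRmap r (α.orb y) (α.rho a) = α.orb (α.orb y) a := by
    rw [α.orb_eq (α.orb y)]
    rfl
  have h2 : α.orb y = α.act (gam r R) ((ιR r R).comp y) := rfl
  have h3 : α.orb (α.orb y) a = 0 := by
    rw [h2, orb_act34, orb_comp34, RingHom.comp_apply, RingHom.comp_apply, (RingHom.mem_ker).1 ha,
      map_zero, map_zero]
  rw [h1, h3]

theorem Act.core_stable (I : Ideal A) : α.Stable (α.core I) := α.ker_orb_stable _

theorem Act.core_le (I : Ideal A) : α.core I ≤ I := by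
  intro a ha
  have h1 := α.ev_orb (Ideal.Quotient.mk I) (RingHom.id (A ⧸ I)) 1
  rw [α.one, RingHom.id_comp] at h1
  rw [← Ideal.Quotient.eq_zero_iff_mem, ← h1, RingHom.comp_apply, (RingHom.mem_ker).1 ha, map_zero]

theorem Act.le_core {I J : Ideal A} (hJ : α.Stable J) (h : J ≤ I) : J ≤ α.core I := by
  intro a ha
  have h1 := hJ (gam r (A ⧸ I)) ((ιR r (A ⧸ I)).comp (Ideal.Quotient.mk I)) (fun b hb => by
    rw [RingHom.comp_apply, Ideal.Quotient.eq_zero_iff_mem.2 (h hb), map_zero]) a ha
  rw [Act.core, RingHom.mem_ker]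
  exact h1

theorem Act.core_prime (I : Ideal A) [I.IsPrime] : (α.core I).IsPrime := by
  have := isDomain_RR r (A ⧸ I)
  exact RingHom.ker_isPrime _

theorem Act.stable_of_mem_minimalPrimes {I p : Ideal A} (hI : α.Stable I)
    (hp : p ∈ I.minimalPrimes) : α.Stable p := by
  have hprime : p.IsPrime := hp.1.1
  have h1 : α.core p ≤ p := α.core_le p
  have h2 : I ≤ α.core p := α.le_core hI hp.1.2
  have h3 : p ≤ α.core p := hp.2 ⟨α.core_prime p, h2⟩ h1
  have h4 : α.core p = p := le_antisymm h1 h3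
  have h5 : α.Stable (α.core p) := α.core_stable p
  rwa [h4] at h5

theorem Act.mem_core_iff (I : Ideal A) (a : A) :
    a ∈ α.core I ↔ RRmap r (Ideal.Quotient.mk I) (α.rho a) = 0 := by
  rw [Act.core, RingHom.mem_ker, α.orb_eq]
  rfl

variable {α}

theorem Act.Stable.map_quot {I e : Ideal A} (hI : α.Stable I) (he : α.Stable e) :
    (α.quot I hI).Stable (e.map (Ideal.Quotient.mk I)) := by
  intro R _ g x hx b hb
  obtain ⟨a, ha, rfl⟩ := (Ideal.mem_map_iff_of_surjective _ Ideal.Quotient.mk_surjective).1 hb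
  have h1 := congrArg (fun f => f a) (α.quot_comp_mk I hI g x)
  simp only [RingHom.comp_apply] at h1
  rw [h1]
  exact he g _ (fun c hc => hx _ (Ideal.mem_map_of_mem _ hc)) a ha

theorem Act.Stable.comap_quot {I : Ideal A} (hI : α.Stable I) {J : Ideal (A ⧸ I)}
    (hJ : (α.quot I hI).Stable J) : α.Stable (J.comap (Ideal.Quotient.mk I)) := by
  intro R _ g x hx a ha
  have hxI : ∀ b ∈ I, x b = 0 := fun b hb => hx b (by
    rw [Ideal.mem_comap, Ideal.Quotient.eq_zero_iff_mem.2 hb]
    exact J.zero_mem)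
  have e : (Ideal.Quotient.lift I x hxI).comp (Ideal.Quotient.mk I) = x :=
    Ideal.Quotient.lift_comp_mk _ _ _
  have h1 := congrArg (fun f => f a) (α.quot_comp_mk I hI g (Ideal.Quotient.lift I x hxI))
  simp only [RingHom.comp_apply] at h1
  rw [e] at h1
  rw [← h1]
  refine hJ g _ (fun b hb => ?_) _ ha
  obtain ⟨c, rfl⟩ := Ideal.Quotient.mk_surjective b
  rw [Ideal.Quotient.lift_mk]
  exact hx c hb

theorem Act.orb_quot {I : Ideal A} (hI : α.Stable I) {R : Type} [CommRing R] (y : A ⧸ I →+* R) :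
    ((α.quot I hI).orb y).comp (Ideal.Quotient.mk I) = α.orb (y.comp (Ideal.Quotient.mk I)) := by
  rw [Act.orb, α.quot_comp_mk, Act.orb, RingHom.comp_assoc]

/-- the stable hull of an element: the ideal of coefficients of the numerator of `ρ(s)` -/
theorem Act.exists_hull (α : Act r A) (s : A) (hs : s ≠ 0) : ∃ d : Ideal A, d ≠ ⊥ ∧ α.Stable d ∧
    ∀ q : Ideal A, RRmap r (Ideal.Quotient.mk q) (α.rho s) = 0 → d ≤ q := by
  obtain ⟨k, F, h⟩ := exists_num r (α.rho s)
  have hle : ∀ q : Ideal A, Ideal.span (Set.range fun m => MvPolynomial.coeff m F) ≤ q ↔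
      ∀ m, MvPolynomial.coeff m F ∈ q := by
    intro q
    rw [Ideal.span_le, Set.range_subset_iff]
    rfl
  have hkey : ∀ {R : Type} [CommRing R] (x : A →+* R), α.orb x s = 0 ↔
      Ideal.span (Set.range fun m => MvPolynomial.coeff m F) ≤ RingHom.ker x := by
    intro R _ x
    rw [hle, ← map_zero_iff34, ← num_iff34 h, α.orb_eq]
    rfl
  refine ⟨Ideal.span (Set.range fun m => MvPolynomial.coeff m F), ?_, ?_, ?_⟩
  · intro hbot
    have h1 : α.orb (RingHom.id A) s = 0 := by
      rw [hkey, hbot]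
      exact bot_le
    have h2 := α.ev_orb (RingHom.id A) (RingHom.id A) 1
    rw [α.one, RingHom.id_comp] at h2
    have h3 := congrArg (fun f => f s) h2
    simp only [RingHom.comp_apply, h1, map_zero, RingHom.id_apply] at h3
    exact hs h3.symm
  · intro R _ g x hx a ha
    have h1 : α.orb x s = 0 := (hkey x).2 fun b hb => (RingHom.mem_ker).2 (hx b hb)
    have h2 : α.orb (α.act g x) s = 0 := by
      rw [orb_act34, RingHom.comp_apply, h1, map_zero]
    exact (RingHom.mem_ker).1 ((hkey _).1 h2 ha)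
  · intro q hq
    have h1 : α.orb (Ideal.Quotient.mk q) s = 0 := by
      rw [α.orb_eq]
      exact hq
    have h2 := (hkey _).1 h1
    rwa [Ideal.mk_ker] at h2

end Pool.Agent.Helper72.OB
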