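import Pool.Agent.Helper72.OB.SolvAbs
import Pool.Agent.Helper72.OB.Grp
import Pool.Agent.Helper72.OB.Stab

/-!
# Orbit theorem, block G3: the coactions of a solvable group `G_r`
-/

set_option autoImplicit false

namespace Pool.Agent.Helper72.OB

open AlgebraicGeometry CategoryTheory

namespace G3

variable {A : Type} [CommRing A]


section Poly
open Polynomial

theorem coeff_I {B : Type} [CommRing B] (ψ : A →+* B[X]) (f : A[X]) (i j : ℕ) :
    ((eval₂ ((mapRingHom (C : B →+* B[X])).comp ψ) (C (X : B[X])) f).coeff j).coeff i =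
      (ψ (f.coeff i)).coeff j := by
  induction f using Polynomial.induction_on' with
  | add p q hp hq => simp only [eval₂_add, coeff_add, map_add, hp, hq]
  | monomial m c =>
    rw [eval₂_monomial, ← C_pow, coeff_mul_C]
    simp only [RingHom.comp_apply, coe_mapRingHom, coeff_map, coeff_C_mul_X_pow, coeff_monomial]
    by_cases h : i = m
    · subst h; simp
    · rw [if_neg h, if_neg (Ne.symm h)]; simp

theorem coeff_addX (f : A[X]) (i j : ℕ) :
    ((eval₂ ((C : A[X] →+* A[X][X]).comp C) (C (X : A[X]) + X) f).coeff j).coeff i =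
      (Nat.choose (i + j) i : A) * f.coeff (i + j) := by
  induction f using Polynomial.induction_on' with
  | add p q hp hq => simp only [eval₂_add, coeff_add, hp, hq, mul_add]
  | monomial m c =>
    rw [eval₂_monomial, RingHom.comp_apply, coeff_C_mul, add_comm (C (X : A[X])) X,
      coeff_X_add_C_pow, coeff_C_mul, coeff_monomial]
    have h0 : ((m.choose j : ℕ) : A[X]) = C (m.choose j : A) := by simp
    rw [h0, coeff_mul_C, coeff_X_pow]
    by_cases h : m = i + j
    · subst h
      rw [if_pos (by omega), if_pos rfl, Nat.choose_symm_add, one_mul, mul_comm]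
    · rw [if_neg h, mul_zero]
      by_cases h2 : j ≤ m
      · rw [if_neg (by omega)]; simp
      · rw [Nat.choose_eq_zero_of_lt (by omega)]; simp

theorem coeff_CmulX {B : Type} [CommRing B] (p : A →+* B) (w : B) (f : A[X]) (i : ℕ) :
    (eval₂ ((C : B →+* B[X]).comp p) (C w * X) f).coeff i = p (f.coeff i) * w ^ i := by
  induction f using Polynomial.induction_on' with
  | add p q hp hq => simp only [eval₂_add, coeff_add, hp, hq, map_add, add_mul]
  | monomial m c =>
    rw [eval₂_monomial, RingHom.comp_apply, mul_pow, ← C_pow, ← mul_assoc, ← C_mul,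
      coeff_C_mul_X_pow, coeff_monomial]
    by_cases h : i = m
    · subst h; simp
    · rw [if_neg h, if_neg (Ne.symm h)]; simp

end Poly

section Torus
open AddMonoidAlgebra

variable {n : ℕ}

abbrev TA (n : ℕ) (A : Type) [CommRing A] : Type := AddMonoidAlgebra A (Fin n → ℤ)

noncomputable def chU {R : Type} [CommRing R] (u : Fin n → Rˣ) : Multiplicative (Fin n → ℤ) →* Rˣ where
  toFun χ := ∏ i, u i ^ (Multiplicative.toAdd χ i)
  map_one' := by simp
  map_mul' χ ψ := by simp [zpow_add, Finset.prod_mul_distrib]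

noncomputable def evT {R : Type} [CommRing R] (p : A →+* R) (u : Fin n → Rˣ) : TA n A →+* R :=
  liftNCRingHom p ((Units.coeHom R).comp (chU u)) (fun _ _ => Commute.all _ _)

theorem evT_single {R : Type} [CommRing R] (p : A →+* R) (u : Fin n → Rˣ) (χ : Fin n → ℤ) (c : A) :
    evT p u (single χ c) = p c * (chU u (.ofAdd χ) : R) := liftNCRingHom_single _ _ _ _ _

theorem evT_comp_const {R : Type} [CommRing R] (p : A →+* R) (u : Fin n → Rˣ) :
    (evT p u).comp singleZeroRingHom = p := by
  ext a
  have h : (singleZeroRingHom a : TA n A) = single 0 a := rfl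
  rw [RingHom.comp_apply, h, evT_single]
  simp [chU]

/-- the units `T^χ` -/
noncomputable def sU (n : ℕ) (A : Type) [CommRing A] : Multiplicative (Fin n → ℤ) →* (TA n A)ˣ where
  toFun χ := ⟨single χ.toAdd 1, single (-χ.toAdd) 1, by
    rw [single_mul_single, add_neg_cancel, one_mul]; rfl, by
    rw [single_mul_single, neg_add_cancel, one_mul]; rfl⟩
  map_one' := by
    apply Units.ext
    rfl
  map_mul' χ ψ := by
    apply Units.ext
    show (single (χ * ψ).toAdd 1 : TA n A) = single χ.toAdd 1 * single ψ.toAdd 1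
    rw [single_mul_single, one_mul]
    rfl

theorem sU_val (χ : Fin n → ℤ) : ((sU n A (.ofAdd χ) : (TA n A)ˣ) : TA n A) = single χ 1 := rfl

/-- the coordinates of the torus -/
noncomputable def TT (n : ℕ) (A : Type) [CommRing A] (i : Fin n) : (TA n A)ˣ :=
  sU n A (.ofAdd (Pi.single i 1))

theorem chU_map {R R' : Type} [CommRing R] [CommRing R'] (f : R →+* R') (u : Fin n → Rˣ)
    (χ : Multiplicative (Fin n → ℤ)) :
    chU (fun i => Units.map (f : R →* R') (u i)) χ = Units.map (f : R →* R') (chU u χ) := by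
  simp only [chU, MonoidHom.coe_mk, OneHom.coe_mk, map_prod, map_zpow]

theorem chU_mul {R : Type} [CommRing R] (u v : Fin n → Rˣ) (χ : Multiplicative (Fin n → ℤ)) :
    chU (fun i => u i * v i) χ = chU u χ * chU v χ := by
  simp only [chU, MonoidHom.coe_mk, OneHom.coe_mk, mul_zpow, Finset.prod_mul_distrib]

theorem chU_TT (χ : Fin n → ℤ) : chU (TT n A) (.ofAdd χ) = sU n A (.ofAdd χ) := by
  have h1 : chU (TT n A) (.ofAdd χ) = sU n A (∏ i, (.ofAdd (Pi.single i 1)) ^ (χ i)) := by
    rw [map_prod]
    simp only [chU, MonoidHom.coe_mk, OneHom.coe_mk, map_zpow]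
    rfl
  rw [h1]
  congr 1
  apply Multiplicative.toAdd.injective
  rw [toAdd_prod]
  simp only [toAdd_zpow, toAdd_ofAdd]
  ext j
  rw [Finset.sum_apply]
  simp [Pi.single_apply]

theorem chU_single {R : Type} [CommRing R] (u : Fin n → Rˣ) (i : Fin n) :
    chU u (.ofAdd (Pi.single i 1)) = u i := by
  simp only [chU, MonoidHom.coe_mk, OneHom.coe_mk, toAdd_ofAdd]
  rw [Finset.prod_eq_single i]
  · simp
  · intro j _ hj
    simp [hj]
  · simp

theorem map_evT_TT {R : Type} [CommRing R] (p : A →+* R) (u : Fin n → Rˣ) :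
    (fun i => Units.map (evT p u : TA n A →* R) (TT n A i)) = u := by
  funext i
  apply Units.ext
  show evT p u (single (Pi.single i 1) 1) = u i
  rw [evT_single, map_one, one_mul, chU_single]

theorem evT_one (z : TA n A) : evT (RingHom.id A) (fun _ => 1) z = z.coeff.sum (fun _ b => b) := by
  induction z using AddMonoidAlgebra.induction_linear with
  | zero => simp
  | add x y hx hy =>
    rw [map_add, hx, hy, coeff_add, Finsupp.sum_add_index' (fun _ => rfl) (fun _ _ _ => rfl)]
  | single m c =>
    rw [evT_single, coeff_single, Finsupp.sum_single_index rfl]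
    simp [chU]

theorem coeff_evT_TT {B : Type} [CommRing B] (φ : A →+* B) (z : TA n A) (χ : Fin n → ℤ) :
    (evT ((singleZeroRingHom : B →+* TA n B).comp φ) (TT n B) z).coeff χ = φ (z.coeff χ) := by
  classical
  induction z using AddMonoidAlgebra.induction_linear with
  | zero => simp
  | add x y hx hy => rw [map_add, coeff_add, Finsupp.add_apply, hx, hy, coeff_add,
      Finsupp.add_apply, map_add]
  | single m c =>
    have h : ((singleZeroRingHom : B →+* TA n B).comp φ) c = single 0 (φ c) := rfl
    rw [evT_single, chU_TT, sU_val, h, single_mul_single, zero_add, mul_one, coeff_single,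
      coeff_single, Finsupp.single_apply, Finsupp.single_apply]
    split_ifs <;> simp

theorem coeff_evT_mul (z : TA n A) (χ : Fin n → ℤ) :
    (evT ((singleZeroRingHom : TA n A →+* TA n (TA n A)).comp singleZeroRingHom)
      (fun i => TT n (TA n A) i * Units.map (singleZeroRingHom : TA n A →+* TA n (TA n A))
        (TT n A i)) z).coeff χ = single χ (z.coeff χ) := by
  classical
  induction z using AddMonoidAlgebra.induction_linear with
  | zero => simp
  | add x y hx hy => rw [map_add, coeff_add, Finsupp.add_apply, hx, hy, coeff_add,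
      Finsupp.add_apply, single_add]
  | single m c =>
    have h : ((singleZeroRingHom : TA n A →+* TA n (TA n A)).comp singleZeroRingHom) c =
      single 0 (single 0 c) := rfl
    have h2 : ((Units.map ((singleZeroRingHom : TA n A →+* TA n (TA n A)) :
      TA n A →* TA n (TA n A)) (sU n A (.ofAdd m)) : (TA n (TA n A))ˣ) : TA n (TA n A)) =
      single 0 (single m 1) := rfl
    rw [evT_single, chU_mul, chU_map, chU_TT, chU_TT, Units.val_mul, sU_val, h, h2,
      single_mul_single, single_mul_single, one_mul, single_mul_single, mul_one, add_zero,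
      zero_add, coeff_single, coeff_single, Finsupp.single_apply, Finsupp.single_apply]
    split_ifs with h3
    · rw [h3]
    · simp

end Torus


section Coact

open Polynomial
open AddMonoidAlgebra (singleZeroRingHom single)

variable {n : ℕ} {r : Pre n} (α : Act r A)

/-- the additive coaction of a root -/
noncomputable def tau (k : Root r) : A →+* A[X] := α.act (xel k (X : A[X])) C

theorem act_xel (k : Root r) {R : Type} [CommRing R] (p : A →+* R) (t : R) :
    α.act (xel k t) p = (eval₂RingHom p t).comp (tau α k) := by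
  have h := α.nat (eval₂RingHom p t) (xel k (X : A[X])) C
  have h1 : (eval₂RingHom p t).comp C = p := by ext a; simp
  have h2 : eval₂RingHom p t X = t := by simp
  rw [map_xel, h1, h2] at h
  exact h

theorem act_xel_apply (k : Root r) {R : Type} [CommRing R] (p : A →+* R) (t : R) (a : A) :
    α.act (xel k t) p a = eval₂ p t (tau α k a) := by
  rw [act_xel]; rfl

theorem tau_coeff_zero (k : Root r) (a : A) : (tau α k a).coeff 0 = a := by
  have h := act_xel_apply α k (RingHom.id A) 0 a
  rw [xel_zero, α.one, eval₂_at_zero] at h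
  exact h.symm

/-- `a(x_l(X) x_k(Y) x)`, in terms of the coactions -/
theorem double_I (k l : Root r) (a : A) (i j : ℕ) :
    ((α.act (xel l (C (X : A[X])) * xel k X) ((C : A[X] →+* A[X][X]).comp C) a).coeff j).coeff i =
      (tau α k ((tau α l a).coeff i)).coeff j := by
  have h := α.nat (mapRingHom (C : A →+* A[X])) (xel k (X : A[X])) C
  have h1 : (mapRingHom (C : A →+* A[X])).comp C = (C : A[X] →+* A[X][X]).comp C := by ext a; simp
  have h2 : mapRingHom (C : A →+* A[X]) X = X := by simp
  rw [map_xel, h1, h2] at h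
  rw [α.mul, h, act_xel_apply]
  exact coeff_I (tau α k) (tau α l a) i j

theorem double_II (k l : Root r) (a : A) (i j : ℕ) :
    ((α.act (xel k X * xel l (C (X : A[X]))) ((C : A[X] →+* A[X][X]).comp C) a).coeff j).coeff i =
      (tau α l ((tau α k a).coeff j)).coeff i := by
  have h := α.nat (C : A[X] →+* A[X][X]) (xel l (X : A[X])) C
  rw [map_xel] at h
  rw [α.mul, h, act_xel_apply]
  have h1 : eval₂ ((C : A[X] →+* A[X][X]).comp (α.act (xel l (X : A[X])) C)) X (tau α k a) =
      (tau α k a).map (tau α l) := rfl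
  rw [h1, coeff_map]

theorem tau_co (k : Root r) (a : A) (i j : ℕ) : (tau α k ((tau α k a).coeff i)).coeff j =
    (Nat.choose (i + j) i : A) * (tau α k a).coeff (i + j) := by
  rw [← double_I, ← xel_add, act_xel_apply, coeff_addX]

theorem tau_comm (hr : r.Antisymm) (k l : Root r) (a : A)
    (ha : ∀ h : Root r, l.height < h.height → tau α h a = C a) (i j : ℕ) :
    (tau α l ((tau α k a).coeff i)).coeff j = (tau α k ((tau α l a).coeff j)).coeff i := by
  rw [← double_II, ← double_I]
  congr 2
  rcases xel_mul_xel hr k l (C (X : A[X])) (X : A[X][X]) with h | ⟨h, c, h1, -, h2⟩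
  · rw [h]
  · rw [h2, α.mul (xel h c), act_xel_apply α h, ha h h1, eval₂_C]

/-! ### the torus -/

/-- the coaction of the torus -/
noncomputable def theta : A →+* TA n A := α.act (diagG r (TT n A)) singleZeroRingHom

theorem act_diag {R : Type} [CommRing R] (p : A →+* R) (u : Fin n → Rˣ) :
    α.act (diagG r u) p = (evT p u).comp (theta α) := by
  have h := α.nat (evT p u) (diagG r (TT n A)) singleZeroRingHom
  rw [map_diagG, evT_comp_const, map_evT_TT] at h
  exact h

theorem act_diag_apply {R : Type} [CommRing R] (p : A →+* R) (u : Fin n → Rˣ) (a : A) :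
    α.act (diagG r u) p a = evT p u (theta α a) := by
  rw [act_diag]; rfl

theorem theta_counit (a : A) : (theta α a).coeff.sum (fun _ b => b) = a := by
  rw [← evT_one, ← act_diag_apply, diagG_one, α.one]
  rfl

theorem theta_co (a : A) (χ : Fin n → ℤ) :
    theta α ((theta α a).coeff χ) = single χ ((theta α a).coeff χ) := by
  have h := α.nat (singleZeroRingHom : TA n A →+* TA n (TA n A)) (diagG r (TT n A))
    singleZeroRingHom
  rw [map_diagG] at h
  rw [← coeff_evT_mul, ← act_diag_apply, diagG_mul, α.mul, h, act_diag_apply]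
  exact (coeff_evT_TT (theta α) (theta α a) χ).symm

theorem theta_wt (k : Root r) (i : ℕ) (χ : Fin n → ℤ) (a : A) (ha : theta α a = single χ a) :
    theta α ((tau α k a).coeff i) =
      single (χ + i • (Pi.single k.snd 1 - Pi.single k.fst 1)) ((tau α k a).coeff i) := by
  set p : A →+* (TA n A)[X] := (C : TA n A →+* (TA n A)[X]).comp singleZeroRingHom with hp
  set v : Fin n → ((TA n A)[X])ˣ := fun i =>
    Units.map ((C : TA n A →+* (TA n A)[X]) : TA n A →* (TA n A)[X]) (TT n A i) with hv
  have h := α.nat (C : TA n A →+* (TA n A)[X]) (diagG r (TT n A)) singleZeroRingHom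
  rw [map_diagG] at h
  set w : TA n A := (((TT n A k.fst)⁻¹ * TT n A k.snd : (TA n A)ˣ) : TA n A) with hw
  have hw2 : w = single (Pi.single k.snd 1 - Pi.single k.fst 1) 1 := by
    rw [hw, sub_eq_neg_add]
    have h1 : (((TT n A k.fst)⁻¹ : (TA n A)ˣ) : TA n A) = single (-Pi.single k.fst 1) 1 := rfl
    rw [Units.val_mul, h1]
    show _ * single (Pi.single k.snd 1) 1 = _
    rw [AddMonoidAlgebra.single_mul_single, one_mul]
  have h3 := diagG_mul_xel k v (C w * X)
  have h4 : (v k.fst : (TA n A)[X]) * (C w * X) *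
      (((v k.snd)⁻¹ : ((TA n A)[X])ˣ) : (TA n A)[X]) = X := by
    have h5 : (v k.fst : (TA n A)[X]) * C w = (v k.snd : (TA n A)[X]) := by
      show C (TT n A k.fst : TA n A) * C w = C (TT n A k.snd : TA n A)
      rw [← C_mul, hw, ← Units.val_mul, mul_inv_cancel_left]
    calc _ = (v k.fst : (TA n A)[X]) * C w * (((v k.snd)⁻¹ : ((TA n A)[X])ˣ) : (TA n A)[X]) * X := by
          ring
      _ = X := by rw [h5, Units.mul_inv, one_mul]
  rw [h4] at h3
  have h6 := congrArg (fun g => α.act g p a) h3
  simp only [α.mul] at h6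
  rw [h, act_xel_apply, act_diag_apply, ha, evT_single, act_xel_apply] at h6
  have h7 : eval₂ ((C : TA n A →+* (TA n A)[X]).comp (α.act (diagG r (TT n A)) singleZeroRingHom)) X
      (tau α k a) = (tau α k a).map (theta α) := rfl
  rw [h7, hv, chU_map, chU_TT] at h6
  have h8 := congrArg (fun f => f.coeff i) h6
  simp only [coeff_map] at h8
  rw [← h8]
  have h9 : ((Units.map ((C : TA n A →+* (TA n A)[X]) : TA n A →* (TA n A)[X])
    (sU n A (.ofAdd χ)) : ((TA n A)[X])ˣ) : (TA n A)[X]) = C (single χ 1) := rfl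
  have h10 : ∀ c : A, (singleZeroRingHom c : TA n A) = single 0 c := fun _ => rfl
  rw [h9, coeff_mul_C, hp, coeff_CmulX, h10, hw2, AddMonoidAlgebra.single_pow,
    AddMonoidAlgebra.single_mul_single, AddMonoidAlgebra.single_mul_single, one_pow, mul_one,
    mul_one, zero_add, add_comm]

/-! ### stable ideals, semi-invariants -/

theorem stab_tau {e : Ideal A} (he : α.Stable e) (k : Root r) (a : A) (ha : a ∈ e) (i : ℕ) :
    (tau α k a).coeff i ∈ e := by
  have h := he (xel k (X : (A ⧸ e)[X])) ((C : (A ⧸ e) →+* (A ⧸ e)[X]).comp (Ideal.Quotient.mk e))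
    (fun b hb => by
      rw [RingHom.comp_apply, Ideal.Quotient.eq_zero_iff_mem.2 hb, map_zero]) a ha
  rw [act_xel_apply] at h
  have h1 : eval₂ ((C : (A ⧸ e) →+* (A ⧸ e)[X]).comp (Ideal.Quotient.mk e)) X (tau α k a) =
      (tau α k a).map (Ideal.Quotient.mk e) := rfl
  rw [h1] at h
  have h2 := congrArg (fun f => f.coeff i) h
  simp only [coeff_map, coeff_zero] at h2
  exact Ideal.Quotient.eq_zero_iff_mem.1 h2

theorem stab_theta {e : Ideal A} (he : α.Stable e) (a : A) (ha : a ∈ e) (χ : Fin n → ℤ) :
    (theta α a).coeff χ ∈ e := by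
  have h := he (diagG r (TT n (A ⧸ e)))
    ((singleZeroRingHom : (A ⧸ e) →+* TA n (A ⧸ e)).comp (Ideal.Quotient.mk e))
    (fun b hb => by
      rw [RingHom.comp_apply, Ideal.Quotient.eq_zero_iff_mem.2 hb, map_zero]) a ha
  rw [act_diag_apply] at h
  have h2 := congrArg (fun f => f.coeff χ) h
  simp only [coeff_evT_TT] at h2
  exact Ideal.Quotient.eq_zero_iff_mem.1 h2

theorem semi_unit (hr : r.Antisymm) (f : A) (h1 : ∀ k : Root r, tau α k f = C f)
    (χ : Fin n → ℤ) (h2 : theta α f = single χ f) {R : Type} [CommRing R] (g : Gp r R) :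
    ∃ u : Rˣ, ∀ x : A →+* R, α.act g x f = u * x f := by
  let H : Subgroup (Gp r R) :=
    { carrier := {g | ∃ u : Rˣ, ∀ x : A →+* R, α.act g x f = u * x f}
      one_mem' := ⟨1, fun x => by rw [α.one, Units.val_one, one_mul]⟩
      mul_mem' := by
        rintro a b ⟨u, hu⟩ ⟨v, hv⟩
        exact ⟨u * v, fun x => by rw [α.mul, hu, hv, Units.val_mul, mul_assoc]⟩
      inv_mem' := by
        rintro a ⟨u, hu⟩
        refine ⟨u⁻¹, fun x => ?_⟩
        have h := hu (α.act a⁻¹ x)
        rw [← α.mul, mul_inv_cancel, α.one] at h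
        rw [h, Units.inv_mul_cancel_left] }
  have hH : H = ⊤ := by
    apply closure_eq_top hr H
    · intro u
      refine ⟨chU u (.ofAdd χ), fun x => ?_⟩
      rw [act_diag_apply, h2, evT_single, mul_comm]
    · intro k t
      refine ⟨1, fun x => ?_⟩
      rw [act_xel_apply, h1, eval₂_C, Units.val_one, one_mul]
  have hg : g ∈ H := hH ▸ Subgroup.mem_top g
  exact hg

end Coact

end G3

variable {n : ℕ} {r : Pre n} {A : Type} [CommRing A]

/-- the coactions attached to an action of `G_r`, `r` antisymmetric -/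
theorem exists_solvData (hr : r.Antisymm) (α : Act r A) : ∃ (N : ℕ) (s : SolvData A N n),
    (∀ e : Ideal A, α.Stable e → s.StabI e) ∧
    (∀ f : A, s.Semi f → ∀ {R : Type} [CommRing R] (g : Gp r R), ∃ u : Rˣ,
      ∀ x : A →+* R, α.act g x f = u * x f) := by
  obtain ⟨N, e, he⟩ := exists_list r
  let s : SolvData A N n :=
    { τ := fun k => ⟨G3.tau α (e k), G3.tau_coeff_zero α (e k), G3.tau_co α (e k)⟩
      θ := ⟨G3.theta α, G3.theta_counit α, G3.theta_co α⟩
      β := fun k => Pi.single (e k).snd 1 - Pi.single (e k).fst 1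
      comm := fun l k a ha i j => by
        refine G3.tau_comm α hr (e k) (e l) a (fun h hh => ?_) i j
        have h2 := ha (e.symm h) (he _ _ (by rw [Equiv.apply_symm_apply]; exact hh))
        simpa using h2
      wt := fun k i χ a ha => G3.theta_wt α (e k) i χ a ha }
  refine ⟨N, s, fun I hI => ⟨fun k a ha i => ?_, fun a ha χ => ?_⟩, fun f hf R _ g => ?_⟩
  · exact G3.stab_tau α hI (e k) a ha i
  · exact G3.stab_theta α hI a ha χ
  · obtain ⟨h1, χ, h2⟩ := hf
    refine G3.semi_unit α hr f (fun k => ?_) χ h2 g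
    have h3 := h1 (e.symm k)
    have h4 : (s.τ (e.symm k)).τ = G3.tau α k := by
      show G3.tau α (e (e.symm k)) = G3.tau α k
      rw [Equiv.apply_symm_apply]
    rw [h4] at h3
    exact h3

theorem gen_of_antisymm {P : Scheme.{0} → Prop} (hP : Rules P) (hr : r.Antisymm) : Gen P r := by
  intro A _ _ hA α L _ y hL hinj
  obtain ⟨N, s, hs1, hs2⟩ := exists_solvData hr α
  obtain ⟨f, hf0, hf, hf2⟩ := solvAbs hP hA s hL y (fun a ha h0 => by
    obtain ⟨u, hu⟩ := hs2 a ha (gam r L)
    have h := hu ((ιR r L).comp y)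
    rw [RingHom.comp_apply, h0, map_zero, mul_zero] at h
    exact hinj (h.trans (map_zero (α.orb y)).symm))
  refine ⟨Ideal.span {f}, fun h => hf0 (Ideal.span_singleton_eq_bot.1 h), ?_, fun e he1 he2 he3 =>
    hf2 e he1 he2 (hs1 e he3)⟩
  intro R _ g x hx a ha
  obtain ⟨c, rfl⟩ := Ideal.mem_span_singleton'.1 ha
  obtain ⟨u, hu⟩ := hs2 f hf g
  rw [map_mul, hu, hx f (Ideal.mem_span_singleton_self f), mul_zero, mul_zero]

end Pool.Agent.Helper72.OB
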