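import Pool.Agent.Helper72.OB.Hone
import Pool.Agent.Helper72.OB.Smo
import Pool.Agent.Helper72.OB.ProjAlg
import Pool.Agent.Helper72.OB.ProjSch
import Pool.Agent.Helper72.OB.SolvGrp

/-!
# Orbit theorem, block I: the generic statement for all preorders
-/

set_option autoImplicit false

namespace Pool.Agent.Helper72.OB

open AlgebraicGeometry CategoryTheory
open Pool.Agent.Helper65.Mor (Arithmetic ClosedOpen FGen)

theorem gen_of_cut {P : Scheme.{0} → Prop} (hP : Rules P) {n : ℕ} (r : Pre n) (o : Fin n)
    (h : Gen P (r.cut o)) : Gen P r := by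
  intro A _ _ hA α L _ y hL hy
  obtain ⟨I, hIp, hIs, hcore, d1, h1, h1s, h1P⟩ := exists_section (r.cut_le o) h hA α y hL hy
  obtain ⟨d2, h2, h2s, h2P⟩ := exists_smooth hA α
  obtain ⟨m, hm, pd, hinj, hpd⟩ := exists_projData o α I hIs hcore
  refine ⟨d1 * d2, ?_, h1s.mul h2s, ?_⟩
  · rw [Ne, Ideal.mul_eq_bot]
    tauto
  · intro e he hed hes
    obtain ⟨p, s, hp, hs⟩ := h2P e (hed.trans Ideal.mul_le_right)
    exact P_of_projData hP hA (hA.quot I) hm pd hinj e _ (hpd e hes) p s hp hs
      (h1P e he (hed.trans Ideal.mul_le_left) hes)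

theorem gen_all {P : Scheme.{0} → Prop} (hP : Rules P) {n : ℕ} (r : Pre n) : Gen P r := by
  classical
  induction hk : (Finset.univ.filter fun p : Fin n × Fin n => r.rel p.1 p.2).card using
    Nat.strong_induction_on generalizing r with
  | _ k ih =>
    by_cases hr : r.Antisymm
    · exact gen_of_antisymm hP hr
    · unfold Pre.Antisymm at hr
      push Not at hr
      obtain ⟨i, o, h1, h2, h3⟩ := hr
      refine gen_of_cut hP r o (ih _ ?_ (r.cut o) rfl)
      rw [← hk]
      apply Finset.card_lt_card
      rw [Finset.ssubset_iff_of_subset]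
      · refine ⟨(i, o), by simpa using h1, ?_⟩
        simp only [Finset.mem_filter, Finset.mem_univ, true_and]
        exact fun h4 => h4.2 ⟨rfl, h3, h2⟩
      · intro p hp
        simp only [Finset.mem_filter, Finset.mem_univ, true_and] at hp ⊢
        exact hp.1

end Pool.Agent.Helper72.OB
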