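import Pool.Agent.Helper72.OB.Aff
import Pool.Agent.Helper72.OB.Ind

/-!
# Orbit theorem, block J: stable opens of projective schemes
-/

set_option autoImplicit false

namespace Pool.Agent.Helper72.OB

open AlgebraicGeometry CategoryTheory
open Pool.Agent.Helper65.Mor (Arithmetic ClosedOpen FGen)

/-- the action commutes with scaling -/
def Act.Graded {n : ℕ} {r : Pre n} {S : Type} [CommRing S] (𝒮 : ℕ → AddSubgroup S)
    (α : Act r S) : Prop :=
  ∀ {R : Type} [CommRing R] (g : Gp r R) (u : Rˣ) (x x' : S →+* R),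
    (∀ d, ∀ s ∈ 𝒮 d, x' s = u ^ d * x s) → ∀ d, ∀ s ∈ 𝒮 d, α.act g x' s = u ^ d * α.act g x s

section Plus

variable {n : ℕ} (r : Pre n)

/-- the preorder on `n + 1` elements, the last one of which is isolated -/
def Pre.plus : Pre (n + 1) where
  rel i j := (i = Fin.last n ∧ j = Fin.last n) ∨
    ∃ i' j' : Fin n, i = i'.castSucc ∧ j = j'.castSucc ∧ r.rel i' j'
  refl i := by
    refine Fin.lastCases ?_ (fun i' => ?_) i
    · exact Or.inl ⟨rfl, rfl⟩
    · exact Or.inr ⟨i', i', rfl, rfl, r.refl i'⟩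
  trans {i j k} h1 h2 := by
    rcases h1 with ⟨rfl, rfl⟩ | ⟨i', j', rfl, rfl, h1⟩
    · rcases h2 with ⟨_, rfl⟩ | ⟨j'', k', hj, rfl, h2⟩
      · exact Or.inl ⟨rfl, rfl⟩
      · exact absurd hj.symm (Fin.castSucc_lt_last j'').ne
    · rcases h2 with ⟨hj, rfl⟩ | ⟨j'', k', hj, rfl, h2⟩
      · exact absurd hj (Fin.castSucc_lt_last j').ne
      · obtain rfl := Fin.castSucc_injective n hj
        exact Or.inr ⟨i', k', rfl, rfl, r.trans h1 h2⟩

theorem Pre.plus_last_castSucc (j : Fin n) : ¬ r.plus.rel (Fin.last n) j.castSucc := by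
  rintro (⟨_, h⟩ | ⟨i', j', h, -, -⟩)
  · exact (Fin.castSucc_lt_last j).ne h
  · exact (Fin.castSucc_lt_last i').ne h.symm

theorem Pre.plus_castSucc_last (i : Fin n) : ¬ r.plus.rel i.castSucc (Fin.last n) := by
  rintro (⟨h, _⟩ | ⟨i', j', -, h, -⟩)
  · exact (Fin.castSucc_lt_last i).ne h
  · exact (Fin.castSucc_lt_last j').ne h.symm

theorem Pre.plus_castSucc_castSucc (i j : Fin n) (h : ¬ r.rel i j) :
    ¬ r.plus.rel i.castSucc j.castSucc := by
  rintro (⟨h1, _⟩ | ⟨i', j', h1, h2, h3⟩)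
  · exact (Fin.castSucc_lt_last i).ne h1
  · obtain rfl := Fin.castSucc_injective n h1
    obtain rfl := Fin.castSucc_injective n h2
    exact h h3

variable {R : Type} [CommRing R]

/-- the upper left block -/
def ul (M : Matrix (Fin (n + 1)) (Fin (n + 1)) R) : Matrix (Fin n) (Fin n) R :=
  fun i j => M i.castSucc j.castSucc

theorem ul_one : ul (1 : Matrix (Fin (n + 1)) (Fin (n + 1)) R) = 1 := by
  ext i j
  simp [ul, Matrix.one_apply]

theorem ul_mul {M N : Matrix (Fin (n + 1)) (Fin (n + 1)) R} (hM : Supp r.plus M) :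
    ul (M * N) = ul M * ul N := by
  ext i j
  have h : M i.castSucc (Fin.last n) = 0 := hM _ _ (r.plus_castSucc_last i)
  simp [ul, Matrix.mul_apply, Fin.sum_univ_castSucc, h]

theorem last_mul {M N : Matrix (Fin (n + 1)) (Fin (n + 1)) R} (hM : Supp r.plus M) :
    (M * N) (Fin.last n) (Fin.last n) = M (Fin.last n) (Fin.last n) * N (Fin.last n) (Fin.last n)
    := by
  have h : ∀ i : Fin n, M (Fin.last n) i.castSucc = 0 := fun i => hM _ _ (r.plus_last_castSucc i)
  simp [Matrix.mul_apply, Fin.sum_univ_castSucc, h]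

theorem supp_val {m : ℕ} {r : Pre m} (g : Gp r R) : Supp r g.1.1 := fun i j h => (g.2 i j h).1

theorem supp_inv {m : ℕ} {r : Pre m} (g : Gp r R) : Supp r g.1⁻¹.1 := fun i j h => (g.2 i j h).2

/-- the projection to `G_r` -/
def pg : Gp r.plus R →* Gp r R where
  toFun g := ⟨⟨ul g.1.1, ul g.1⁻¹.1, by
      rw [← ul_mul r (supp_val g), g.1.mul_inv, ul_one], by
      rw [← ul_mul r (supp_inv g), g.1.inv_mul, ul_one]⟩, fun i j h =>
    ⟨(g.2 _ _ (r.plus_castSucc_castSucc i j h)).1, (g.2 _ _ (r.plus_castSucc_castSucc i j h)).2⟩⟩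
  map_one' := Subtype.ext (Units.ext ul_one)
  map_mul' g h := Subtype.ext (Units.ext (ul_mul r (supp_val g)))

/-- the projection to the multiplicative group -/
def pu : Gp r.plus R →* Rˣ where
  toFun g := ⟨g.1.1 (Fin.last n) (Fin.last n), g.1⁻¹.1 (Fin.last n) (Fin.last n), by
      rw [← last_mul r (supp_val g), g.1.mul_inv, Matrix.one_apply_eq], by
      rw [← last_mul r (supp_inv g), g.1.inv_mul, Matrix.one_apply_eq]⟩
  map_one' := Units.ext (Matrix.one_apply_eq _)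
  map_mul' g h := Units.ext (last_mul r (supp_val g))

theorem pg_map {R' : Type} [CommRing R'] (f : R →+* R') (g : Gp r.plus R) :
    pg r (Gp.map r.plus f g) = Gp.map r f (pg r g) := Subtype.ext (Units.ext rfl)

theorem pu_map {R' : Type} [CommRing R'] (f : R →+* R') (g : Gp r.plus R) :
    pu r (Gp.map r.plus f g) = Units.map f (pu r g) := Units.ext rfl

/-- block diagonal matrices -/
def blk (M : Matrix (Fin n) (Fin n) R) (u : R) : Matrix (Fin (n + 1)) (Fin (n + 1)) R :=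
  fun i j => Fin.lastCases (Fin.lastCases u (fun _ => 0) j)
    (fun i' => Fin.lastCases 0 (fun j' => M i' j') j) i

theorem blk_cc (M : Matrix (Fin n) (Fin n) R) (u : R) (i j : Fin n) :
    blk M u i.castSucc j.castSucc = M i j := by simp [blk]

theorem blk_ll (M : Matrix (Fin n) (Fin n) R) (u : R) :
    blk M u (Fin.last n) (Fin.last n) = u := by simp [blk]

theorem blk_cl (M : Matrix (Fin n) (Fin n) R) (u : R) (i : Fin n) :
    blk M u i.castSucc (Fin.last n) = 0 := by simp [blk]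

theorem blk_lc (M : Matrix (Fin n) (Fin n) R) (u : R) (j : Fin n) :
    blk M u (Fin.last n) j.castSucc = 0 := by simp [blk]

theorem blk_mul (M N : Matrix (Fin n) (Fin n) R) (u v : R) :
    blk M u * blk N v = blk (M * N) (u * v) := by
  ext i j
  rw [Matrix.mul_apply, Fin.sum_univ_castSucc]
  refine Fin.lastCases ?_ (fun i' => ?_) i <;> refine Fin.lastCases ?_ (fun j' => ?_) j <;>
    simp [blk_cc, blk_ll, blk_cl, blk_lc, Matrix.mul_apply]

theorem blk_one : blk (1 : Matrix (Fin n) (Fin n) R) 1 = 1 := by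
  ext i j
  refine Fin.lastCases ?_ (fun i' => ?_) i <;> refine Fin.lastCases ?_ (fun j' => ?_) j
  · simp [blk_ll]
  · rw [blk_lc, Matrix.one_apply_ne (Fin.castSucc_lt_last j').ne']
  · rw [blk_cl, Matrix.one_apply_ne (Fin.castSucc_lt_last i').ne]
  · simp [blk_cc, Matrix.one_apply]

theorem blk_supp {M : Matrix (Fin n) (Fin n) R} (hM : Supp r M) (u : R) :
    Supp r.plus (blk M u) := by
  intro i j
  refine Fin.lastCases ?_ (fun i' => ?_) i <;> refine Fin.lastCases ?_ (fun j' => ?_) j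
  · exact fun h => absurd (Or.inl ⟨rfl, rfl⟩) h
  · exact fun _ => blk_lc M u j'
  · exact fun _ => blk_cl M u i'
  · intro h
    rw [blk_cc]
    exact hM _ _ fun h' => h (Or.inr ⟨i', j', rfl, rfl, h'⟩)

/-- the element of `G_{r⁺}` with given components -/
def sec (g : Gp r R) (u : Rˣ) : Gp r.plus R :=
  ⟨⟨blk g.1.1 u, blk g.1⁻¹.1 (u⁻¹ : Rˣ), by
      rw [blk_mul, g.1.mul_inv, u.mul_inv, blk_one], by
      rw [blk_mul, g.1.inv_mul, u.inv_mul, blk_one]⟩,
    fun i j h => ⟨blk_supp r (supp_val g) _ i j h, blk_supp r (supp_inv g) _ i j h⟩⟩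

theorem pg_sec (g : Gp r R) (u : Rˣ) : pg r (sec r g u) = g := by
  refine Subtype.ext (Units.ext ?_)
  ext i j
  exact blk_cc _ _ _ _

theorem pu_sec (g : Gp r R) (u : Rˣ) : pu r (sec r g u) = u := Units.ext (blk_ll _ _)

end Plus

section Scal

variable {S : Type} [CommRing S] (𝒮 : ℕ → AddSubgroup S) [GradedRing 𝒮]

/-- scaling of points: the additive maps on the homogeneous components -/
def scalF {R : Type} [CommRing R] (u : R) (x : S →+* R) (d : ℕ) : 𝒮 d →+ R :=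
  ((AddMonoidHom.mulLeft (u ^ d)).comp x.toAddMonoidHom).comp (𝒮 d).subtype

omit [GradedRing 𝒮] in
theorem scalF_apply {R : Type} [CommRing R] (u : R) (x : S →+* R) (d : ℕ) (s : 𝒮 d) :
    scalF 𝒮 u x d s = u ^ d * x s := rfl

/-- scaling of points -/
def scal {R : Type} [CommRing R] (u : R) (x : S →+* R) : S →+* R :=
  (DirectSum.toSemiring (scalF 𝒮 u x)
    (by rw [scalF_apply, pow_zero, one_mul]; exact map_one x)
    (fun {i j} a b => by
      rw [scalF_apply, scalF_apply, scalF_apply, SetLike.coe_gMul, map_mul, pow_add]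
      ring)).comp (DirectSum.decomposeRingEquiv 𝒮).toRingHom

theorem scal_apply {R : Type} [CommRing R] (u : R) (x : S →+* R) {d : ℕ} {s : S} (hs : s ∈ 𝒮 d) :
    scal 𝒮 u x s = u ^ d * x s := by
  have h1 : (DirectSum.decomposeRingEquiv 𝒮).toRingHom s = DirectSum.of (fun i => 𝒮 i) d ⟨s, hs⟩ :=
    DirectSum.decompose_of_mem 𝒮 hs
  rw [scal, RingHom.comp_apply, h1, DirectSum.toSemiring_of]
  rfl

theorem hom_ext {R : Type} [CommRing R] {f f' : S →+* R} (h : ∀ d, ∀ s ∈ 𝒮 d, f s = f' s) :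
    f = f' := by
  ext s
  refine DirectSum.Decomposition.inductionOn 𝒮 ?_ (fun {i} m => h i _ m.2) (fun a b ha hb => ?_) s
  · rw [map_zero, map_zero]
  · rw [map_add, map_add, ha, hb]

theorem scal_one {R : Type} [CommRing R] (x : S →+* R) : scal 𝒮 1 x = x :=
  hom_ext 𝒮 fun d s hs => by rw [scal_apply 𝒮 _ _ hs, one_pow, one_mul]

theorem scal_mul {R : Type} [CommRing R] (u v : R) (x : S →+* R) :
    scal 𝒮 (u * v) x = scal 𝒮 u (scal 𝒮 v x) :=
  hom_ext 𝒮 fun d s hs => by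
    rw [scal_apply 𝒮 _ _ hs, scal_apply 𝒮 _ _ hs, scal_apply 𝒮 _ _ hs, mul_pow, mul_assoc]

theorem comp_scal {R R' : Type} [CommRing R] [CommRing R'] (f : R →+* R') (u : R) (x : S →+* R) :
    f.comp (scal 𝒮 u x) = scal 𝒮 (f u) (f.comp x) :=
  hom_ext 𝒮 fun d s hs => by
    rw [RingHom.comp_apply, scal_apply 𝒮 _ _ hs, scal_apply 𝒮 _ _ hs, map_mul, map_pow,
      RingHom.comp_apply]

theorem act_scal {n : ℕ} {r : Pre n} {α : Act r S} (hα : α.Graded 𝒮) {R : Type} [CommRing R]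
    (g : Gp r R) (u : Rˣ) (x : S →+* R) :
    α.act g (scal 𝒮 (u : R) x) = scal 𝒮 (u : R) (α.act g x) :=
  hom_ext 𝒮 fun d s hs => by
    rw [scal_apply 𝒮 _ _ hs]
    exact hα g u x _ (fun d s hs => scal_apply 𝒮 _ _ hs) d s hs

/-- the action of `G_r × G_m` -/
def Act.plus {n : ℕ} {r : Pre n} (α : Act r S) (hα : α.Graded 𝒮) : Act r.plus S where
  act g x := scal 𝒮 (pu r g) (α.act (pg r g) x)
  one x := by rw [map_one, map_one, α.one, Units.val_one, scal_one]
  mul g h x := by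
    rw [map_mul, map_mul, α.mul, Units.val_mul, scal_mul, act_scal 𝒮 hα]
  nat f g x := by
    rw [pg_map, pu_map, α.nat, comp_scal]
    rfl

theorem scal_kill {c : Ideal S} (hc : c.IsHomogeneous 𝒮) {R : Type} [CommRing R] (u : R)
    {x : S →+* R} (hx : ∀ a ∈ c, x a = 0) (a : S) (ha : a ∈ c) : scal 𝒮 u x a = 0 := by
  classical
  rw [← DirectSum.sum_support_decompose 𝒮 a, map_sum]
  refine Finset.sum_eq_zero fun d _ => ?_
  rw [scal_apply 𝒮 u x (SetLike.coe_mem _), hx _ (hc d ha), mul_zero]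

theorem plus_stable {n : ℕ} {r : Pre n} {α : Act r S} (hα : α.Graded 𝒮) {c : Ideal S}
    (hc : c.IsHomogeneous 𝒮) (hcs : α.Stable c) : (α.plus 𝒮 hα).Stable c :=
  fun _ _ hx a ha => scal_kill 𝒮 hc _ (hcs _ _ hx) a ha

theorem span_stable {n : ℕ} {r : Pre n} {α : Act r S} (hα : α.Graded 𝒮) (hS : Std 𝒮) :
    (α.plus 𝒮 hα).Stable (Ideal.span (𝒮 1 : Set S)) := by
  intro R _ g x hx
  have hx1 : ∀ s ∈ 𝒮 1, x s = 0 := fun s hs => hx s (Ideal.subset_span hs)
  let ι : R →+* LaurentPolynomial R := LaurentPolynomial.C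
  let T : (LaurentPolynomial R)ˣ := ⟨LaurentPolynomial.T 1, LaurentPolynomial.T (-1), by
    rw [← LaurentPolynomial.T_add]; rfl, by rw [← LaurentPolynomial.T_add]; rfl⟩
  have h1 : scal 𝒮 (T : LaurentPolynomial R) (ι.comp x) = ι.comp x := by
    refine RingHom.eq_of_eqOn_set_dense hS.gen ?_
    rintro s (hs | hs)
    · rw [scal_apply 𝒮 _ _ hs, pow_zero, one_mul]
    · rw [scal_apply 𝒮 _ _ hs, RingHom.comp_apply, hx1 s hs, map_zero, mul_zero]
  have h2 := act_scal 𝒮 hα (Gp.map r ι (pg r g)) T (ι.comp x)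
  rw [h1, α.nat] at h2
  have h3 : ∀ s ∈ 𝒮 1, α.act (pg r g) x s = 0 := by
    intro s hs
    have h4 := congrArg (fun f => f s) h2
    simp only [scal_apply 𝒮 _ _ hs, RingHom.comp_apply, pow_one] at h4
    have h5 : ι (α.act (pg r g) x s) =
        (LaurentPolynomial.T 1 : LaurentPolynomial R) * ι (α.act (pg r g) x s) := h4
    have h6 : (LaurentPolynomial.C (α.act (pg r g) x s) : LaurentPolynomial R) =
        .single 1 (α.act (pg r g) x s) := by
      rw [LaurentPolynomial.single_eq_C_mul_T, ← LaurentPolynomial.T_mul]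
      exact h5
    have h7 := congrArg (fun p : LaurentPolynomial R => p.coeff 0) h6
    simp only [LaurentPolynomial.C_apply, if_true, AddMonoidAlgebra.coeff_single] at h7
    rw [h7]
    exact Finsupp.single_eq_of_ne (by decide)
  intro a ha
  have h8 : Ideal.span (𝒮 1 : Set S) ≤ RingHom.ker ((α.plus 𝒮 hα).act g x) := by
    rw [Ideal.span_le]
    intro s hs
    rw [SetLike.mem_coe, RingHom.mem_ker]
    show scal 𝒮 _ (α.act (pg r g) x) s = 0
    rw [scal_apply 𝒮 _ _ hs, h3 s hs, mul_zero]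
  exact h8 ha

end Scal

theorem final {P : Scheme.{0} → Prop} (hP : Rules P) {n : ℕ} (r : Pre n) {S : Type} [CommRing S]
    (𝒮 : ℕ → AddSubgroup S) [GradedRing 𝒮] (hS : Std 𝒮) (α : Act r S) (hα : α.Graded 𝒮)
    (c : Ideal S) (hc : c.IsHomogeneous 𝒮) (hcs : α.Stable c)
    {R : Type} [CommRing R] (hR : FGen R) (hdim : ringKrullDim R ≤ 1) (y : S →+* R)
    (h : ∀ (Ω : Type) [Field Ω] [IsAlgClosed Ω] (x : S →+* Ω), (∃ a ∈ c, x a ≠ 0) →
      (∃ a ∈ 𝒮 1, x a ≠ 0) → ∃ (z : R →+* Ω) (g : Gp r Ω) (u : Ωˣ),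
        ∀ d, ∀ s ∈ 𝒮 d, x s = u ^ d * α.act g (z.comp y) s) :
    P (projOpen 𝒮 c).toScheme := by
  have hst1 : (α.plus 𝒮 hα).Stable c := plus_stable 𝒮 hα hc hcs
  have hst2 : (α.plus 𝒮 hα).Stable (Ideal.span (𝒮 1 : Set S)) := span_stable 𝒮 hα hS
  have hst : (α.plus 𝒮 hα).Stable (c * Ideal.span (𝒮 1 : Set S)) := Act.Stable.mul hst1 hst2
  refine hP.cone S 𝒮 c hS hc (aff hP (gen_all hP r.plus) hS.fg (α.plus 𝒮 hα) _
    hst hR hdim y ?_)
  intro Ω _ _ x ⟨a, ha, hxa⟩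
  have ha1 : a ∈ c := Ideal.mul_le_left (I := c) (J := Ideal.span (𝒮 1 : Set S)) ha
  have ha2 : a ∈ Ideal.span (𝒮 1 : Set S) :=
    Ideal.mul_le_right (I := c) (J := Ideal.span (𝒮 1 : Set S)) ha
  have h1 : ∃ a ∈ c, x a ≠ 0 := ⟨a, ha1, hxa⟩
  have h3 : ∃ a ∈ 𝒮 1, x a ≠ 0 := by
    by_contra h2
    push Not at h2
    have h4 : Ideal.span (𝒮 1 : Set S) ≤ RingHom.ker x := by
      rw [Ideal.span_le]
      exact fun b hb => RingHom.mem_ker.2 (h2 b hb)
    exact hxa (RingHom.mem_ker.1 (h4 ha2))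
  obtain ⟨z, g, u, hz⟩ := h Ω x h1 h3
  refine ⟨z, sec r g u, hom_ext 𝒮 fun d s hs => ?_⟩
  show x s = scal 𝒮 _ (α.act (pg r (sec r g u)) (z.comp y)) s
  rw [scal_apply 𝒮 _ _ hs, pg_sec, pu_sec]
  exact hz d s hs

end Pool.Agent.Helper72.OB
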