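import Pool.Agent.Helper72.OB.Stab
import Pool.Agent.Helper9.RS.KD2

/-!
# Orbit theorem, block H1: a section of the orbit for a smaller group
-/

set_option autoImplicit false

namespace Pool.Agent.Helper72.OB

open AlgebraicGeometry CategoryTheory
open Pool.Agent.Helper65.Mor (Arithmetic ClosedOpen FGen)
open Pool.Agent.Helper9.RS (Kron)

/-- two domains containing a common domain map to a common field -/
private theorem common30 {A B C : Type} [CommRing A] [IsDomain A] [CommRing B] [IsDomain B]
    [CommRing C] [IsDomain C] (f : A →+* B) (hf : Function.Injective f) (g : A →+* C)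
    (hg : Function.Injective g) :
    ∃ (Ω : Type) (_ : Field Ω) (u : B →+* Ω) (v : C →+* Ω), u.comp f = v.comp g := by
  have h1 : Function.Injective ((algebraMap B (FractionRing B)).comp f) :=
    (IsFractionRing.injective B (FractionRing B)).comp hf
  have h2 : Function.Injective ((algebraMap C (FractionRing C)).comp g) :=
    (IsFractionRing.injective C (FractionRing C)).comp hg
  let F : FractionRing A →+* FractionRing B := IsFractionRing.lift h1
  let G : FractionRing A →+* FractionRing C := IsFractionRing.lift h2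
  let _ : Algebra (FractionRing A) (FractionRing B) := F.toAlgebra
  let _ : Algebra (FractionRing A) (FractionRing C) := G.toAlgebra
  have hinj : Function.Injective (Algebra.TensorProduct.includeLeft :
      FractionRing B →ₐ[FractionRing A] TensorProduct (FractionRing A) (FractionRing B) (FractionRing C)) :=
    Algebra.TensorProduct.includeLeft_injective (algebraMap (FractionRing A) (FractionRing C)).injective
  have hnt : Nontrivial (TensorProduct (FractionRing A) (FractionRing B) (FractionRing C)) :=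
    hinj.nontrivial
  obtain ⟨m, hm⟩ := Ideal.exists_maximal (TensorProduct (FractionRing A) (FractionRing B) (FractionRing C))
  let _ : Field (TensorProduct (FractionRing A) (FractionRing B) (FractionRing C) ⧸ m) :=
    Ideal.Quotient.field m
  refine ⟨TensorProduct (FractionRing A) (FractionRing B) (FractionRing C) ⧸ m, inferInstance,
    ((Ideal.Quotient.mk m).comp (Algebra.TensorProduct.includeLeft :
      FractionRing B →ₐ[FractionRing A] TensorProduct (FractionRing A) (FractionRing B) (FractionRing C)).toRingHom).comp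
      (algebraMap B (FractionRing B)),
    ((Ideal.Quotient.mk m).comp (Algebra.TensorProduct.includeRight :
      FractionRing C →ₐ[FractionRing A] TensorProduct (FractionRing A) (FractionRing B) (FractionRing C)).toRingHom).comp
      (algebraMap C (FractionRing C)), ?_⟩
  ext a
  have e1 : algebraMap B (FractionRing B) (f a) =
      algebraMap (FractionRing A) (FractionRing B) (algebraMap A (FractionRing A) a) :=
    (IsFractionRing.lift_algebraMap h1 a).symm
  have e2 : algebraMap C (FractionRing C) (g a) =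
      algebraMap (FractionRing A) (FractionRing C) (algebraMap A (FractionRing A) a) :=
    (IsFractionRing.lift_algebraMap h2 a).symm
  simp only [RingHom.comp_apply, AlgHom.toRingHom_eq_coe, RingHom.coe_coe]
  rw [e1, e2, AlgHom.commutes, AlgHom.commutes]

/-- the structure map of the coordinate ring is of finite type -/
private theorem finiteType_ι30 {n : ℕ} (r : Pre n) (A : Type) [CommRing A] : (ιR r A).FiniteType := by
  refine RingHom.FiniteType.comp (RingHom.finiteType_algebraMap.2 inferInstance) ?_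
  rw [← MvPolynomial.algebraMap_eq]
  exact RingHom.finiteType_algebraMap.2 inferInstance

/-- a field of finite type over a small field is small -/
private theorem kron_finiteType30 {L L' : Type} [Field L] [Field L'] (φ : L →+* L')
    (h : φ.FiniteType) (hL : Kron 0 L) : Kron 0 L' := by
  let _ : Algebra L L' := φ.toAlgebra
  have h1 : Algebra.FiniteType L L' := h
  have h2 : Module.Finite L L' := finite_of_finite_type_of_isJacobsonRing L L'
  exact Pool.Agent.Helper9.RS.kron_algebraic (Algebra.IsAlgebraic.of_finite L L') hL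

section

variable {n : ℕ} {r : Pre n} {A : Type} [CommRing A] (α : Act r A)

/-- functoriality of orbit maps -/
private theorem orb_comp30 {R R' : Type} [CommRing R] [CommRing R'] (y : A →+* R) (f : R →+* R') :
    (RRmap r f).comp (α.orb y) = α.orb (f.comp y) := by
  rw [RRmap, α.ev_orb]
  rfl

/-- a homomorphism from the coordinate ring evaluates orbit maps -/
private theorem comp_orb30 {R R' : Type} [CommRing R] [CommRing R'] (y : A →+* R) (f : RR r R →+* R') :
    f.comp (α.orb y) = α.act (Gp.map r f (gam r R)) ((f.comp (ιR r R)).comp y) := by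
  conv_lhs => rw [eq_ev r f]
  rw [α.ev_orb]

/-- the kernel of the orbit map is contained in the kernel of the point -/
private theorem ker_orb_le30 {R : Type} [CommRing R] (y : A →+* R) :
    RingHom.ker (α.orb y) ≤ RingHom.ker y := by
  intro a ha
  rw [RingHom.mem_ker] at ha ⊢
  have h1 := congrArg (fun f => f a) (α.ev_orb y (RingHom.id R) 1)
  simp only [RingHom.comp_apply, ha, map_zero] at h1
  rw [α.one] at h1
  exact h1.symm

/-- a stable ideal in the kernel of a point is in the kernel of the orbit map -/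
private theorem le_ker_orb30 {R : Type} [CommRing R] {y : A →+* R} {J : Ideal A} (hJ : α.Stable J)
    (h : ∀ a ∈ J, y a = 0) : ∀ a ∈ J, α.orb y a = 0 :=
  hJ (gam r R) ((ιR r R).comp y) fun a ha => by rw [RingHom.comp_apply, h a ha, map_zero]

end

private theorem prod_le_prod30 {A : Type} [CommRing A] (s : Finset (Ideal A)) (f : Ideal A → Ideal A)
    (h : ∀ p ∈ s, f p ≤ p) : ∏ p ∈ s, f p ≤ ∏ p ∈ s, p := by
  classical
  induction s using Finset.induction_on with
  | empty => simp
  | insert a s ha ih =>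
    rw [Finset.prod_insert ha, Finset.prod_insert ha]
    exact Ideal.mul_mono (h a (Finset.mem_insert_self _ _))
      (ih fun p hp => h p (Finset.mem_insert_of_mem hp))

private theorem prod_ne_bot30 {A : Type} [CommRing A] [IsDomain A] (s : Finset (Ideal A))
    (f : Ideal A → Ideal A) (h : ∀ p ∈ s, f p ≠ ⊥) : ∏ p ∈ s, f p ≠ ⊥ := by
  classical
  induction s using Finset.induction_on with
  | empty =>
    rw [Finset.prod_empty, Ideal.one_eq_top]
    exact top_ne_bot
  | insert a s ha ih =>
    rw [Finset.prod_insert ha, Ne, Ideal.mul_eq_bot, not_or]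
    exact ⟨h a (Finset.mem_insert_self _ _), ih fun p hp => h p (Finset.mem_insert_of_mem hp)⟩

theorem exists_section {P : Scheme.{0} → Prop} {n : ℕ} {r' r : Pre n}
    (hle : ∀ i j, r'.rel i j → r.rel i j) (hGen : Gen P r') {A : Type} [CommRing A] [IsDomain A]
    (hA : FGen A) (α : Act r A) {L : Type} [Field L] (y : A →+* L) (hL : Kron 0 L)
    (hy : Function.Injective (α.orb y)) :
    ∃ I : Ideal A, I.IsPrime ∧ (α.restr hle).Stable I ∧ α.core I = ⊥ ∧
      ∃ d : Ideal A, d ≠ ⊥ ∧ α.Stable d ∧ ∀ e : Ideal A, e ≠ ⊥ → e ≤ d → α.Stable e →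
        P (DD (e.map (Ideal.Quotient.mk I))).toScheme := by
  classical
  have hnoeth : IsNoetherianRing A := by
    have hA' : Algebra.FiniteType ℤ A := by
      have h1 : (algebraMap ℤ A).FiniteType := hA
      exact RingHom.finiteType_algebraMap.1 h1
    exact Algebra.FiniteType.isNoetherianRing ℤ A
  -- a maximal member of the set of primes
  obtain ⟨I, ⟨hIp, hIs, hIc⟩, hmax⟩ : ∃ I : Ideal A,
      (I.IsPrime ∧ (α.restr hle).Stable I ∧ α.core I = ⊥) ∧
      ∀ J : Ideal A, (J.IsPrime ∧ (α.restr hle).Stable J ∧ α.core J = ⊥) → ¬ I < J := by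
    obtain ⟨I, h1, h2⟩ := set_has_maximal_iff_noetherian.2 hnoeth
      {I : Ideal A | I.IsPrime ∧ (α.restr hle).Stable I ∧ α.core I = ⊥}
      ⟨⊥, Ideal.isPrime_bot, (α.restr hle).stable_bot, le_bot_iff.1 (α.core_le ⊥)⟩
    exact ⟨I, h1, fun J hJ => h2 J hJ⟩
  have hmax' : ∀ J : Ideal A, J.IsPrime → (α.restr hle).Stable J → α.core J = ⊥ → I ≤ J → J ≤ I := by
    intro J h1 h2 h3 h4
    by_contra h5
    exact hmax J ⟨h1, h2, h3⟩ (lt_of_le_not_ge h4 h5)
  have hDdom : IsDomain (A ⧸ I) := Ideal.Quotient.isDomain I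
  have hRD : IsDomain (RR r (A ⧸ I)) := isDomain_RR r _
  have hRL : IsDomain (RR r L) := isDomain_RR r _
  have hinj1 : Function.Injective (α.orb (Ideal.Quotient.mk I)) := by
    rw [RingHom.injective_iff_ker_eq_bot]
    exact hIc
  -- a common field
  obtain ⟨Ω, _, u, v, huv⟩ := common30 _ hinj1 _ hy
  rw [comp_orb30, comp_orb30] at huv
  -- the ideal generated by the image of `I` is proper
  have hproper : I.map (α.orb y) ≠ ⊤ := by
    intro htop
    obtain ⟨g, hg⟩ : ∃ g : Gp r Ω, g = (Gp.map r u (gam r (A ⧸ I)))⁻¹ * Gp.map r v (gam r L) := ⟨_, rfl⟩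
    have h1 : α.act g ((v.comp (ιR r L)).comp y) =
        (u.comp (ιR r (A ⧸ I))).comp (Ideal.Quotient.mk I) := by
      rw [hg, α.mul, ← huv, ← α.mul, inv_mul_cancel, α.one]
    have h2 : I.map (α.orb y) ≤ RingHom.ker (ev r (v.comp (ιR r L)) g) := by
      rw [Ideal.map_le_iff_le_comap]
      intro a ha
      rw [Ideal.mem_comap, RingHom.mem_ker]
      have h3 := congrArg (fun f => f a) (α.ev_orb y (v.comp (ιR r L)) g)
      simp only [RingHom.comp_apply] at h3
      rw [h3]
      have h4 := congrArg (fun f => f a) h1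
      simp only [RingHom.comp_apply, Ideal.Quotient.eq_zero_iff_mem.2 ha, map_zero] at h4
      exact h4
    rw [htop, top_le_iff] at h2
    exact RingHom.ker_ne_top _ h2
  obtain ⟨M, hM, hIM⟩ := Ideal.exists_le_maximal _ hproper
  let _ : Field (RR r L ⧸ M) := Ideal.Quotient.field M
  obtain ⟨φ, hφ⟩ : ∃ φ : L →+* RR r L ⧸ M, φ = (Ideal.Quotient.mk M).comp (ιR r L) := ⟨_, rfl⟩
  obtain ⟨y', hy'⟩ : ∃ y' : A →+* RR r L ⧸ M, y' = (Ideal.Quotient.mk M).comp (α.orb y) := ⟨_, rfl⟩
  obtain ⟨g', hg'⟩ : ∃ g' : Gp r (RR r L ⧸ M), g' = Gp.map r (Ideal.Quotient.mk M) (gam r L) :=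
    ⟨_, rfl⟩
  have hy'g : y' = α.act g' (φ.comp y) := by rw [hy', hg', hφ, comp_orb30]
  have hφy : φ.comp y = α.act g'⁻¹ y' := by rw [hy'g, ← α.mul, inv_mul_cancel, α.one]
  have hy'I : ∀ a ∈ I, y' a = 0 := by
    intro a ha
    rw [hy', RingHom.comp_apply, Ideal.Quotient.eq_zero_iff_mem]
    exact hIM (Ideal.mem_map_of_mem _ ha)
  have hKron : Kron 0 (RR r L ⧸ M) := by
    have hft : φ.FiniteType := by
      rw [hφ]
      exact (RingHom.FiniteType.of_surjective _ Ideal.Quotient.mk_surjective).comp (finiteType_ι30 r L)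
    exact kron_finiteType30 φ hft hL
  -- the kernel of the orbit map of the smaller group
  obtain ⟨I', hI'⟩ : ∃ I' : Ideal A, I' = RingHom.ker ((α.restr hle).orb y') := ⟨_, rfl⟩
  have hI'p : I'.IsPrime := by
    have : IsDomain (RR r' (RR r L ⧸ M)) := isDomain_RR r' _
    rw [hI']
    exact RingHom.ker_isPrime _
  have hI's : (α.restr hle).Stable I' := by
    rw [hI']
    exact (α.restr hle).ker_orb_stable y'
  have hII' : I ≤ I' := by
    intro a ha
    rw [hI', RingHom.mem_ker]
    exact le_ker_orb30 (α.restr hle) hIs hy'I a ha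
  have hI'k : I' ≤ RingHom.ker y' := by
    rw [hI']
    exact ker_orb_le30 _ y'
  have hI'c : α.core I' = ⊥ := by
    rw [eq_bot_iff]
    intro a ha
    have hJ : α.Stable (α.core I') := α.core_stable I'
    have h1 : ∀ b ∈ α.core I', y' b = 0 := fun b hb => hI'k (α.core_le I' hb)
    have h2 : ∀ b ∈ α.core I', (φ.comp y) b = 0 := by
      intro b hb
      rw [hφy]
      exact hJ g'⁻¹ y' h1 b hb
    have h3 := le_ker_orb30 α (y := φ.comp y) hJ h2 a ha
    rw [← orb_comp30, RingHom.comp_apply] at h3
    have h4 : α.orb y a = 0 := by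
      have h5 : Function.Injective (RRmap r φ) := RRmap_inj r φ.injective
      apply h5
      rw [h3, map_zero]
    rw [Ideal.mem_bot]
    apply hy
    rw [h4, map_zero]
  have hI'le : I' ≤ I := hmax' I' hI'p hI's hI'c hII'
  -- the section
  obtain ⟨η, hη⟩ : ∃ η : A ⧸ I →+* RR r L ⧸ M, η.comp (Ideal.Quotient.mk I) = y' :=
    ⟨Ideal.Quotient.lift I y' hy'I, Ideal.Quotient.lift_comp_mk _ _ _⟩
  have hηinj : Function.Injective (((α.restr hle).quot I hIs).orb η) := by
    rw [injective_iff_map_eq_zero]
    intro b hb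
    obtain ⟨a, rfl⟩ := Ideal.Quotient.mk_surjective b
    have h1 := congrArg (fun f => f a) (Act.orb_quot hIs η)
    simp only [RingHom.comp_apply] at h1
    rw [hb, hη] at h1
    rw [Ideal.Quotient.eq_zero_iff_mem]
    apply hI'le
    rw [hI', RingHom.mem_ker]
    exact h1.symm
  obtain ⟨d', hd'0, hd's, hd'⟩ := hGen (A ⧸ I) (hA.quot I) ((α.restr hle).quot I hIs)
    (RR r L ⧸ M) η hKron hηinj
  obtain ⟨d'', hd''⟩ : ∃ d'' : Ideal A, d'' = d'.comap (Ideal.Quotient.mk I) := ⟨_, rfl⟩
  have hd''s : (α.restr hle).Stable d'' := by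
    rw [hd'']
    exact Act.Stable.comap_quot hIs hd's
  have hId'' : I ≤ d'' := by
    intro a ha
    rw [hd'', Ideal.mem_comap, Ideal.Quotient.eq_zero_iff_mem.2 ha]
    exact zero_mem _
  have hd''I : ¬ d'' ≤ I := by
    intro h
    apply hd'0
    rw [eq_bot_iff]
    intro b hb
    obtain ⟨a, rfl⟩ := Ideal.Quotient.mk_surjective b
    rw [Ideal.mem_bot, Ideal.Quotient.eq_zero_iff_mem]
    apply h
    rw [hd'']
    exact hb
  obtain ⟨s, hs⟩ : ∃ s : Finset (Ideal A), ∀ p, p ∈ s ↔ p ∈ d''.minimalPrimes :=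
    ⟨(d''.finite_minimalPrimes_of_isNoetherianRing A).toFinset, fun p => Set.Finite.mem_toFinset _⟩
  have hcore : ∀ p ∈ s, α.core p ≠ ⊥ := by
    intro p hp h0
    have hp' := (hs p).1 hp
    have h1 : p.IsPrime := hp'.1.1
    have h2 : d'' ≤ p := hp'.1.2
    exact hd''I (h2.trans (hmax' p h1 (Act.stable_of_mem_minimalPrimes _ hd''s hp') h0 (hId''.trans h2)))
  have hrad : ∏ p ∈ s, p ≤ d''.radical := by
    rw [← Ideal.sInf_minimalPrimes]
    refine le_sInf fun p hp => ?_
    have h1 : ∏ p ∈ s, p ≤ s.inf id := Ideal.prod_le_inf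
    exact h1.trans (Finset.inf_le ((hs p).2 hp))
  obtain ⟨k, hk⟩ := Ideal.exists_pow_le_of_le_radical_of_fg_radical hrad
    ((isNoetherianRing_iff_ideal_fg A).1 hnoeth _)
  refine ⟨I, hIp, hIs, hIc, (∏ p ∈ s, α.core p) ^ k, ?_, ?_, ?_⟩
  · exact pow_ne_zero k (prod_ne_bot30 s _ hcore)
  · exact Act.Stable.pow (Act.Stable.prod s _ fun p _ => α.core_stable p) k
  · intro e he0 hed hes
    have h1 : e ≤ d'' := hed.trans ((Ideal.pow_right_mono
      (prod_le_prod30 s _ fun p _ => α.core_le p) k).trans hk)
    refine hd' _ ?_ ?_ ?_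
    · intro h2
      rw [Ideal.map_eq_bot_iff_le_ker, Ideal.mk_ker] at h2
      have h3 := α.le_core hes h2
      rw [hIc, le_bot_iff] at h3
      exact he0 h3
    · rw [Ideal.map_le_iff_le_comap, ← hd'']
      exact h1
    · exact Act.Stable.map_quot hIs (hes.restr hle)

end Pool.Agent.Helper72.OB
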