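import Pool.Agent.Helper72.OB.Defs2

/-!
# Orbit theorem, block B: the coordinate ring of `G_r`
-/

set_option autoImplicit false

namespace Pool.Agent.Helper72.OB

open Pool.Agent.Helper65.Mor (FGen)

variable {n : ℕ} (r : Pre n)

open Classical in
/-- the substitution `x_ij ↦ x_ij + δ_ij T` -/
private noncomputable def shf (A : Type) [CommRing A] :
    MvPolynomial (Idx r) A →+* Polynomial (MvPolynomial (Idx r) A) :=
  MvPolynomial.eval₂Hom (Polynomial.C.comp MvPolynomial.C)
    (fun p => Polynomial.C (MvPolynomial.X p) + if p.1.1 = p.1.2 then Polynomial.X else 0)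

private theorem eval_shf (A : Type) [CommRing A] (p : MvPolynomial (Idx r) A) :
    Polynomial.evalRingHom 0 (shf r A p) = p := by
  have h : (Polynomial.evalRingHom 0).comp (shf r A) = RingHom.id _ := by
    apply MvPolynomial.ringHom_ext
    · intro a
      simp [shf]
    · intro q
      simp only [shf, RingHom.comp_apply, MvPolynomial.coe_eval₂Hom, MvPolynomial.eval₂_X, map_add,
        Polynomial.coe_evalRingHom, Polynomial.eval_C, RingHom.id_apply]
      split_ifs <;> simp
  exact congrArg (fun f => f p) h

private theorem shf_gdet (A : Type) [CommRing A] :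
    shf r A (gmat r A).det = (-(gmat r A)).charpoly := by
  rw [RingHom.map_det, Matrix.charpoly]
  congr 1
  ext1 i j
  rw [RingHom.mapMatrix_apply, Matrix.map_apply, Matrix.charmatrix_apply]
  by_cases h : r.rel i j
  · simp only [gmat, dif_pos h, shf, MvPolynomial.coe_eval₂Hom, MvPolynomial.eval₂_X,
      Matrix.neg_apply, map_neg, sub_neg_eq_add]
    by_cases hij : i = j
    · subst hij
      simp [add_comm]
    · simp [hij]
  · have hij : i ≠ j := fun e => h (e ▸ r.refl i)
    simp [gmat, h, hij]

/-- the generic determinant is a nonzerodivisor: substitute `x_ij ↦ x_ij + δ_ij T` (monic in `T`) -/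
theorem gdet_mem (A : Type) [CommRing A] :
    (gmat r A).det ∈ nonZeroDivisors (MvPolynomial (Idx r) A) := by
  rw [mem_nonZeroDivisors_iff_right]
  intro p hp
  have h1 : shf r A p * shf r A (gmat r A).det = 0 := by rw [← map_mul, hp, map_zero]
  rw [shf_gdet] at h1
  have h2 : (-(gmat r A)).charpoly.Monic := Matrix.charpoly_monic _
  have h3 : shf r A p = 0 := (h2.mul_left_eq_zero_iff).1 h1
  rw [← eval_shf r A p, h3, map_zero]

theorem algebraMap_RR_inj (A : Type) [CommRing A] :
    Function.Injective (algebraMap (MvPolynomial (Idx r) A) (RR r A)) :=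
  IsLocalization.injective (RR r A) (Submonoid.powers_le.2 (gdet_mem r A))

theorem ιR_inj (A : Type) [CommRing A] : Function.Injective (ιR r A) :=
  (algebraMap_RR_inj r A).comp (MvPolynomial.C_injective _ _)

theorem isDomain_RR (A : Type) [CommRing A] [IsDomain A] : IsDomain (RR r A) :=
  IsLocalization.isDomain_localization (Submonoid.powers_le.2 (gdet_mem r A))

theorem fgen_RR {A : Type} [CommRing A] (hA : FGen A) : FGen (RR r A) := by
  have h1 : FGen (MvPolynomial (Idx r) A) := hA.of_hom MvPolynomial.C
    (RingHom.finiteType_algebraMap.2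
      (inferInstance : Algebra.FiniteType A (MvPolynomial (Idx r) A)))
  exact h1.away _

/-- every element of `RR` is `F / det ^ k` -/
theorem exists_num {A : Type} [CommRing A] (b : RR r A) : ∃ (k : ℕ) (F : MvPolynomial (Idx r) A),
    algebraMap _ (RR r A) ((gmat r A).det ^ k) * b = algebraMap _ _ F := by
  obtain ⟨k, F, h⟩ := IsLocalization.Away.surj (gmat r A).det b
  exact ⟨k, F, by rw [map_pow, mul_comm, h]⟩

private theorem unit_det {A : Type} [CommRing A] (k : ℕ) :
    IsUnit (algebraMap _ (RR r A) ((gmat r A).det ^ k)) := by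
  rw [map_pow]
  exact (IsLocalization.Away.algebraMap_isUnit _).pow k

section

variable {A B : Type} [CommRing A] [CommRing B]

theorem RRmap_comp_ι (f : A →+* B) : (RRmap r f).comp (ιR r A) = (ιR r B).comp f :=
  ev_comp_ι r _ _

theorem map_RRmap_gam (f : A →+* B) : Gp.map r (RRmap r f) (gam r A) = gam r B :=
  map_ev_gam r _ _

theorem RRmap_algebraMap (f : A →+* B) (F : MvPolynomial (Idx r) A) :
    RRmap r f (algebraMap _ _ F) = algebraMap _ _ (MvPolynomial.map f F) := by
  have h : (RRmap r f).comp (algebraMap (MvPolynomial (Idx r) A) (RR r A)) =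
      (algebraMap (MvPolynomial (Idx r) B) (RR r B)).comp (MvPolynomial.map f) := by
    apply MvPolynomial.ringHom_ext
    · intro a
      have h1 := congrArg (fun f => f a) (RRmap_comp_ι r f)
      simp only [RingHom.comp_apply, MvPolynomial.map_C] at h1 ⊢
      exact h1
    · rintro ⟨⟨i, j⟩, hij⟩
      have h1 := congrArg (fun g => g.1.1 i j) (map_RRmap_gam r f)
      simp only [Gp.map_val] at h1
      rw [gam_val r i j hij, gam_val r i j hij] at h1
      simp only [RingHom.comp_apply, MvPolynomial.map_X]
      exact h1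
  exact congrArg (fun f => f F) h

theorem RRmap_det (f : A →+* B) : MvPolynomial.map f (gmat r A).det = (gmat r B).det := by
  rw [RingHom.map_det]
  congr 1
  ext1 i j
  rw [RingHom.mapMatrix_apply, Matrix.map_apply]
  by_cases h : r.rel i j
  · simp [gmat, h]
  · simp [gmat, h]

theorem RRmap_inj {f : A →+* B} (hf : Function.Injective f) : Function.Injective (RRmap r f) := by
  rw [injective_iff_map_eq_zero]
  intro b hb
  obtain ⟨k, F, hF⟩ := exists_num r b
  have h1 : RRmap r f (algebraMap _ _ F) = 0 := by rw [← hF, map_mul, hb, mul_zero]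
  rw [RRmap_algebraMap, ← map_zero (algebraMap (MvPolynomial (Idx r) B) (RR r B))] at h1
  have h2 := algebraMap_RR_inj r B h1
  have h3 : F = 0 := MvPolynomial.map_injective f hf (by rw [h2, map_zero])
  rw [h3, map_zero] at hF
  exact ((unit_det r k).mul_right_eq_zero).1 hF

theorem RRmap_surj {f : A →+* B} (hf : Function.Surjective f) : Function.Surjective (RRmap r f) := by
  intro b
  obtain ⟨k, F, hF⟩ := exists_num r b
  obtain ⟨G, rfl⟩ := MvPolynomial.map_surjective f hf F
  obtain ⟨u, hu⟩ := (unit_det (A := A) r k).exists_left_inv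
  refine ⟨u * algebraMap _ _ G, ?_⟩
  have h1 : RRmap r f u * algebraMap _ (RR r B) ((gmat r B).det ^ k) = 1 := by
    have h2 : algebraMap _ (RR r B) ((gmat r B).det ^ k) =
        RRmap r f (algebraMap _ (RR r A) ((gmat r A).det ^ k)) := by
      rw [RRmap_algebraMap, map_pow (MvPolynomial.map f), RRmap_det]
    rw [h2, ← map_mul, hu, map_one]
  rw [map_mul, RRmap_algebraMap, ← hF, ← mul_assoc, h1, one_mul]

theorem ker_RRmap_mk (I : Ideal A) :
    RingHom.ker (RRmap r (Ideal.Quotient.mk I)) = I.map (ιR r A) := by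
  apply le_antisymm
  · intro b hb
    rw [RingHom.mem_ker] at hb
    obtain ⟨k, F, hF⟩ := exists_num r b
    have h1 : RRmap r (Ideal.Quotient.mk I) (algebraMap _ _ F) = 0 := by
      rw [← hF, map_mul, hb, mul_zero]
    rw [RRmap_algebraMap, ← map_zero (algebraMap (MvPolynomial (Idx r) (A ⧸ I)) (RR r (A ⧸ I)))] at h1
    have h2 := algebraMap_RR_inj r _ h1
    have h3 : F ∈ I.map (MvPolynomial.C : A →+* MvPolynomial (Idx r) A) := by
      rw [MvPolynomial.mem_map_C_iff]
      intro m
      have h4 := congrArg (MvPolynomial.coeff m) h2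
      rw [MvPolynomial.coeff_map, MvPolynomial.coeff_zero] at h4
      exact Ideal.Quotient.eq_zero_iff_mem.1 h4
    have h4 : algebraMap _ (RR r A) F ∈ I.map (ιR r A) := by
      have h5 := Ideal.mem_map_of_mem (algebraMap (MvPolynomial (Idx r) A) (RR r A)) h3
      rw [Ideal.map_map] at h5
      exact h5
    rw [← hF] at h4
    exact (Ideal.unit_mul_mem_iff_mem _ (unit_det r k)).1 h4
  · rw [Ideal.map_le_iff_le_comap]
    intro a ha
    rw [Ideal.mem_comap, RingHom.mem_ker]
    have h1 := congrArg (fun f => f a) (RRmap_comp_ι r (Ideal.Quotient.mk I))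
    simp only [RingHom.comp_apply] at h1
    rw [h1, Ideal.Quotient.eq_zero_iff_mem.2 ha, map_zero]

theorem ev_comp_RRmap {R : Type} [CommRing R] (f : A →+* B) (x : B →+* R) (g : Gp r R) :
    (ev r x g).comp (RRmap r f) = ev r (x.comp f) g := by
  apply RR_hom_ext
  · rw [RingHom.comp_assoc, RRmap_comp_ι, ← RingHom.comp_assoc, ev_comp_ι, ev_comp_ι]
  · rw [Gp.map_comp, map_RRmap_gam, map_ev_gam, map_ev_gam]

end

end Pool.Agent.Helper72.OB
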