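import Pool.Agent.Helper72.OB.Sch

/-!
# Orbit theorem, block E2: homotopy invariance for quasi-affine schemes
-/

set_option autoImplicit false

namespace Pool.Agent.Helper72.OB

open AlgebraicGeometry CategoryTheory Limits
open Pool.Agent.Helper65.Mor (Arithmetic ClosedOpen FGen)

section

variable {A B : Type} [CommRing A] [CommRing B]

private theorem preimage_DD56 (f : A →+* B) (e : Ideal A) :
    (Spec.map (CommRingCat.ofHom f)) ⁻¹ᵁ (DD e) = DD (e.map f) := by
  ext x
  show (Spec.map (CommRingCat.ofHom f)) x ∈ DD e ↔ x ∈ DD (e.map f)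
  rw [mem_DD, mem_DD, Ideal.map_le_iff_le_comap]
  rfl

private theorem line_iso56 (e : Ideal A) :
    Nonempty (AffineSpace (Fin 1) (DD e).toScheme ≅
      (DD (e.map (MvPolynomial.C : A →+* MvPolynomial (Fin 1) A))).toScheme) := by
  have h1 := AffineSpace.isPullback_map (n := Fin 1) (DD e).ι
  have h2 := (isPullback_morphismRestrict
    (Spec.map (CommRingCat.ofHom (MvPolynomial.C : A →+* MvPolynomial (Fin 1) A))) (DD e)).flip
  have h3 := h1.of_iso (fst' := AffineSpace.map (Fin 1) (DD e).ι ≫
      (AffineSpace.SpecIso (Fin 1) (CommRingCat.of A)).hom)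
    (snd' := (AffineSpace (Fin 1) (DD e).toScheme ↘ (DD e).toScheme))
    (f' := Spec.map (CommRingCat.ofHom (MvPolynomial.C : A →+* MvPolynomial (Fin 1) A)))
    (g' := (DD e).ι) (Iso.refl _) (AffineSpace.SpecIso (Fin 1) (CommRingCat.of A)) (Iso.refl _)
    (Iso.refl _) (by simp) (by simp) (by
      rw [Iso.refl_hom, Category.comp_id]
      exact (Iso.inv_comp_eq _).1 (AffineSpace.SpecIso_inv_over (CommRingCat.of A))) (by simp)
  rw [← preimage_DD56]
  exact ⟨h3.isoIsPullback _ _ h2⟩

end

variable {P : Scheme.{0} → Prop} (hP : Rules P) {A B : Type} [CommRing A] [CommRing B]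

include hP

/-- homotopy invariance -/
theorem P_poly (hA : FGen A) {e : Ideal A} (h : P (DD e).toScheme) :
    P (DD (e.map (Polynomial.C : A →+* Polynomial A))).toScheme := by
  obtain ⟨i⟩ := line_iso56 e
  have h0 := arithmetic_DD hA e
  have h1 := hP.line _ h0 h
  have h2 : Arithmetic (AffineSpace (Fin 1) (DD e).toScheme) :=
    Pool.Agent.Helper65.Mor.Arithmetic.comp
      (AffineSpace (Fin 1) (DD e).toScheme ↘ (DD e).toScheme) h0
  have h3 := hP.iso _ _ h2 ⟨i⟩ h1
  have h4 : FGen (MvPolynomial (Fin 1) A) := hA.of_hom MvPolynomial.C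
    (RingHom.finiteType_algebraMap.2
      (inferInstance : Algebra.FiniteType A (MvPolynomial (Fin 1) A)))
  have h5 := (P_iso hP h4 (MvPolynomial.uniqueAlgEquiv A (Fin 1)).toRingEquiv _).1 h3
  rw [Ideal.map_map] at h5
  have h6 : (((MvPolynomial.uniqueAlgEquiv A (Fin 1)).toRingEquiv :
      MvPolynomial (Fin 1) A →+* Polynomial A)).comp MvPolynomial.C = Polynomial.C := by
    ext a : 1
    exact (MvPolynomial.uniqueAlgEquiv A (Fin 1)).commutes a
  rwa [h6] at h5

theorem P_mvPoly (hA : FGen A) {σ : Type} [Finite σ] {e : Ideal A} (h : P (DD e).toScheme) :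
    P (DD (e.map (MvPolynomial.C : A →+* MvPolynomial σ A))).toScheme := by
  have key : ∀ (σ : Type) [Finite σ], FGen (MvPolynomial σ A) ∧
      P (DD (e.map (MvPolynomial.C : A →+* MvPolynomial σ A))).toScheme := by
    intro σ _
    refine Finite.induction_empty_option (P := fun σ => FGen (MvPolynomial σ A) ∧
      P (DD (e.map (MvPolynomial.C : A →+* MvPolynomial σ A))).toScheme) ?_ ?_ ?_ σ
    · intro σ τ f ih
      refine ⟨ih.1.of_surjective (MvPolynomial.renameEquiv A f).toRingEquiv.toRingHom
        (MvPolynomial.renameEquiv A f).surjective, ?_⟩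
      have h5 := (P_iso hP ih.1 (MvPolynomial.renameEquiv A f).toRingEquiv _).1 ih.2
      rw [Ideal.map_map] at h5
      have h6 : (((MvPolynomial.renameEquiv A f).toRingEquiv :
          MvPolynomial σ A →+* MvPolynomial τ A)).comp MvPolynomial.C = MvPolynomial.C := by
        ext a : 1
        exact (MvPolynomial.renameEquiv A f).commutes a
      rwa [h6] at h5
    · refine ⟨hA.of_surjective (MvPolynomial.isEmptyAlgEquiv A PEmpty).symm.toRingEquiv.toRingHom
        (MvPolynomial.isEmptyAlgEquiv A PEmpty).symm.surjective, ?_⟩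
      have h5 := (P_iso hP hA (MvPolynomial.isEmptyAlgEquiv A PEmpty).symm.toRingEquiv _).1 h
      exact h5
    · intro σ hσ ih
      have h5 := P_poly hP ih.1 ih.2
      have h7 : FGen (Polynomial (MvPolynomial σ A)) := ih.1.of_hom Polynomial.C
        (RingHom.finiteType_algebraMap.2
          (inferInstance : Algebra.FiniteType (MvPolynomial σ A) (Polynomial (MvPolynomial σ A))))
      refine ⟨h7.of_surjective (MvPolynomial.optionEquivLeft A σ).symm.toRingEquiv.toRingHom
        (MvPolynomial.optionEquivLeft A σ).symm.surjective, ?_⟩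
      have h8 := (P_iso hP h7 (MvPolynomial.optionEquivLeft A σ).symm.toRingEquiv _).1 h5
      rw [Ideal.map_map, Ideal.map_map] at h8
      have h6 : (((MvPolynomial.optionEquivLeft A σ).symm.toRingEquiv :
          Polynomial (MvPolynomial σ A) →+* MvPolynomial (Option σ) A)).comp
          ((Polynomial.C).comp MvPolynomial.C) = MvPolynomial.C := by
        ext a : 1
        exact (MvPolynomial.optionEquivLeft A σ).symm.commutes a
      have h9 := h8
      first
        | rwa [h6] at h9
        | (rw [RingHom.comp_assoc] at h9; rwa [h6] at h9)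
  exact (key σ).2

theorem P_laurent (hA : FGen A) {e : Ideal A} (h : P (DD e).toScheme) :
    P (DD (e.map (LaurentPolynomial.C : A →+* LaurentPolynomial A))).toScheme := by
  have h0 := P_poly hP hA h
  have hX : FGen (Polynomial A) := hA.of_hom Polynomial.C
    (RingHom.finiteType_algebraMap.2 (inferInstance : Algebra.FiniteType A (Polynomial A)))
  set E : Ideal (Polynomial A) := e.map Polynomial.C with hE
  set b : Ideal (Polynomial A) := Ideal.span {Polynomial.X - Polynomial.C 0} with hb
  have h1 : P (LC b E) := by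
    have h5 := (P_iso hP hA (Polynomial.quotientSpanXSubCAlgEquiv (0 : A)).symm.toRingEquiv _).1 h
    have h6 : e.map (((Polynomial.quotientSpanXSubCAlgEquiv (0 : A)).symm.toRingEquiv :
        A →+* (Polynomial A ⧸ b))) = E.map (Ideal.Quotient.mk b) := by
      rw [hE, Ideal.map_map]
      congr 1
    rw [h6] at h5
    exact h5
  have h2 := P_opn hP hX h0 h1
  have hbX : b = Ideal.span {Polynomial.X} := by
    rw [hb, map_zero, sub_zero]
  obtain ⟨i⟩ := DD_away (B := LaurentPolynomial A) (Polynomial.X : Polynomial A) (E * b)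
    (hbX ▸ Ideal.mul_le_right)
  have h3 := hP.iso _ _ (arithmetic_DD hX (E * b)) ⟨i.symm⟩ h2
  have h4 : (E * b).map (algebraMap (Polynomial A) (LaurentPolynomial A)) =
      e.map (LaurentPolynomial.C : A →+* LaurentPolynomial A) := by
    rw [Ideal.map_mul, hbX, Ideal.map_span, Set.image_singleton]
    have h5 : Ideal.span {algebraMap (Polynomial A) (LaurentPolynomial A) Polynomial.X} = ⊤ :=
      Ideal.span_singleton_eq_top.2
        (IsLocalization.Away.algebraMap_isUnit (Polynomial.X : Polynomial A))
    rw [h5, Ideal.mul_top, hE, Ideal.map_map]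
    congr 1
    ext a : 1
    exact Polynomial.toLaurent_C a
  rw [← h4]
  exact h3

end Pool.Agent.Helper72.OB
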