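import Pool.Agent.Helper72.OB.SolvDefs

/-!
# Orbit theorem, block G1: slices of additive coactions
-/

set_option autoImplicit false

namespace Pool.Agent.Helper72.OB

open Polynomial

variable {A : Type} [CommRing A] (t : GaCo A)

/-- invariants -/
noncomputable def GaCo.inv : Subring A := (t.τ).eqLocus (C : A →+* A[X])

theorem GaCo.mem_inv (a : A) : a ∈ t.inv ↔ t.τ a = C a := Iff.rfl

theorem GaCo.mem_inv_iff (a : A) : a ∈ t.inv ↔ ∀ i, 0 < i → t.D i a = 0 := by
  rw [GaCo.mem_inv]
  constructor
  · intro h i hi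
    unfold GaCo.D
    rw [h, coeff_C, if_neg (by omega)]
  · intro h
    ext i
    rcases Nat.eq_zero_or_pos i with hi | hi
    · subst hi
      rw [t.zero a, coeff_C_zero]
    · have := h i hi
      unfold GaCo.D at this
      rw [this, coeff_C, if_neg (by omega)]

private theorem D_D32 (a : A) (i j : ℕ) :
    t.D j (t.D i a) = (Nat.choose (i + j) i : A) * t.D (i + j) a := t.co a i j

private theorem D_big32 (a : A) {i : ℕ} (hi : (t.τ a).natDegree < i) : t.D i a = 0 :=
  coeff_eq_zero_of_natDegree_lt hi

/-- the top coefficient is invariant -/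
theorem GaCo.top_mem (a : A) : t.D (t.τ a).natDegree a ∈ t.inv := by
  rw [GaCo.mem_inv_iff]
  intro i hi
  rw [D_D32, D_big32 t a (i := (t.τ a).natDegree + i) (by omega), mul_zero]

private theorem deg_zero_mem32 {c : A} (h : (t.τ c).natDegree = 0) : c ∈ t.inv := by
  rw [GaCo.mem_inv_iff]
  intro i hi
  exact D_big32 t c (by omega)

private theorem choose_zero32 [IsDomain A] {e : ℕ}
    (hmin : ∀ c, (t.τ c).natDegree = 0 ∨ e ≤ (t.τ c).natDegree) (c : A) {i : ℕ} (hi : 0 < i)
    (hie : i < e) (him : i ≤ (t.τ c).natDegree) :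
    (Nat.choose (t.τ c).natDegree i : A) = 0 := by
  set m := (t.τ c).natDegree with hm
  have hm0 : t.τ c ≠ 0 := by
    intro h
    rw [h, natDegree_zero] at hm
    omega
  have hw : t.D m c ≠ 0 := by
    unfold GaCo.D
    rw [hm, coeff_natDegree]
    exact leadingCoeff_ne_zero.mpr hm0
  have hd : (t.τ (t.D (m - i) c)).natDegree ≤ i := by
    rw [natDegree_le_iff_coeff_eq_zero]
    intro j hj
    have h1 := D_D32 t c (m - i) j
    rw [D_big32 t c (i := m - i + j) (by omega), mul_zero] at h1
    exact h1
  have hd0 : (t.τ (t.D (m - i) c)).natDegree = 0 := by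
    rcases hmin (t.D (m - i) c) with h | h
    · exact h
    · omega
  have h2 := D_D32 t c (m - i) i
  rw [D_big32 t (t.D (m - i) c) (i := i) (by omega), show m - i + i = m by omega] at h2
  have h3 : (Nat.choose m (m - i) : A) = 0 := by
    rcases mul_eq_zero.mp h2.symm with h | h
    · exact h
    · exact absurd h hw
  rwa [Nat.choose_symm him] at h3

private theorem dvd_deg32 [IsDomain A] {a : A} {e : ℕ} (he : 0 < e)
    (ha : (t.τ a).natDegree = e)
    (hmin : ∀ c, (t.τ c).natDegree = 0 ∨ e ≤ (t.τ c).natDegree) (c : A) :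
    e ∣ (t.τ c).natDegree := by
  by_contra hnd
  set m := (t.τ c).natDegree with hm
  have hρ : 0 < m % e := Nat.pos_of_ne_zero fun h => hnd (Nat.dvd_of_mod_eq_zero h)
  have hρe : m % e < e := Nat.mod_lt _ he
  have hρm : m % e ≤ m := Nat.mod_le _ _
  have hc : (Nat.choose m (m % e) : A) = 0 := choose_zero32 t hmin c hρ hρe hρm
  have hfr : (1 + X : A[X]) ^ e = 1 + X ^ e := by
    ext i
    rw [add_comm 1 (X : A[X]), coeff_X_add_one_pow, coeff_add, coeff_one, coeff_X_pow]
    rcases Nat.eq_zero_or_pos i with h0 | h0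
    · subst h0
      rw [Nat.choose_zero_right, if_pos rfl, if_neg (by omega)]
      simp
    · rw [if_neg (by omega)]
      rcases lt_trichotomy i e with h | h | h
      · rw [if_neg (by omega)]
        have h1 := choose_zero32 t hmin a h0 h (by omega)
        rw [ha] at h1
        rw [h1, zero_add]
      · subst h
        rw [if_pos rfl, Nat.choose_self]
        simp
      · rw [if_neg (by omega), Nat.choose_eq_zero_of_lt h]
        simp
  have hpow : (1 + X : A[X]) ^ m = (1 + X ^ e) ^ (m / e) * (1 + X) ^ (m % e) := by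
    rw [← hfr, ← pow_mul, ← pow_add, Nat.div_add_mod]
  -- compare the coefficients of `X ^ (m % e)`
  have hdiv : ∃ r : A[X], (1 + X ^ e : A[X]) ^ (m / e) = 1 + X ^ e * r := by
    have : (X ^ e : A[X]) ∣ (1 + X ^ e) ^ (m / e) - 1 ^ (m / e) := by
      have h1 := sub_dvd_pow_sub_pow (1 + X ^ e : A[X]) 1 (m / e)
      rwa [add_sub_cancel_left] at h1
    obtain ⟨r, hr⟩ := this
    refine ⟨r, ?_⟩
    rw [one_pow] at hr
    rw [← hr]
    ring
  obtain ⟨r, hr⟩ := hdiv
  have h1 : ((1 + X : A[X]) ^ m).coeff (m % e) = 0 := by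
    rw [add_comm 1 (X : A[X]), coeff_X_add_one_pow, hc]
  rw [hpow, hr, add_mul, one_mul, mul_assoc, coeff_add, add_comm 1 (X : A[X]),
    coeff_X_add_one_pow, Nat.choose_self, coeff_X_pow_mul', if_neg (by omega)] at h1
  simp at h1

private theorem slice_aux32 [IsDomain A] {a : A} {e : ℕ} (he : 0 < e)
    (ha : (t.τ a).natDegree = e)
    (hmin : ∀ c, (t.τ c).natDegree = 0 ∨ e ≤ (t.τ c).natDegree) (m : ℕ) :
    ∀ c : A, (t.τ c).natDegree = m →
      ∃ (q : ℕ) (p : A[X]), (∀ i, p.coeff i ∈ t.inv) ∧ t.D e a ^ q * c = p.eval a := by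
  induction m using Nat.strong_induction_on with
  | _ m ih =>
  intro c hc
  rcases Nat.eq_zero_or_pos m with h0 | h0
  · refine ⟨0, C c, ?_, ?_⟩
    · intro i
      rw [coeff_C]
      split_ifs
      · exact deg_zero_mem32 t (by omega)
      · exact Subring.zero_mem _
    · rw [pow_zero, one_mul, eval_C]
  · obtain ⟨q, hq⟩ := dvd_deg32 t he ha hmin c
    rw [hc] at hq
    have hs : t.D e a ∈ t.inv := by
      have := t.top_mem a
      rwa [ha] at this
    have hw : t.D m c ∈ t.inv := by
      have := t.top_mem c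
      rwa [hc] at this
    have hτ : t.τ (t.D e a ^ q * c - t.D m c * a ^ q) =
        C (t.D e a ^ q) * t.τ c - C (t.D m c) * t.τ a ^ q := by
      rw [map_sub, map_mul, map_mul, map_pow, map_pow, (t.mem_inv _).mp hs, (t.mem_inv _).mp hw,
        ← C_pow]
    have hdeg : (t.τ (t.D e a ^ q * c - t.D m c * a ^ q)).natDegree < m := by
      have hle : (t.τ (t.D e a ^ q * c - t.D m c * a ^ q)).natDegree ≤ m := by
        rw [hτ]
        refine (natDegree_sub_le _ _).trans (max_le ?_ ?_)
        · exact (natDegree_C_mul_le _ _).trans (by rw [hc])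
        · refine (natDegree_C_mul_le _ _).trans ?_
          refine natDegree_pow_le.trans ?_
          rw [ha, hq, mul_comm]
      have hco : (t.τ (t.D e a ^ q * c - t.D m c * a ^ q)).coeff m = 0 := by
        rw [hτ, coeff_sub, coeff_C_mul, coeff_C_mul]
        have h1 : (t.τ a ^ q).coeff m = t.D e a ^ q := by
          have h2 : m = q * (t.τ a).natDegree := by rw [ha, hq, mul_comm]
          rw [h2, coeff_pow_mul_natDegree]
          congr 1
          unfold GaCo.D
          rw [← ha]
          rfl
        rw [h1]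
        change t.D e a ^ q * t.D m c - t.D m c * t.D e a ^ q = 0
        ring
      rcases Nat.lt_or_ge (t.τ (t.D e a ^ q * c - t.D m c * a ^ q)).natDegree m with h | h
      · exact h
      · exfalso
        have h3 : (t.τ (t.D e a ^ q * c - t.D m c * a ^ q)).natDegree = m := le_antisymm hle h
        have h4 : (t.τ (t.D e a ^ q * c - t.D m c * a ^ q)).leadingCoeff = 0 := by
          rw [leadingCoeff, h3, hco]
        rw [leadingCoeff_eq_zero] at h4
        rw [h4, natDegree_zero] at h3
        omega
    obtain ⟨q', p', hp', hqp'⟩ := ih _ hdeg _ rfl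
    refine ⟨q' + q, p' + C (t.D e a ^ q' * t.D m c) * X ^ q, ?_, ?_⟩
    · intro i
      rw [coeff_add, coeff_C_mul, coeff_X_pow]
      refine Subring.add_mem _ (hp' i) ?_
      refine Subring.mul_mem _ (Subring.mul_mem _ (Subring.pow_mem _ hs _) hw) ?_
      split_ifs
      · exact Subring.one_mem _
      · exact Subring.zero_mem _
    · rw [eval_add, ← hqp', eval_mul, eval_C, eval_pow, eval_X]
      ring

/-- **slice lemma**: let `e > 0` be the minimal positive degree of the `τ c`, attained at `a` with
leading coefficient `s = D_e(a)`; then every `c` is a polynomial in `a` with invariant coefficients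
up to a power of `s` -/
theorem GaCo.slice [IsDomain A] (a : A) (e : ℕ) (he : 0 < e) (ha : (t.τ a).natDegree = e)
    (hmin : ∀ c, (t.τ c).natDegree = 0 ∨ e ≤ (t.τ c).natDegree) (c : A) :
    ∃ (q : ℕ) (p : A[X]), (∀ i, p.coeff i ∈ t.inv) ∧ t.D e a ^ q * c = p.eval a :=
  slice_aux32 t he ha hmin _ c rfl

private noncomputable def ph32 (a : A) : (t.inv)[X] →+* A := eval₂RingHom t.inv.subtype a

private theorem tau_ph32 (a : A) (p : (t.inv)[X]) :
    t.τ (ph32 t a p) = (p.map t.inv.subtype).comp (t.τ a) := by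
  unfold ph32
  rw [coe_eval₂RingHom, hom_eval₂, comp, eval₂_map]
  congr 1
  refine RingHom.ext fun b => ?_
  exact (t.mem_inv _).mp b.2

/-- if moreover `s` is a unit, then `A` is a polynomial ring over the invariants -/
theorem GaCo.slice_unit [IsDomain A] (a : A) (e : ℕ) (he : 0 < e) (ha : (t.τ a).natDegree = e)
    (hmin : ∀ c, (t.τ c).natDegree = 0 ∨ e ≤ (t.τ c).natDegree) (hs : IsUnit (t.D e a)) :
    ∃ φ : (t.inv)[X] ≃+* A, (∀ b : t.inv, φ (C b) = b) ∧ φ X = a := by
  have hsi : t.D e a ∈ t.inv := by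
    have := t.top_mem a
    rwa [ha] at this
  obtain ⟨u, hu⟩ := hs
  have hui : (↑u⁻¹ : A) ∈ t.inv := by
    rw [GaCo.mem_inv]
    have h1 : t.τ (↑u⁻¹ : A) * C (↑u : A) = 1 := by
      rw [hu, ← (t.mem_inv _).mp hsi, ← map_mul, ← hu, Units.inv_mul, map_one]
    have h2 : (C (↑u⁻¹ : A) : A[X]) * C (↑u : A) = 1 := by
      rw [← C_mul, Units.inv_mul, C_1]
    have h3 : (C (↑u : A) : A[X]) ≠ 0 := by
      rw [Ne, C_eq_zero]
      exact u.ne_zero
    exact mul_right_cancel₀ h3 (h1.trans h2.symm)
  have hinj : Function.Injective (ph32 t a) := by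
    rw [injective_iff_map_eq_zero]
    intro p hp
    have h1 := tau_ph32 t a p
    rw [hp, map_zero] at h1
    rcases (comp_eq_zero_iff.mp h1.symm) with h | ⟨_, h⟩
    · exact (Polynomial.map_eq_zero_iff (Subtype.val_injective : Function.Injective t.inv.subtype)).mp h
    · exfalso
      rw [h, natDegree_C] at ha
      omega
  have hsurj : Function.Surjective (ph32 t a) := by
    intro c
    obtain ⟨q, p, hp, hpq⟩ := t.slice a e he ha hmin c
    -- `p` has coefficients in `inv`
    obtain ⟨p', hp'⟩ : ∃ p' : (t.inv)[X], p'.map t.inv.subtype = p := by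
      have : p ∈ Polynomial.lifts t.inv.subtype := by
        rw [Polynomial.lifts_iff_coeff_lifts]
        intro n
        exact ⟨⟨p.coeff n, hp n⟩, rfl⟩
      exact (Polynomial.mem_lifts p).mp this
    refine ⟨C ⟨(↑u⁻¹ : A), hui⟩ ^ q * p', ?_⟩
    have h1 : ph32 t a p' = p.eval a := by
      rw [← hp', eval_map]
      rfl
    have h2 : ph32 t a (C ⟨(↑u⁻¹ : A), hui⟩) = (↑u⁻¹ : A) := by
      unfold ph32
      rw [coe_eval₂RingHom, eval₂_C]
      rfl
    rw [map_mul, map_pow, h1, h2, ← hpq, ← hu, ← mul_assoc, ← mul_pow, Units.inv_mul, one_pow,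
      one_mul]
  have hbij : Function.Bijective (ph32 t a) := ⟨hinj, hsurj⟩
  refine ⟨RingEquiv.ofBijective (ph32 t a) hbij, ?_, ?_⟩
  · intro b
    change ph32 t a (C b) = b
    unfold ph32
    rw [coe_eval₂RingHom, eval₂_C]
    rfl
  · change ph32 t a X = a
    unfold ph32
    rw [coe_eval₂RingHom, eval₂_X]

/-- in the situation of `slice_unit` every ideal stable under the `D_i` is generated by
invariants -/
theorem GaCo.ideal_eq [IsDomain A] (a : A) (e : ℕ) (he : 0 < e) (ha : (t.τ a).natDegree = e)
    (hmin : ∀ c, (t.τ c).natDegree = 0 ∨ e ≤ (t.τ c).natDegree) (hs : IsUnit (t.D e a))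
    (J : Ideal A) (hJ : ∀ x ∈ J, ∀ i, t.D i x ∈ J) :
    J = (J.comap t.inv.subtype).map t.inv.subtype := by
  refine le_antisymm ?_ Ideal.map_comap_le
  obtain ⟨φ, hφC, hφX⟩ := t.slice_unit a e he ha hmin hs
  have hφ : ∀ p : (t.inv)[X], φ p = ph32 t a p := by
    intro p
    have : (φ : (t.inv)[X] →+* A) = ph32 t a := by
      refine Polynomial.ringHom_ext (fun b => ?_) ?_
      · change φ (C b) = _
        rw [hφC]
        unfold ph32
        rw [coe_eval₂RingHom, eval₂_C]
        rfl
      · change φ X = _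
        rw [hφX]
        unfold ph32
        rw [coe_eval₂RingHom, eval₂_X]
    exact congrArg (fun f : (t.inv)[X] →+* A => f p) this
  have key : ∀ (n : ℕ) (p : (t.inv)[X]), p.natDegree < n → ph32 t a p ∈ J →
      ph32 t a p ∈ (J.comap t.inv.subtype).map t.inv.subtype := by
    intro n
    induction n with
    | zero =>
      intro p hp
      omega
    | succ n ih =>
      intro p hp hpJ
      -- the leading coefficient is in `J`
      have hlead : ((p.leadingCoeff : t.inv) : A) ∈ J := by
        have h1 := hJ _ hpJ (p.natDegree * e)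
        unfold GaCo.D at h1
        rw [tau_ph32] at h1
        have hinj : Function.Injective t.inv.subtype := Subtype.val_injective
        have h2 : ((p.map t.inv.subtype).comp (t.τ a)).natDegree = p.natDegree * e := by
          rw [natDegree_comp, natDegree_map_eq_of_injective hinj, ha]
        have h3 : ((p.map t.inv.subtype).comp (t.τ a)).coeff (p.natDegree * e) =
            t.inv.subtype p.leadingCoeff * t.D e a ^ p.natDegree := by
          rw [← h2, coeff_natDegree, leadingCoeff_comp (by omega),
            leadingCoeff_map_of_injective hinj, natDegree_map_eq_of_injective hinj]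
          congr 2
          unfold GaCo.D
          rw [← ha]
          rfl
        rw [h3] at h1
        obtain ⟨u, hu⟩ := hs
        rw [← hu] at h1
        have h4 := J.mul_mem_right ((↑u⁻¹ : A) ^ p.natDegree) h1
        rwa [mul_assoc, ← mul_pow, Units.mul_inv, one_pow, mul_one] at h4
      have hl2 : ph32 t a (C p.leadingCoeff * X ^ p.natDegree) = ((p.leadingCoeff : t.inv) : A) *
          a ^ p.natDegree := by
        unfold ph32
        rw [coe_eval₂RingHom, eval₂_mul, eval₂_C, eval₂_pow, eval₂_X]
        rfl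
      have hlm : ((p.leadingCoeff : t.inv) : A) ∈
          (J.comap t.inv.subtype).map t.inv.subtype :=
        Ideal.mem_map_of_mem t.inv.subtype (x := p.leadingCoeff) hlead
      have hsplit : ph32 t a p = ph32 t a p.eraseLead +
          ((p.leadingCoeff : t.inv) : A) * a ^ p.natDegree := by
        conv_lhs => rw [← eraseLead_add_C_mul_X_pow p]
        rw [map_add, hl2]
      have heJ : ph32 t a p.eraseLead ∈ J := by
        have h5 : ph32 t a p.eraseLead = ph32 t a p -
            ((p.leadingCoeff : t.inv) : A) * a ^ p.natDegree := by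
          rw [hsplit]
          ring
        rw [h5]
        exact J.sub_mem hpJ (J.mul_mem_right _ hlead)
      rw [hsplit]
      refine Ideal.add_mem _ ?_ (Ideal.mul_mem_right _ _ hlm)
      rcases eraseLead_natDegree_lt_or_eraseLead_eq_zero p with h | h
      · exact ih _ (by omega) heJ
      · rw [h, map_zero]
        exact Ideal.zero_mem _
  intro x hx
  obtain ⟨p, rfl⟩ := φ.surjective x
  rw [hφ] at hx ⊢
  exact key (p.natDegree + 1) p (by omega) hx

end Pool.Agent.Helper72.OB
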