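import Pool.Agent.Helper72.OB.SolvDefs
import Pool.Agent.Helper72.OB.Sch
import Pool.Agent.Helper72.OB.SchLine
import Pool.Agent.Helper9.RS.KD2

/-!
# Orbit theorem, block G2b: the generic statement for a split torus
-/

set_option autoImplicit false

namespace Pool.Agent.Helper72.OB

open AlgebraicGeometry CategoryTheory
open Pool.Agent.Helper65.Mor (Arithmetic ClosedOpen FGen)
open Pool.Agent.Helper9.RS (Kron)

/-! ### homogeneous elements -/

section hom

variable {n : ℕ} {A : Type} [CommRing A] (θ : ToCo n A)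

private theorem hom_mul56 {χ χ' : Fin n → ℤ} {a b : A} (ha : θ.Hom χ a) (hb : θ.Hom χ' b) :
    θ.Hom (χ + χ') (a * b) := by
  unfold ToCo.Hom at *
  rw [map_mul, ha, hb, AddMonoidAlgebra.single_mul_single]

private theorem hom_one56 : θ.Hom 0 1 := by
  unfold ToCo.Hom
  rw [map_one]
  rfl

private theorem hom_inv56 {χ : Fin n → ℤ} {u : Aˣ} (hu : θ.Hom χ (u : A)) :
    θ.Hom (-χ) ((u⁻¹ : Aˣ) : A) := by
  unfold ToCo.Hom at *
  have h1 : θ.θ (u : A) * θ.θ ((u⁻¹ : Aˣ) : A) = 1 := by
    rw [← map_mul, Units.mul_inv, map_one]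
  rw [hu] at h1
  have h2 : AddMonoidAlgebra.single (-χ) ((u⁻¹ : Aˣ) : A) * AddMonoidAlgebra.single χ (u : A) =
      1 := by
    rw [AddMonoidAlgebra.single_mul_single, neg_add_cancel, Units.inv_mul]
    rfl
  calc θ.θ ((u⁻¹ : Aˣ) : A) = (AddMonoidAlgebra.single (-χ) ((u⁻¹ : Aˣ) : A) *
        AddMonoidAlgebra.single χ (u : A)) * θ.θ ((u⁻¹ : Aˣ) : A) := by rw [h2, one_mul]
    _ = AddMonoidAlgebra.single (-χ) ((u⁻¹ : Aˣ) : A) := by rw [mul_assoc, h1, mul_one]

private theorem hom_coeff_self56 {χ : Fin n → ℤ} {a : A} (ha : θ.Hom χ a) :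
    (θ.θ a).coeff χ = a := by
  rw [ha, AddMonoidAlgebra.coeff_single, Finsupp.single_eq_same]

private theorem hom_coeff_ne56 {χ χ' : Fin n → ℤ} {a : A} (ha : θ.Hom χ a) (h : χ' ≠ χ) :
    (θ.θ a).coeff χ' = 0 := by
  rw [ha, AddMonoidAlgebra.coeff_single, Finsupp.single_eq_of_ne h]

private theorem hom_coeff56 (a : A) (χ : Fin n → ℤ) : θ.Hom χ ((θ.θ a).coeff χ) := θ.co a χ

private theorem sum_coeff56 (a : A) : ∑ χ ∈ (θ.θ a).coeff.support, (θ.θ a).coeff χ = a :=
  θ.counit a

private theorem mul_coeff56 {χ : Fin n → ℤ} {a : A} (ha : θ.Hom χ a) (b : A) (χ' : Fin n → ℤ) :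
    (θ.θ (a * b)).coeff (χ + χ') = a * (θ.θ b).coeff χ' := by
  rw [map_mul, ha, AddMonoidAlgebra.coeff_single_mul_eq_mul_coeff (m₂ := χ')]
  intro m _
  exact ⟨fun h => add_left_cancel h, fun h => by rw [h]⟩

/-- the weights of the homogeneous units -/
private def unitWt56 : AddSubgroup (Fin n → ℤ) where
  carrier := {χ | ∃ u : Aˣ, θ.Hom χ (u : A)}
  zero_mem' := ⟨1, hom_one56 θ⟩
  add_mem' := by
    rintro χ χ' ⟨u, hu⟩ ⟨v, hv⟩
    exact ⟨u * v, by rw [Units.val_mul]; exact hom_mul56 θ hu hv⟩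
  neg_mem' := by
    rintro χ ⟨u, hu⟩
    exact ⟨u⁻¹, hom_inv56 θ hu⟩

/-- the subring of degree zero -/
private def zeroPart56 : Subring A where
  carrier := {a | θ.Hom 0 a}
  mul_mem' := by
    intro a b ha hb
    have := hom_mul56 θ ha hb
    rwa [add_zero] at this
  one_mem' := hom_one56 θ
  add_mem' := by
    intro a b ha hb
    show θ.θ (a + b) = _
    rw [map_add, ha, hb, ← AddMonoidAlgebra.single_add]
  zero_mem' := by
    show θ.θ 0 = _
    rw [map_zero, AddMonoidAlgebra.single_zero]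
  neg_mem' := by
    intro a ha
    show θ.θ (-a) = _
    rw [map_neg, ha]
    exact (AddMonoidAlgebra.single_neg _ _).symm

private theorem supp_mem56 {H : Set A} (hH : ∀ h ∈ H, IsUnit h ∧ ∃ χ, θ.Hom χ h)
    (hgen : Subring.closure H = ⊤) (b : A) : ∀ χ, (θ.θ b).coeff χ ≠ 0 → χ ∈ unitWt56 θ := by
  classical
  have hb : b ∈ Subring.closure H := hgen ▸ Subring.mem_top b
  induction hb using Subring.closure_induction with
  | mem h hh =>
    intro χ hχ
    obtain ⟨⟨u, rfl⟩, χ', h'⟩ := hH h hh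
    by_cases hc : χ = χ'
    · exact ⟨u, hc ▸ h'⟩
    · exact absurd (hom_coeff_ne56 θ h' hc) hχ
  | zero =>
    intro χ hχ
    rw [map_zero] at hχ
    exact absurd rfl hχ
  | one =>
    intro χ hχ
    by_cases hc : χ = 0
    · rw [hc]
      exact zero_mem _
    · exact absurd (hom_coeff_ne56 θ (hom_one56 θ) hc) hχ
  | add x y _ _ ihx ihy =>
    intro χ hχ
    rw [map_add] at hχ
    by_cases hx : (θ.θ x).coeff χ = 0
    · refine ihy χ fun hy => hχ ?_
      show (θ.θ x).coeff χ + (θ.θ y).coeff χ = 0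
      rw [hx, hy, add_zero]
    · exact ihx χ hx
  | neg x _ ihx =>
    intro χ hχ
    rw [map_neg] at hχ
    refine ihx χ fun hx => hχ ?_
    show -(θ.θ x).coeff χ = 0
    rw [hx, neg_zero]
  | mul x y _ _ ihx ihy =>
    intro χ hχ
    rw [map_mul, AddMonoidAlgebra.coeff_mul] at hχ
    obtain ⟨a, ha, h1⟩ := Finset.exists_ne_zero_of_sum_ne_zero hχ
    obtain ⟨b, hb, h2⟩ := Finset.exists_ne_zero_of_sum_ne_zero h1
    have h3 : a + b = χ := by
      by_contra h4
      exact h2 (if_neg h4)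
    rw [← h3]
    exact add_mem (ihx a (Finsupp.mem_support_iff.1 ha)) (ihy b (Finsupp.mem_support_iff.1 hb))

/-- the units of all weights can be chosen multiplicatively -/
private theorem exists_units56 : ∃ U : Multiplicative (AddSubgroup.toIntSubmodule (unitWt56 θ)) →* Aˣ,
    ∀ χ, θ.Hom ((Multiplicative.toAdd χ : AddSubgroup.toIntSubmodule (unitWt56 θ)) : Fin n → ℤ)
      (U χ : A) := by
  classical
  obtain ⟨r, bs⟩ := Submodule.basisOfPid (Pi.basisFun ℤ (Fin n))
    (AddSubgroup.toIntSubmodule (unitWt56 θ))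
  have hu : ∀ j, ∃ u : Aˣ, θ.Hom ((bs j : AddSubgroup.toIntSubmodule (unitWt56 θ)) : Fin n → ℤ)
      (u : A) := fun j => (bs j).2
  choose u hu using hu
  let F : AddSubgroup.toIntSubmodule (unitWt56 θ) →ₗ[ℤ] Additive Aˣ :=
    bs.constr ℤ fun j => Additive.ofMul (u j)
  have hF : ∀ j, F (bs j) = Additive.ofMul (u j) := fun j => bs.constr_basis ℤ _ j
  let W : AddSubgroup (AddSubgroup.toIntSubmodule (unitWt56 θ)) :=
    { carrier := {χ | θ.Hom (χ : Fin n → ℤ) ((Additive.toMul (F χ) : Aˣ) : A)}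
      zero_mem' := by
        show θ.Hom _ _
        rw [map_zero]
        exact hom_one56 θ
      add_mem' := by
        intro a b ha hb
        show θ.Hom _ _
        rw [map_add, toMul_add, Units.val_mul]
        exact hom_mul56 θ ha hb
      neg_mem' := by
        intro a ha
        show θ.Hom _ _
        rw [map_neg, toMul_neg]
        exact hom_inv56 θ ha }
  have hW : ∀ χ, χ ∈ AddSubgroup.toIntSubmodule W := by
    intro χ
    have h1 : Submodule.span ℤ (Set.range bs) ≤ AddSubgroup.toIntSubmodule W := by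
      rw [Submodule.span_le]
      rintro _ ⟨j, rfl⟩
      show θ.Hom _ _
      rw [hF]
      exact hu j
    exact h1 (bs.span_eq ▸ Submodule.mem_top)
  exact ⟨(AddMonoidHom.toMultiplicativeLeft F.toAddMonoidHom), fun χ => hW (Multiplicative.toAdd χ)⟩

/-- the structure of a ring generated by homogeneous units -/
private theorem exists_iso56 {H : Set A} (hH : ∀ h ∈ H, IsUnit h ∧ ∃ χ, θ.Hom χ h)
    (hgen : Subring.closure H = ⊤) :
    ∃ Φ : AddMonoidAlgebra (zeroPart56 θ) (AddSubgroup.toIntSubmodule (unitWt56 θ)) ≃+* A,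
      (∀ c : zeroPart56 θ, Φ (AddMonoidAlgebra.single 0 c) = c) ∧
      ∀ a χ, ∃ (m : AddSubgroup.toIntSubmodule (unitWt56 θ)) (c : zeroPart56 θ) (u : Aˣ),
        (θ.θ a).coeff χ = Φ (AddMonoidAlgebra.single m c) ∧ (θ.θ a).coeff χ = c * u := by
  classical
  obtain ⟨U, hU⟩ := exists_units56 θ
  let Φ₀ : AddMonoidAlgebra (zeroPart56 θ) (AddSubgroup.toIntSubmodule (unitWt56 θ)) →+* A :=
    AddMonoidAlgebra.liftNCRingHom (zeroPart56 θ).subtype ((Units.coeHom A).comp U)
      fun _ _ => Commute.all _ _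
  have hΦ : ∀ m c, Φ₀ (AddMonoidAlgebra.single m c) = (c : A) * (U (Multiplicative.ofAdd m) : A) :=
    fun m c => AddMonoidAlgebra.liftNCRingHom_single _ _ _ _ _
  have hθ : ∀ x m, (θ.θ (Φ₀ x)).coeff ((m : AddSubgroup.toIntSubmodule (unitWt56 θ)) : Fin n → ℤ) =
      (x.coeff m : A) * (U (Multiplicative.ofAdd m) : A) := by
    intro x m
    induction x using AddMonoidAlgebra.induction_linear with
    | zero => 
      rw [map_zero, map_zero]
      show (0 : A) = ((0 : zeroPart56 θ) : A) * _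
      rw [ZeroMemClass.coe_zero, zero_mul]
    | add f g hf hg =>
      rw [map_add, map_add]
      show (θ.θ (Φ₀ f)).coeff _ + (θ.θ (Φ₀ g)).coeff _ = ((f.coeff m + g.coeff m : zeroPart56 θ) : A) * _
      rw [hf, hg, AddMemClass.coe_add, add_mul]
    | single m' c =>
      rw [hΦ]
      have h1 : θ.Hom (m' : Fin n → ℤ) ((c : A) * (U (Multiplicative.ofAdd m') : A)) := by
        have := hom_mul56 θ c.2 (hU (Multiplicative.ofAdd m'))
        rwa [zero_add] at this
      by_cases hm : m = m'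
      · subst hm
        rw [hom_coeff_self56 θ h1, AddMonoidAlgebra.coeff_single, Finsupp.single_eq_same]
      · rw [hom_coeff_ne56 θ h1 (fun h => hm (Subtype.ext h)), AddMonoidAlgebra.coeff_single,
          Finsupp.single_eq_of_ne hm, ZeroMemClass.coe_zero, zero_mul]
  have hinj : Function.Injective Φ₀ := by
    rw [injective_iff_map_eq_zero]
    intro x hx
    apply AddMonoidAlgebra.ext
    ext m
    have h1 := hθ x m
    rw [hx, map_zero] at h1
    have h2 : ((x.coeff m : zeroPart56 θ) : A) * (U (Multiplicative.ofAdd m) : A) = 0 := h1.symm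
    exact (Units.mul_left_eq_zero _).1 h2
  have hcomp : ∀ a χ, ∃ (m : AddSubgroup.toIntSubmodule (unitWt56 θ)) (c : zeroPart56 θ) (u : Aˣ),
      (θ.θ a).coeff χ = Φ₀ (AddMonoidAlgebra.single m c) ∧ (θ.θ a).coeff χ = c * u := by
    intro a χ
    by_cases h0 : (θ.θ a).coeff χ = 0
    · exact ⟨0, 0, 1, by rw [h0, AddMonoidAlgebra.single_zero, map_zero], by
        rw [h0, ZeroMemClass.coe_zero, zero_mul]⟩
    · have hχ := supp_mem56 θ hH hgen a χ h0
      have h1 : θ.Hom 0 ((θ.θ a).coeff χ * ((U (Multiplicative.ofAdd ⟨χ, hχ⟩))⁻¹ : Aˣ)) := by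
        have := hom_mul56 θ (hom_coeff56 θ a χ) (hom_inv56 θ (hU (Multiplicative.ofAdd ⟨χ, hχ⟩)))
        have h2 : χ + -χ = 0 := add_neg_cancel χ
        rw [← h2]
        exact this
      refine ⟨⟨χ, hχ⟩, ⟨_, h1⟩, U (Multiplicative.ofAdd ⟨χ, hχ⟩), ?_, ?_⟩
      · rw [hΦ]
        exact (Units.inv_mul_cancel_right _ _).symm
      · exact (Units.inv_mul_cancel_right _ _).symm
  have hsurj : Function.Surjective Φ₀ := by
    intro a
    choose m c u h1 h2 using hcomp a
    refine ⟨∑ χ ∈ (θ.θ a).coeff.support, AddMonoidAlgebra.single (m χ) (c χ), ?_⟩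
    rw [map_sum]
    conv_rhs => rw [← sum_coeff56 θ a]
    exact Finset.sum_congr rfl fun χ _ => (h1 χ).symm
  refine ⟨RingEquiv.ofBijective Φ₀ ⟨hinj, hsurj⟩, fun c => ?_, fun a χ => hcomp a χ⟩
  have h1 := hΦ 0 c
  rw [ofAdd_zero, map_one, Units.val_one, mul_one] at h1
  exact h1

end hom

/-! ### group algebras -/

section group

variable {P : Scheme.{0} → Prop} (hP : Rules P)

private theorem fg56 (r : ℕ) : AddMonoid.FG (Fin r → ℤ) := by
  rw [← AddGroup.fg_iff_addMonoid_fg, ← Module.Finite.iff_addGroup_fg]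
  infer_instance

private theorem fgen_group56 {A : Type} [CommRing A] (hA : FGen A) {G : Type} [AddCommGroup G]
    (hG : AddMonoid.FG G) : FGen (AddMonoidAlgebra A G) :=
  hA.of_hom (algebraMap A (AddMonoidAlgebra A G)) (RingHom.finiteType_algebraMap.2
    (AddMonoidAlgebra.finiteType_of_fg A G))

include hP

private theorem P_group56 (r : ℕ) {A : Type} [CommRing A] (hA : FGen A) {e : Ideal A}
    (h : P (DD e).toScheme) :
    P (DD (e.map (AddMonoidAlgebra.singleZeroRingHom :
      A →+* AddMonoidAlgebra A (Fin r → ℤ)))).toScheme := by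
  induction r with
  | zero =>
    have h5 := (P_iso hP hA (AddMonoidAlgebra.uniqueRingEquiv (R := A) (Fin 0 → ℤ)).symm e).1 h
    have h6 : ((AddMonoidAlgebra.uniqueRingEquiv (R := A) (Fin 0 → ℤ)).symm :
        A →+* AddMonoidAlgebra A (Fin 0 → ℤ)) = AddMonoidAlgebra.singleZeroRingHom := by
      ext a : 1
      exact AddMonoidAlgebra.uniqueRingEquiv_symm_apply _ a
    rwa [h6] at h5
  | succ r ih =>
    have hA' : FGen (AddMonoidAlgebra A (Fin r → ℤ)) := fgen_group56 hA (fg56 r)
    have h1 := P_laurent hP hA' ih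
    have hA'' : FGen (LaurentPolynomial (AddMonoidAlgebra A (Fin r → ℤ))) := by
      have h0 : AddMonoid.FG ℤ := by
        rw [← AddGroup.fg_iff_addMonoid_fg, ← Module.Finite.iff_addGroup_fg]
        infer_instance
      exact fgen_group56 hA' h0
    let E : (Fin (r + 1) → ℤ) ≃+ ℤ × (Fin r → ℤ) :=
      { toFun := fun f => (f 0, fun i => f i.succ)
        invFun := fun p => Fin.cons p.1 p.2
        left_inv := fun f => Fin.cons_self_tail f
        right_inv := fun p => rfl
        map_add' := fun f g => rfl }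
    let Ψ : LaurentPolynomial (AddMonoidAlgebra A (Fin r → ℤ)) ≃+*
        AddMonoidAlgebra A (Fin (r + 1) → ℤ) :=
      (AddMonoidAlgebra.curryRingEquiv (R := A) (M := ℤ) (N := Fin r → ℤ)).symm.trans
        (AddMonoidAlgebra.domCongr A A E).symm.toRingEquiv
    have h5 := (P_iso hP hA'' Ψ _).1 h1
    rw [Ideal.map_map, Ideal.map_map] at h5
    have h6 : (Ψ : LaurentPolynomial (AddMonoidAlgebra A (Fin r → ℤ)) →+*
        AddMonoidAlgebra A (Fin (r + 1) → ℤ)).comp ((LaurentPolynomial.C).comp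
          AddMonoidAlgebra.singleZeroRingHom) = AddMonoidAlgebra.singleZeroRingHom := by
      ext a : 1
      show (AddMonoidAlgebra.domCongr A A E).symm ((AddMonoidAlgebra.curryRingEquiv (R := A)
        (M := ℤ) (N := Fin r → ℤ)).symm (AddMonoidAlgebra.single 0 (AddMonoidAlgebra.single 0 a))) =
          AddMonoidAlgebra.single 0 a
      have h7 : (AddMonoidAlgebra.curryRingEquiv (R := A) (M := ℤ) (N := Fin r → ℤ)).symm
          (AddMonoidAlgebra.single 0 (AddMonoidAlgebra.single 0 a)) =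
            AddMonoidAlgebra.single (0, 0) a := by
        rw [RingEquiv.symm_apply_eq]
        exact (AddMonoidAlgebra.curryRingEquiv_single _ _ _).symm
      rw [h7, AddMonoidAlgebra.domCongr_symm, AddMonoidAlgebra.domCongr_single]
      congr 1
      exact map_zero E.symm
    first
      | rwa [h6] at h5
      | (rw [RingHom.comp_assoc] at h5; rwa [h6] at h5)

private theorem P_groupG56 {G : Type} [AddCommGroup G] {r : ℕ} (E : G ≃+ (Fin r → ℤ)) {A : Type}
    [CommRing A] (hA : FGen A) {e : Ideal A} (h : P (DD e).toScheme) :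
    P (DD (e.map (AddMonoidAlgebra.singleZeroRingHom : A →+* AddMonoidAlgebra A G))).toScheme := by
  have h1 := P_group56 hP r hA h
  have h5 := (P_iso hP (fgen_group56 hA (fg56 r)) (AddMonoidAlgebra.domCongr A A E).symm.toRingEquiv
    _).1 h1
  rw [Ideal.map_map] at h5
  have h6 : ((AddMonoidAlgebra.domCongr A A E).symm.toRingEquiv :
      AddMonoidAlgebra A (Fin r → ℤ) →+* AddMonoidAlgebra A G).comp
        AddMonoidAlgebra.singleZeroRingHom = AddMonoidAlgebra.singleZeroRingHom := by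
    ext a : 1
    show (AddMonoidAlgebra.domCongr A A E).symm (AddMonoidAlgebra.single 0 a) =
      AddMonoidAlgebra.single 0 a
    rw [AddMonoidAlgebra.domCongr_symm, AddMonoidAlgebra.domCongr_single, map_zero]
  rwa [h6] at h5

end group

/-! ### the case of homogeneous units -/

private theorem ft56 {A : Type} [CommRing A] (hA : FGen A) : Algebra.FiniteType ℤ A :=
  RingHom.finiteType_algebraMap.1 (by rw [algebraMap_int_eq]; exact hA)

private theorem unit_case56 {P : Scheme.{0} → Prop} (hP : Rules P) {B : Type} [CommRing B]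
    (hB : FGen B) {n : ℕ} (θ : ToCo n B) {H : Set B}
    (hH : ∀ h ∈ H, IsUnit h ∧ ∃ χ, θ.Hom χ h) (hgen : Subring.closure H = ⊤) {L : Type} [Field L]
    (hL : Kron 0 L) (y : B →+* L) (hy : ∀ b, θ.Hom 0 b → y b = 0 → b = 0) (e : Ideal B)
    (he : ∀ a ∈ e, ∀ χ, (θ.θ a).coeff χ ∈ e) : P (DD e).toScheme := by
  classical
  obtain ⟨Φ, hΦ, hc⟩ := exists_iso56 θ hH hgen
  obtain ⟨r, bs⟩ := Submodule.basisOfPid (Pi.basisFun ℤ (Fin n))
    (AddSubgroup.toIntSubmodule (unitWt56 θ))
  let E := bs.equivFun.toAddEquiv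
  let aug : AddMonoidAlgebra (zeroPart56 θ) (AddSubgroup.toIntSubmodule (unitWt56 θ)) →+*
      zeroPart56 θ := AddMonoidAlgebra.liftNCRingHom (RingHom.id _) 1 fun _ _ => Commute.all _ _
  have haug : ∀ c, aug (AddMonoidAlgebra.single 0 c) = c := by
    intro c
    have h1 := AddMonoidAlgebra.liftNCRingHom_single (RingHom.id (zeroPart56 θ))
      (1 : Multiplicative (AddSubgroup.toIntSubmodule (unitWt56 θ)) →* zeroPart56 θ)
      (fun _ _ => Commute.all _ _) 0 c
    rw [MonoidHom.one_apply, mul_one] at h1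
    exact h1
  have hC : FGen (zeroPart56 θ) := by
    refine hB.of_surjective (aug.comp (Φ.symm : B →+* _)) fun c => ⟨c, ?_⟩
    show aug (Φ.symm (c : B)) = c
    rw [← hΦ c, Φ.symm_apply_apply, haug]
  have hdim : ringKrullDim (zeroPart56 θ) ≤ 1 := by
    refine Pool.Agent.Helper9.RS.dim_le_of_kron (ft56 hC) (y.comp (zeroPart56 θ).subtype) ?_ hL
    rw [injective_iff_map_eq_zero]
    intro c hc0
    exact Subtype.ext (hy c c.2 hc0)
  have h0 : P (DD (e.comap (zeroPart56 θ).subtype)).toScheme := P_dimOne hP hC hdim _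
  have h1 := P_groupG56 hP E hC h0
  have hG : AddMonoid.FG (AddSubgroup.toIntSubmodule (unitWt56 θ)) := by
    rw [← AddGroup.fg_iff_addMonoid_fg, ← Module.Finite.iff_addGroup_fg]
    infer_instance
  have h2 := (P_iso hP (fgen_group56 hC hG) Φ _).1 h1
  rw [Ideal.map_map] at h2
  have h3 : (Φ : AddMonoidAlgebra (zeroPart56 θ) (AddSubgroup.toIntSubmodule (unitWt56 θ)) →+*
      B).comp AddMonoidAlgebra.singleZeroRingHom = (zeroPart56 θ).subtype := by
    ext c : 1
    exact hΦ c
  rw [h3] at h2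
  have h4 : (e.comap (zeroPart56 θ).subtype).map (zeroPart56 θ).subtype = e := by
    refine le_antisymm Ideal.map_comap_le fun b hb => ?_
    rw [← sum_coeff56 θ b]
    refine Ideal.sum_mem _ fun χ _ => ?_
    obtain ⟨m, c, u, -, h5⟩ := hc b χ
    have h6 := he b hb χ
    rw [h5] at h6 ⊢
    refine Ideal.mul_mem_right _ _ (Ideal.mem_map_of_mem (zeroPart56 θ).subtype (x := c) ?_)
    show (c : B) ∈ e
    have h7 := e.mul_mem_right ((u⁻¹ : Bˣ) : B) h6
    rwa [Units.mul_inv_cancel_right] at h7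
  rwa [h4] at h2

/-! ### localisation -/

private theorem exists_loc56 {n : ℕ} {A : Type} [CommRing A] (θ : ToCo n A) {f : A}
    {χf : Fin n → ℤ} (hf : θ.Hom χf f) (B : Type) [CommRing B] [Algebra A B]
    [IsLocalization.Away f B] : ∃ θ' : ToCo n B, ∀ a, θ'.θ (algebraMap A B a) =
      AddMonoidAlgebra.mapRingHom _ (algebraMap A B) (θ.θ a) := by
  classical
  obtain ⟨u, hu⟩ := IsLocalization.Away.algebraMap_isUnit (S := B) f
  have hunit : IsUnit (((AddMonoidAlgebra.mapRingHom (Fin n → ℤ) (algebraMap A B)).comp θ.θ) f) := by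
    rw [RingHom.comp_apply, hf, AddMonoidAlgebra.mapRingHom_single, ← hu]
    refine IsUnit.of_mul_eq_one (AddMonoidAlgebra.single (-χf) ((u⁻¹ : Bˣ) : B)) ?_
    rw [AddMonoidAlgebra.single_mul_single, add_neg_cancel, Units.mul_inv]
    rfl
  let Θ : B →+* AddMonoidAlgebra B (Fin n → ℤ) := IsLocalization.Away.lift (S := B) f hunit
  have hΘ : ∀ a, Θ (algebraMap A B a) = AddMonoidAlgebra.mapRingHom _ (algebraMap A B) (θ.θ a) :=
    fun a => IsLocalization.Away.lift_eq f hunit a
  let ε : AddMonoidAlgebra B (Fin n → ℤ) →+* B :=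
    AddMonoidAlgebra.liftNCRingHom (RingHom.id B) 1 fun _ _ => Commute.all _ _
  have hε : ∀ x, ε x = x.coeff.sum (fun _ b => b) := by
    intro x
    induction x using AddMonoidAlgebra.induction_linear with
    | zero => rw [map_zero]; rfl
    | add p q hp hq =>
      rw [map_add, hp, hq]
      exact (Finsupp.sum_add_index' (fun _ => rfl) fun _ _ _ => rfl).symm
    | single m c =>
      have h1 := AddMonoidAlgebra.liftNCRingHom_single (RingHom.id B)
        (1 : Multiplicative (Fin n → ℤ) →* B) (fun _ _ => Commute.all _ _) m c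
      rw [MonoidHom.one_apply, mul_one] at h1
      rw [AddMonoidAlgebra.coeff_single, Finsupp.sum_single_index rfl]
      exact h1
  have hcu : ∀ b, (Θ b).coeff.sum (fun _ b => b) = b := by
    have h1 : ε.comp Θ = RingHom.id B := by
      apply IsLocalization.ringHom_ext (Submonoid.powers f)
      ext a
      show ε (Θ (algebraMap A B a)) = algebraMap A B a
      have h2 : ∀ x : AddMonoidAlgebra A (Fin n → ℤ),
          ε (AddMonoidAlgebra.mapRingHom _ (algebraMap A B) x) =
            algebraMap A B (x.coeff.sum fun _ b => b) := by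
        intro x
        induction x using AddMonoidAlgebra.induction_linear with
        | zero => rw [map_zero, map_zero]; exact (map_zero _).symm
        | add p q hp hq =>
          rw [map_add, map_add, hp, hq, ← map_add]
          congr 1
          exact (Finsupp.sum_add_index' (fun _ => rfl) fun _ _ _ => rfl).symm
        | single m c =>
          rw [AddMonoidAlgebra.mapRingHom_single, hε, AddMonoidAlgebra.coeff_single,
            AddMonoidAlgebra.coeff_single, Finsupp.sum_single_index rfl,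
            Finsupp.sum_single_index rfl]
      rw [hΘ, h2, θ.counit]
    intro b
    rw [← hε]
    exact congrArg (fun g => g b) h1
  refine ⟨⟨Θ, hcu, fun b χ => ?_⟩, hΘ⟩
  obtain ⟨k, a, hab⟩ := IsLocalization.Away.surj f b
  have hfk : Θ (algebraMap A B f ^ k) = AddMonoidAlgebra.single (k • χf) (algebraMap A B f ^ k) := by
    rw [map_pow, hΘ, hf, AddMonoidAlgebra.mapRingHom_single, AddMonoidAlgebra.single_pow]
  have h1 : Θ b = AddMonoidAlgebra.single (-(k • χf)) (((u⁻¹) ^ k : Bˣ) : B) *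
      AddMonoidAlgebra.mapRingHom _ (algebraMap A B) (θ.θ a) := by
    rw [← hΘ, ← hab, map_mul, hfk, mul_comm (Θ b), ← mul_assoc,
      AddMonoidAlgebra.single_mul_single, neg_add_cancel, ← hu, ← Units.val_pow_eq_pow_val,
      ← Units.val_mul, inv_pow, inv_mul_cancel]
    exact (one_mul _).symm
  have h2 : ∀ χ, (Θ b).coeff χ = (((u⁻¹) ^ k : Bˣ) : B) *
      algebraMap A B ((θ.θ a).coeff (k • χf + χ)) := by
    intro χ
    rw [h1, AddMonoidAlgebra.coeff_single_mul_eq_mul_coeff (m₂ := k • χf + χ),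
      AddMonoidAlgebra.coeff_mapRingHom]
    intro m _
    constructor
    · intro h
      rw [← h, add_neg_cancel_left]
    · intro h
      rw [h, neg_add_cancel_left]
  have hui : Θ (((u⁻¹) ^ k : Bˣ) : B) = AddMonoidAlgebra.single (-(k • χf))
      (((u⁻¹) ^ k : Bˣ) : B) := by
    have h3 : Θ (((u⁻¹) ^ k : Bˣ) : B) * Θ (algebraMap A B f ^ k) = 1 := by
      rw [← map_mul, ← hu, ← Units.val_pow_eq_pow_val, ← Units.val_mul, inv_pow, inv_mul_cancel,
        Units.val_one, map_one]
    have h4 : AddMonoidAlgebra.single (k • χf) (algebraMap A B f ^ k) *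
        AddMonoidAlgebra.single (-(k • χf)) (((u⁻¹) ^ k : Bˣ) : B) = 1 := by
      rw [AddMonoidAlgebra.single_mul_single, add_neg_cancel, ← hu, ← Units.val_pow_eq_pow_val,
        ← Units.val_mul, inv_pow, mul_inv_cancel, Units.val_one]
      rfl
    rw [hfk] at h3
    calc Θ (((u⁻¹) ^ k : Bˣ) : B) = Θ (((u⁻¹) ^ k : Bˣ) : B) *
          (AddMonoidAlgebra.single (k • χf) (algebraMap A B f ^ k) *
            AddMonoidAlgebra.single (-(k • χf)) (((u⁻¹) ^ k : Bˣ) : B)) := by rw [h4, mul_one]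
      _ = _ := by rw [← mul_assoc, h3, one_mul]
  rw [h2, map_mul, hui, hΘ, θ.co, AddMonoidAlgebra.mapRingHom_single,
    AddMonoidAlgebra.single_mul_single, neg_add_cancel_left]

theorem torusAbs {P : Scheme.{0} → Prop} (hP : Rules P) {A : Type} [CommRing A] [IsDomain A]
    (hA : FGen A) {n : ℕ} (θ : ToCo n A) {L : Type} [Field L] (hL : Kron 0 L)
    (y : A →+* L) (hy : ∀ a χ, θ.Hom χ a → y a = 0 → a = 0) :
    ∃ f : A, f ≠ 0 ∧ (∃ χ, θ.Hom χ f) ∧ ∀ e : Ideal A, e ≠ ⊥ → e ≤ Ideal.span {f} →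
      (∀ a ∈ e, ∀ χ, (θ.θ a).coeff χ ∈ e) → P (DD e).toScheme := by
  classical
  have hA' : Algebra.FiniteType ℤ A := ft56 hA
  obtain ⟨S, hS⟩ := hA'.out
  rw [Algebra.adjoin_int] at hS
  have hS' : Subring.closure (S : Set A) = ⊤ := by
    rw [eq_top_iff]
    intro a _
    have : a ∈ subalgebraOfSubring (Subring.closure (S : Set A)) := hS ▸ Algebra.mem_top
    exact this
  let H₀ : Finset A := S.biUnion fun a =>
    (θ.θ a).coeff.support.image fun χ => (θ.θ a).coeff χ
  have hH₀ : ∀ h ∈ H₀, h ≠ 0 ∧ ∃ χ, θ.Hom χ h := by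
    intro h hh
    obtain ⟨a, -, h1⟩ := Finset.mem_biUnion.1 hh
    obtain ⟨χ, h2, rfl⟩ := Finset.mem_image.1 h1
    exact ⟨Finsupp.mem_support_iff.1 h2, χ, hom_coeff56 θ a χ⟩
  have hgen₀ : Subring.closure (H₀ : Set A) = ⊤ := by
    rw [eq_top_iff, ← hS', Subring.closure_le]
    intro a ha
    rw [SetLike.mem_coe, ← sum_coeff56 θ a]
    refine sum_mem fun χ hχ => Subring.subset_closure ?_
    exact Finset.mem_biUnion.2 ⟨a, ha, Finset.mem_image.2 ⟨χ, hχ, rfl⟩⟩
  set f : A := ∏ h ∈ H₀, h with hfdef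
  have hf0 : f ≠ 0 := Finset.prod_ne_zero_iff.2 fun h hh => (hH₀ h hh).1
  obtain ⟨χf, hf⟩ : ∃ χ, θ.Hom χ f := by
    have key : ∀ T : Finset A, T ⊆ H₀ → ∃ χ, θ.Hom χ (∏ h ∈ T, h) := by
      intro T
      induction T using Finset.induction_on with
      | empty => exact fun _ => ⟨0, by rw [Finset.prod_empty]; exact hom_one56 θ⟩
      | insert a T haT ih =>
        intro hT
        obtain ⟨χ, h1⟩ := ih fun x hx => hT (Finset.mem_insert_of_mem hx)
        obtain ⟨-, χ', h2⟩ := hH₀ a (hT (Finset.mem_insert_self a T))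
        exact ⟨χ' + χ, by rw [Finset.prod_insert haT]; exact hom_mul56 θ h2 h1⟩
    exact key H₀ subset_rfl
  refine ⟨f, hf0, ⟨χf, hf⟩, fun e _ hef he => ?_⟩
  let B := Localization.Away f
  have hB : FGen B := hA.away f
  have hinjB : Function.Injective (algebraMap A B) :=
    IsLocalization.injective B (powers_le_nonZeroDivisors_of_noZeroDivisors hf0)
  obtain ⟨θ', hθ'⟩ := exists_loc56 θ hf B
  have hmap : ∀ {χ a}, θ.Hom χ a → θ'.Hom χ (algebraMap A B a) := by
    intro χ a ha
    show θ'.θ _ = _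
    rw [hθ', ha, AddMonoidAlgebra.mapRingHom_single]
  obtain ⟨u, hu⟩ := IsLocalization.Away.algebraMap_isUnit (S := B) f
  refine P_away hP hA f e hef (B := B) ?_
  have hyf : IsUnit (y f) := by
    rw [isUnit_iff_ne_zero]
    exact fun h => hf0 (hy f χf hf h)
  let y' : B →+* L := IsLocalization.Away.lift (S := B) f hyf
  have hy' : ∀ a, y' (algebraMap A B a) = y a := fun a => IsLocalization.Away.lift_eq f hyf a
  let H : Set B := (algebraMap A B) '' (H₀ : Set A) ∪ {((u⁻¹ : Bˣ) : B)}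
  have hH : ∀ h ∈ H, IsUnit h ∧ ∃ χ, θ'.Hom χ h := by
    rintro h (⟨a, ha, rfl⟩ | hh)
    · obtain ⟨-, χ, h1⟩ := hH₀ a ha
      refine ⟨?_, χ, hmap h1⟩
      have h2 : algebraMap A B a ∣ algebraMap A B f := map_dvd _ (Finset.dvd_prod_of_mem _ ha)
      exact isUnit_of_dvd_unit h2 (hu ▸ u.isUnit)
    · rw [Set.mem_singleton_iff] at hh
      subst hh
      exact ⟨(u⁻¹).isUnit, -χf, hom_inv56 θ' (hu ▸ hmap hf)⟩
  have hbk : ∀ b : B, ∃ (k : ℕ) (a : A), b = algebraMap A B a * ((u⁻¹ : Bˣ) : B) ^ k ∧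
      b * algebraMap A B f ^ k = algebraMap A B a := by
    intro b
    obtain ⟨k, a, hab⟩ := IsLocalization.Away.surj f b
    refine ⟨k, a, ?_, hab⟩
    rw [← hab, ← hu, mul_assoc, ← mul_pow, Units.mul_inv, one_pow, mul_one]
  have hgen : Subring.closure H = ⊤ := by
    rw [eq_top_iff]
    intro b _
    obtain ⟨k, a, h1, -⟩ := hbk b
    rw [h1]
    have hui : ((u⁻¹ : Bˣ) : B) ∈ H := Or.inr (Set.mem_singleton _)
    refine mul_mem ?_ (pow_mem (Subring.subset_closure hui) k)
    have h2 : a ∈ Subring.closure (H₀ : Set A) := hgen₀ ▸ Subring.mem_top a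
    have h3 : algebraMap A B a ∈ (Subring.closure (H₀ : Set A)).map (algebraMap A B) :=
      ⟨a, h2, rfl⟩
    rw [RingHom.map_closure] at h3
    exact Subring.closure_mono Set.subset_union_left h3
  refine unit_case56 hP hB θ' hH hgen hL y' ?_ _ ?_
  · intro b hb hyb
    obtain ⟨k, a, h1, h2⟩ := hbk b
    have hfk : θ'.Hom (k • χf) (algebraMap A B f ^ k) := by
      show θ'.θ _ = _
      rw [map_pow, hmap hf, AddMonoidAlgebra.single_pow]
    have h3 : θ'.Hom (0 + k • χf) (algebraMap A B a) := by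
      rw [← h2]
      exact hom_mul56 θ' hb hfk
    have h4 : θ.Hom (0 + k • χf) a := by
      have h5 : θ'.θ (algebraMap A B a) = _ := h3
      rw [hθ'] at h5
      show θ.θ a = _
      apply AddMonoidAlgebra.ext
      ext χ
      apply hinjB
      have h6 := congrArg (fun x => x.coeff χ) h5
      simp only [AddMonoidAlgebra.coeff_mapRingHom] at h6
      rw [h6, AddMonoidAlgebra.coeff_single, AddMonoidAlgebra.coeff_single, Finsupp.single_apply,
        Finsupp.single_apply]
      split_ifs <;> simp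
    have h7 : y a = 0 := by
      rw [← hy', ← h2, map_mul, hyb, zero_mul]
    rw [h1, hy a _ h4 h7, map_zero, zero_mul]
  · intro b hb χ
    obtain ⟨⟨⟨a, ha⟩, ⟨s, ⟨k, rfl⟩⟩⟩, h2⟩ :=
      (IsLocalization.mem_map_algebraMap_iff (Submonoid.powers f) B).1 hb
    have h3 : b * algebraMap A B f ^ k = algebraMap A B a := by
      rw [← map_pow]
      exact h2
    have hfk : θ'.Hom (k • χf) (algebraMap A B f ^ k) := by
      show θ'.θ _ = _
      rw [map_pow, hmap hf, AddMonoidAlgebra.single_pow]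
    have h4 := mul_coeff56 θ' hfk b χ
    rw [mul_comm (algebraMap A B f ^ k) b, h3, hθ', AddMonoidAlgebra.coeff_mapRingHom] at h4
    have h5 : (θ'.θ b).coeff χ = ((u⁻¹ : Bˣ) : B) ^ k *
        algebraMap A B ((θ.θ a).coeff (k • χf + χ)) := by
      rw [h4, ← mul_assoc, ← hu, ← mul_pow, Units.inv_mul, one_pow, one_mul]
    rw [h5]
    exact Ideal.mul_mem_left _ _ (Ideal.mem_map_of_mem _ (he a ha _))

end Pool.Agent.Helper72.OB
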