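import Pool.Agent.Helper72.OB.Defs2

/-!
# Orbit theorem: additive and multiplicative coactions
-/

set_option autoImplicit false

namespace Pool.Agent.Helper72.OB

open Polynomial

/-- a coaction of the additive group: `τ a = Σ D_i(a) X^i` -/
structure GaCo (A : Type) [CommRing A] where
  τ : A →+* A[X]
  zero : ∀ a, (τ a).coeff 0 = a
  co : ∀ a i j, (τ ((τ a).coeff i)).coeff j = (Nat.choose (i + j) i : A) * (τ a).coeff (i + j)

/-- the operators `D_i` of an additive coaction -/
noncomputable def GaCo.D {A : Type} [CommRing A] (t : GaCo A) (i : ℕ) (a : A) : A := (t.τ a).coeff i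

/-- a coaction of a split torus of rank `n`: `θ a = Σ a_χ T^χ` -/
structure ToCo (n : ℕ) (A : Type) [CommRing A] where
  θ : A →+* AddMonoidAlgebra A (Fin n → ℤ)
  counit : ∀ a, (θ a).coeff.sum (fun _ b => b) = a
  co : ∀ a χ, θ ((θ a).coeff χ) = AddMonoidAlgebra.single χ ((θ a).coeff χ)

/-- `a` is homogeneous of weight `χ` -/
def ToCo.Hom {n : ℕ} {A : Type} [CommRing A] (θ : ToCo n A) (χ : Fin n → ℤ) (a : A) : Prop :=
  θ.θ a = AddMonoidAlgebra.single χ a

/-- the data extracted from the action of a solvable group `G_r`: additive coactions `τ 0, τ 1, ...`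
and a torus coaction `θ`, such that `τ l` commutes with every `τ k` on the elements which are
invariant under all `τ h`, `h < l`, and `D^k_i` shifts the weights by `i β_k` -/
structure SolvData (A : Type) [CommRing A] (N n : ℕ) where
  τ : Fin N → GaCo A
  θ : ToCo n A
  β : Fin N → (Fin n → ℤ)
  comm : ∀ (l k : Fin N) (a : A), (∀ h < l, (τ h).τ a = C a) → ∀ i j,
    (τ l).D j ((τ k).D i a) = (τ k).D i ((τ l).D j a)
  wt : ∀ (k : Fin N) (i : ℕ) (χ : Fin n → ℤ) (a : A), θ.Hom χ a →
    θ.Hom (χ + i • β k) ((τ k).D i a)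

/-- semi-invariants: invariant under all additive coactions, and homogeneous -/
def SolvData.Semi {A : Type} [CommRing A] {N n : ℕ} (s : SolvData A N n) (a : A) : Prop :=
  (∀ h, (s.τ h).τ a = C a) ∧ ∃ χ, s.θ.Hom χ a

/-- ideals stable under all coactions -/
def SolvData.StabI {A : Type} [CommRing A] {N n : ℕ} (s : SolvData A N n) (e : Ideal A) : Prop :=
  (∀ k, ∀ a ∈ e, ∀ i, (s.τ k).D i a ∈ e) ∧ ∀ a ∈ e, ∀ χ, (s.θ.θ a).coeff χ ∈ e

end Pool.Agent.Helper72.OB
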