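import Pool.Agent.Helper72.OB.Slice

/-!
# Orbit theorem, block G2a: localisation, invariants and slices of solvable data
-/

set_option autoImplicit false

namespace Pool.Agent.Helper72.OB

open Polynomial

variable {A : Type} [CommRing A] {N n : ℕ}

/-! ### elementary facts -/

private theorem inv_iff69 (t : GaCo A) (a : A) : t.τ a = C a ↔ ∀ i, 0 < i → t.D i a = 0 := by
  rw [← GaCo.mem_inv, GaCo.mem_inv_iff]

private theorem D_zero69 (t : GaCo A) (i : ℕ) : t.D i 0 = 0 := by
  unfold GaCo.D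
  rw [map_zero, coeff_zero]

private theorem D_sum69 (t : GaCo A) {ι : Type} (S : Finset ι) (f : ι → A) (i : ℕ) :
    t.D i (∑ x ∈ S, f x) = ∑ x ∈ S, t.D i (f x) := by
  unfold GaCo.D
  rw [map_sum, finset_sum_coeff]

private theorem D_of_inv69 (t : GaCo A) {a : A} (h : t.τ a = C a) {i : ℕ} (hi : 0 < i) : t.D i a = 0 :=
  (inv_iff69 t a).1 h i hi

private theorem hom_coeff_self69 (θ : ToCo n A) {χ : Fin n → ℤ} {a : A} (ha : θ.Hom χ a) :
    (θ.θ a).coeff χ = a := by
  rw [ha, AddMonoidAlgebra.coeff_single, Finsupp.single_eq_same]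

private theorem hom_coeff_ne69 (θ : ToCo n A) {χ χ' : Fin n → ℤ} {a : A} (ha : θ.Hom χ a) (h : χ' ≠ χ) :
    (θ.θ a).coeff χ' = 0 := by
  rw [ha, AddMonoidAlgebra.coeff_single, Finsupp.single_eq_of_ne h]

private theorem sum_coeff69 (θ : ToCo n A) (a : A) :
    ∑ χ ∈ (θ.θ a).coeff.support, (θ.θ a).coeff χ = a :=
  θ.counit a

/-- the components of `D_i a` -/
private theorem comp69 (s : SolvData A N n) (k : Fin N) (i : ℕ) (a : A) (χ : Fin n → ℤ) :
    (s.θ.θ ((s.τ k).D i a)).coeff (χ + i • s.β k) = (s.τ k).D i ((s.θ.θ a).coeff χ) := by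
  classical
  conv_lhs => rw [← sum_coeff69 s.θ a]
  rw [D_sum69, map_sum, AddMonoidAlgebra.coeff_sum, Finsupp.finset_sum_apply]
  have h1 : ∀ ψ, s.θ.Hom (ψ + i • s.β k) ((s.τ k).D i ((s.θ.θ a).coeff ψ)) := fun ψ =>
    s.wt k i ψ _ (s.θ.co a ψ)
  rw [Finset.sum_eq_single χ]
  · exact hom_coeff_self69 _ (h1 χ)
  · intro ψ _ hψ
    apply hom_coeff_ne69 _ (h1 ψ)
    intro h
    exact hψ (add_right_cancel h).symm
  · intro h
    rw [Finsupp.notMem_support_iff] at h
    rw [h, D_zero69, map_zero, AddMonoidAlgebra.coeff_zero, Finsupp.coe_zero, Pi.zero_apply]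

/-- a lift along an injective ring homomorphism -/
private theorem lift69 {R R1 R2 : Type} [CommRing R] [CommRing R1] [CommRing R2] (j : R1 →+* R2)
    (hj : Function.Injective j) (φ : R →+* R2) (h : ∀ r, ∃ x, j x = φ r) :
    ∃ ψ : R →+* R1, ∀ r, j (ψ r) = φ r := by
  choose g hg using h
  exact ⟨{ toFun := g
           map_one' := hj (by rw [hg, map_one, map_one])
           map_mul' := fun x y => hj (by rw [hg, map_mul, map_mul, hg, hg])
           map_zero' := hj (by rw [hg, map_zero, map_zero])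
           map_add' := fun x y => hj (by rw [hg, map_add, map_add, hg, hg]) }, hg⟩

/-! ### localisation -/

section loc

variable (f : A) (B : Type) [CommRing B] [Algebra A B] [IsLocalization.Away f B]

private theorem unit69 : IsUnit (algebraMap A B f) := IsLocalization.Away.algebraMap_isUnit f

private theorem surj69 (b : B) : ∃ (m : ℕ) (a : A), b * algebraMap A B (f ^ m) = algebraMap A B a := by
  obtain ⟨m, a, h⟩ := IsLocalization.Away.surj f b
  exact ⟨m, a, by rw [map_pow]; exact h⟩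

private theorem cancel69 {m : ℕ} {x y : B} (h : x * algebraMap A B (f ^ m) = y * algebraMap A B (f ^ m)) :
    x = y := by
  have hu : IsUnit (algebraMap A B (f ^ m)) := by
    rw [map_pow]
    exact (unit69 f B).pow m
  exact hu.mul_right_cancel h

private theorem ga_loc69 (t : GaCo A) (hf : t.τ f = C f) : ∃ t' : GaCo B,
    (∀ a, t'.τ (algebraMap A B a) = (t.τ a).map (algebraMap A B)) ∧
    ∀ (b : B) (m : ℕ) (i : ℕ), t'.D i (b * algebraMap A B (f ^ m)) = t'.D i b * algebraMap A B (f ^ m) := by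
  obtain ⟨τ', hτ'⟩ : ∃ τ' : B →+* B[X], ∀ a, τ' (algebraMap A B a) = (t.τ a).map (algebraMap A B) := by
    have hu : IsUnit (((mapRingHom (algebraMap A B)).comp t.τ) f) := by
      rw [RingHom.comp_apply, hf, coe_mapRingHom, map_C]
      exact (unit69 f B).map C
    exact ⟨IsLocalization.Away.lift f hu, fun a => IsLocalization.Away.lift_eq f hu a⟩
  have hfm : ∀ m, τ' (algebraMap A B (f ^ m)) = C (algebraMap A B (f ^ m)) := by
    intro m
    rw [hτ', map_pow, hf, ← C_pow, map_C]
  have hmul : ∀ (b : B) (m i : ℕ), (τ' (b * algebraMap A B (f ^ m))).coeff i =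
      (τ' b).coeff i * algebraMap A B (f ^ m) := by
    intro b m i
    rw [map_mul, hfm, coeff_mul_C]
  refine ⟨⟨τ', ?_, ?_⟩, hτ', hmul⟩
  · intro b
    obtain ⟨m, a, h⟩ := surj69 f B b
    apply cancel69 f B (m := m)
    rw [← hmul, h, hτ', coeff_map, t.zero]
  · intro b i j
    obtain ⟨m, a, h⟩ := surj69 f B b
    apply cancel69 f B (m := m)
    rw [← hmul, ← hmul, h, hτ', coeff_map, hτ', coeff_map, t.co, map_mul, map_natCast, mul_assoc, ← hmul, h, hτ',
      coeff_map]

private theorem coeff_mul_single69 (x : AddMonoidAlgebra A (Fin n → ℤ)) (r : A) (χ ψ : Fin n → ℤ) :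
    (x * AddMonoidAlgebra.single χ r).coeff (ψ + χ) = x.coeff ψ * r := by
  rw [AddMonoidAlgebra.coeff_mul_single_apply]
  congr 2
  abel

private theorem sum_mul_single69 (x : AddMonoidAlgebra A (Fin n → ℤ)) (r : A) (χ : Fin n → ℤ) :
    (x * AddMonoidAlgebra.single χ r).coeff.sum (fun _ b => b) = x.coeff.sum (fun _ b => b) * r := by
  classical
  induction x using AddMonoidAlgebra.induction_linear with
  | zero => simp
  | add x y hx hy =>
    rw [add_mul, AddMonoidAlgebra.coeff_add, AddMonoidAlgebra.coeff_add,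
      Finsupp.sum_add_index' (fun _ => rfl) (fun _ _ _ => rfl),
      Finsupp.sum_add_index' (fun _ => rfl) (fun _ _ _ => rfl), hx, hy, add_mul]
  | single ψ a =>
    rw [AddMonoidAlgebra.single_mul_single, AddMonoidAlgebra.coeff_single, AddMonoidAlgebra.coeff_single,
      Finsupp.sum_single_index rfl, Finsupp.sum_single_index rfl]

private theorem sum_map69 (x : AddMonoidAlgebra A (Fin n → ℤ)) :
    (AddMonoidAlgebra.mapRingHom (Fin n → ℤ) (algebraMap A B) x).coeff.sum (fun _ b => b) =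
      algebraMap A B (x.coeff.sum (fun _ b => b)) := by
  classical
  induction x using AddMonoidAlgebra.induction_linear with
  | zero => simp
  | add x y hx hy =>
    rw [map_add, AddMonoidAlgebra.coeff_add, AddMonoidAlgebra.coeff_add,
      Finsupp.sum_add_index' (fun _ => rfl) (fun _ _ _ => rfl),
      Finsupp.sum_add_index' (fun _ => rfl) (fun _ _ _ => rfl), hx, hy, map_add]
  | single ψ a =>
    rw [AddMonoidAlgebra.mapRingHom_single, AddMonoidAlgebra.coeff_single, AddMonoidAlgebra.coeff_single,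
      Finsupp.sum_single_index rfl, Finsupp.sum_single_index rfl]

private theorem single_unit69 (χ : Fin n → ℤ) {u : B} (hu : IsUnit u) :
    IsUnit (AddMonoidAlgebra.single χ u : AddMonoidAlgebra B (Fin n → ℤ)) := by
  obtain ⟨u, rfl⟩ := hu
  refine IsUnit.of_mul_eq_one (AddMonoidAlgebra.single (-χ) ((u⁻¹ : Bˣ) : B)) ?_
  rw [AddMonoidAlgebra.single_mul_single, add_neg_cancel, Units.mul_inv]
  rfl

private theorem to_loc69 (θ : ToCo n A) {χ0 : Fin n → ℤ} (hf : θ.Hom χ0 f) : ∃ θ' : ToCo n B,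
    (∀ a, θ'.θ (algebraMap A B a) = AddMonoidAlgebra.mapRingHom (Fin n → ℤ) (algebraMap A B) (θ.θ a)) ∧
    ∀ (b : B) (m : ℕ), θ'.θ (b * algebraMap A B (f ^ m)) =
      θ'.θ b * AddMonoidAlgebra.single (m • χ0) (algebraMap A B (f ^ m)) := by
  obtain ⟨τ', hτ'⟩ : ∃ τ' : B →+* AddMonoidAlgebra B (Fin n → ℤ),
      ∀ a, τ' (algebraMap A B a) = AddMonoidAlgebra.mapRingHom (Fin n → ℤ) (algebraMap A B) (θ.θ a) := by
    have hu : IsUnit (((AddMonoidAlgebra.mapRingHom (Fin n → ℤ) (algebraMap A B)).comp θ.θ) f) := by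
      have hf' : θ.θ f = AddMonoidAlgebra.single χ0 f := hf
      rw [RingHom.comp_apply, hf', AddMonoidAlgebra.mapRingHom_single]
      exact single_unit69 B χ0 (unit69 f B)
    exact ⟨IsLocalization.Away.lift f hu, fun a => IsLocalization.Away.lift_eq f hu a⟩
  have hfm : ∀ m : ℕ, τ' (algebraMap A B (f ^ m)) = AddMonoidAlgebra.single (m • χ0) (algebraMap A B (f ^ m)) := by
    intro m
    have hf' : θ.θ f = AddMonoidAlgebra.single χ0 f := hf
    rw [hτ', map_pow, hf', AddMonoidAlgebra.single_pow, AddMonoidAlgebra.mapRingHom_single]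
  have hmul : ∀ (b : B) (m : ℕ), τ' (b * algebraMap A B (f ^ m)) =
      τ' b * AddMonoidAlgebra.single (m • χ0) (algebraMap A B (f ^ m)) := by
    intro b m
    rw [map_mul, hfm]
  have hcanc : ∀ (m : ℕ) (χ : Fin n → ℤ) (x y : AddMonoidAlgebra B (Fin n → ℤ)),
      x * AddMonoidAlgebra.single χ (algebraMap A B (f ^ m)) =
        y * AddMonoidAlgebra.single χ (algebraMap A B (f ^ m)) → x = y := by
    intro m χ x y h
    refine (single_unit69 B χ ?_).mul_right_cancel h
    rw [map_pow]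
    exact (unit69 f B).pow m
  refine ⟨⟨τ', ?_, ?_⟩, hτ', hmul⟩
  · intro b
    obtain ⟨m, a, h⟩ := surj69 f B b
    apply cancel69 f B (m := m)
    rw [← sum_mul_single69 (χ := m • χ0), ← hmul, h, hτ', sum_map69, θ.counit]
  · intro b ψ
    obtain ⟨m, a, h⟩ := surj69 f B b
    have h1 : (τ' b).coeff ψ * algebraMap A B (f ^ m) = algebraMap A B ((θ.θ a).coeff (ψ + m • χ0)) := by
      rw [← coeff_mul_single69, ← hmul, h, hτ', AddMonoidAlgebra.coeff_mapRingHom]
    apply hcanc m (m • χ0)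
    rw [← hmul, h1, hτ', θ.co, AddMonoidAlgebra.mapRingHom_single, AddMonoidAlgebra.single_mul_single, h1]

end loc

/-- localisation at a semi-invariant -/
theorem SolvData.exists_loc (s : SolvData A N n) (f : A) (hs : s.Semi f) (B : Type) [CommRing B]
    [Algebra A B] [IsLocalization.Away f B] [IsDomain A] [IsDomain B] (hf : f ≠ 0) :
    ∃ s' : SolvData B N n, (∀ k i a, (s'.τ k).D i (algebraMap A B a) =
      algebraMap A B ((s.τ k).D i a)) ∧ (∀ a χ, (s'.θ.θ (algebraMap A B a)).coeff χ =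
        algebraMap A B ((s.θ.θ a).coeff χ)) := by
  obtain ⟨hs1, χ0, hs2⟩ := hs
  have hinj : Function.Injective (algebraMap A B) :=
    IsLocalization.injective B (powers_le_nonZeroDivisors_of_noZeroDivisors hf)
  choose τ' hτ1 hτ2 using fun k => ga_loc69 f B (s.τ k) (hs1 k)
  obtain ⟨θ', hθ1, hθ2⟩ := to_loc69 f B s.θ hs2
  have hD : ∀ k i a, (τ' k).D i (algebraMap A B a) = algebraMap A B ((s.τ k).D i a) := by
    intro k i a
    unfold GaCo.D
    rw [hτ1, coeff_map]
  have hmapinj : Function.Injective (AddMonoidAlgebra.mapRingHom (Fin n → ℤ) (algebraMap A B)) := by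
    intro x y hxy
    apply AddMonoidAlgebra.ext
    ext ψ
    apply hinj
    rw [← AddMonoidAlgebra.coeff_mapRingHom, ← AddMonoidAlgebra.coeff_mapRingHom, hxy]
  refine ⟨⟨τ', θ', s.β, ?_, ?_⟩, hD, ?_⟩
  · intro l k b hb i j
    obtain ⟨m, a, h⟩ := surj69 f B b
    have ha : ∀ h < l, (s.τ h).τ a = C a := by
      intro h' hl
      rw [inv_iff69]
      intro i hi
      apply hinj
      rw [← hD, ← h, hτ2, D_of_inv69 _ (hb h' hl) hi, zero_mul, map_zero]
    apply cancel69 f B (m := m)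
    rw [← hτ2, ← hτ2, ← hτ2, ← hτ2, h, hD, hD, hD, hD, s.comm l k a ha i j]
  · intro k i χ b hb
    obtain ⟨m, a, h⟩ := surj69 f B b
    have hb' : θ'.θ b = AddMonoidAlgebra.single χ b := hb
    have h1 : s.θ.Hom (χ + m • χ0) a := by
      apply hmapinj
      rw [← hθ1, ← h, hθ2, hb', AddMonoidAlgebra.single_mul_single, AddMonoidAlgebra.mapRingHom_single, h]
    have h2 : s.θ.θ ((s.τ k).D i a) = AddMonoidAlgebra.single (χ + m • χ0 + i • s.β k) ((s.τ k).D i a) :=
      s.wt k i _ a h1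
    show θ'.θ ((τ' k).D i b) = AddMonoidAlgebra.single (χ + i • s.β k) ((τ' k).D i b)
    have hu : IsUnit (AddMonoidAlgebra.single (m • χ0) (algebraMap A B (f ^ m)) :
        AddMonoidAlgebra B (Fin n → ℤ)) := by
      apply single_unit69
      rw [map_pow]
      exact (unit69 f B).pow m
    apply hu.mul_right_cancel
    rw [← hθ2, AddMonoidAlgebra.single_mul_single, ← hτ2, h, hD, hθ1, h2, AddMonoidAlgebra.mapRingHom_single]
    congr 1
    abel
  · intro a χ
    rw [hθ1, AddMonoidAlgebra.coeff_mapRingHom]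

/-! ### restriction to the invariants -/

private theorem D_mem_inv69 (s : SolvData A (N + 1) n) (k : Fin (N + 1)) (i : ℕ) {a : A}
    (ha : a ∈ (s.τ 0).inv) : (s.τ k).D i a ∈ (s.τ 0).inv := by
  rw [GaCo.mem_inv_iff]
  intro j hj
  rw [s.comm 0 k a (fun h hh => absurd hh (Fin.not_lt_zero h)) i j, D_of_inv69 _ ((GaCo.mem_inv _ _).1 ha) hj,
    D_zero69]

private theorem coeff_mem_inv69 (s : SolvData A (N + 1) n) (χ : Fin n → ℤ) {a : A}
    (ha : a ∈ (s.τ 0).inv) : (s.θ.θ a).coeff χ ∈ (s.τ 0).inv := by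
  rw [GaCo.mem_inv_iff]
  intro j hj
  rw [← comp69, D_of_inv69 _ ((GaCo.mem_inv _ _).1 ha) hj, map_zero, AddMonoidAlgebra.coeff_zero,
    Finsupp.coe_zero, Pi.zero_apply]

/-- restriction to the invariants of the first additive coaction -/
theorem SolvData.exists_restr (s : SolvData A (N + 1) n) : ∃ s' : SolvData (s.τ 0).inv N n,
    (∀ k i b, ((s'.τ k).D i b : A) = (s.τ k.succ).D i b) ∧
    (∀ b χ, ((s'.θ.θ b).coeff χ : A) = (s.θ.θ (b : A)).coeff χ) := by
  classical
  obtain ⟨R, hR⟩ : ∃ R : Subring A, R = (s.τ 0).inv := ⟨_, rfl⟩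
  have hRD : ∀ (k : Fin (N + 1)) (i : ℕ) (b : R), (s.τ k).D i b ∈ R := by
    rw [hR]
    exact fun k i b => D_mem_inv69 s k i b.2
  have hRθ : ∀ (χ : Fin n → ℤ) (b : R), (s.θ.θ (b : A)).coeff χ ∈ R := by
    rw [hR]
    exact fun χ b => coeff_mem_inv69 s χ b.2
  have hRinv : ∀ x : A, x ∈ R → (s.τ 0).τ x = C x := by
    rw [hR]
    exact fun x hx => (GaCo.mem_inv _ _).1 hx
  rw [← hR]
  have hsub : Function.Injective (R.subtype : R →+* A) := Subtype.val_injective
  -- additive coactions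
  have h1 : ∀ k : Fin N, ∃ τ' : R →+* R[X], ∀ b, (τ' b).map R.subtype = (s.τ k.succ).τ b := by
    intro k
    refine lift69 (mapRingHom R.subtype) (map_injective _ hsub) ((s.τ k.succ).τ.comp R.subtype) ?_
    intro b
    have : (s.τ k.succ).τ (b : A) ∈ (mapRingHom R.subtype).range := by
      rw [Polynomial.mem_map_range]
      intro i
      exact ⟨⟨_, hRD k.succ i b⟩, rfl⟩
    obtain ⟨x, hx⟩ := this
    exact ⟨x, hx⟩
  choose τ' hτ' using h1
  have hτD : ∀ k (b : R) i, (((τ' k) b).coeff i : A) = (s.τ k.succ).D i b := by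
    intro k b i
    unfold GaCo.D
    rw [← hτ', coeff_map]
    rfl
  -- torus
  obtain ⟨θ', hθ'⟩ : ∃ θ' : R →+* AddMonoidAlgebra R (Fin n → ℤ),
      ∀ b, AddMonoidAlgebra.mapRingHom (Fin n → ℤ) R.subtype (θ' b) = s.θ.θ b := by
    refine lift69 (AddMonoidAlgebra.mapRingHom (Fin n → ℤ) R.subtype) ?_ (s.θ.θ.comp R.subtype) ?_
    · intro x y hxy
      apply AddMonoidAlgebra.ext
      ext ψ
      have := congrArg (fun z => z.coeff ψ) hxy
      simp only [AddMonoidAlgebra.coeff_mapRingHom] at this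
      exact this
    · intro b
      refine ⟨∑ χ ∈ (s.θ.θ (b : A)).coeff.support, AddMonoidAlgebra.single χ ⟨_, hRθ χ b⟩, ?_⟩
      rw [map_sum]
      simp only [AddMonoidAlgebra.mapRingHom_single]
      apply AddMonoidAlgebra.ext
      rw [AddMonoidAlgebra.coeff_sum]
      exact Finsupp.sum_single (s.θ.θ (b : A)).coeff
  have hθD : ∀ (b : R) χ, ((θ' b).coeff χ : A) = (s.θ.θ (b : A)).coeff χ := by
    intro b χ
    rw [← hθ', AddMonoidAlgebra.coeff_mapRingHom]
    rfl
  have hmapinj : Function.Injective (AddMonoidAlgebra.mapRingHom (Fin n → ℤ) R.subtype) := by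
    intro x y hxy
    apply AddMonoidAlgebra.ext
    ext ψ
    have := congrArg (fun z => z.coeff ψ) hxy
    simp only [AddMonoidAlgebra.coeff_mapRingHom] at this
    exact this
  have hHom : ∀ (χ : Fin n → ℤ) (b : R), θ' b = AddMonoidAlgebra.single χ b ↔ s.θ.Hom χ (b : A) := by
    intro χ b
    unfold ToCo.Hom
    rw [← hθ']
    constructor
    · intro h
      rw [h, AddMonoidAlgebra.mapRingHom_single]
      rfl
    · intro h
      apply hmapinj
      rw [h, AddMonoidAlgebra.mapRingHom_single]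
      rfl
  obtain ⟨t, ht⟩ : ∃ t : Fin N → GaCo R, ∀ k, (t k).τ = τ' k := by
    refine ⟨fun k => ⟨τ' k, ?_, ?_⟩, fun k => rfl⟩
    · intro b
      apply Subtype.ext
      rw [hτD]
      exact (s.τ k.succ).zero b
    · intro b i j
      apply Subtype.ext
      rw [hτD, hτD, Subring.coe_mul, hτD]
      push_cast
      exact (s.τ k.succ).co b i j
  have htD : ∀ k i (b : R), ((t k).D i b : A) = (s.τ k.succ).D i b := by
    intro k i b
    unfold GaCo.D
    rw [ht]
    exact hτD k b i
  obtain ⟨θ'', hθ''⟩ : ∃ θ'' : ToCo n R, θ''.θ = θ' := by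
    refine ⟨⟨θ', ?_, ?_⟩, rfl⟩
    · intro b
      apply Subtype.ext
      have h2 := s.θ.counit (b : A)
      rw [← hθ'] at h2
      rw [← h2]
      have h3 : ∀ x : AddMonoidAlgebra R (Fin n → ℤ), ((x.coeff.sum (fun _ b => b) : R) : A) =
          (AddMonoidAlgebra.mapRingHom (Fin n → ℤ) R.subtype x).coeff.sum (fun _ b => b) := by
        intro x
        induction x using AddMonoidAlgebra.induction_linear with
        | zero => simp
        | add x y hx hy =>
          rw [map_add, AddMonoidAlgebra.coeff_add, AddMonoidAlgebra.coeff_add,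
            Finsupp.sum_add_index' (fun _ => rfl) (fun _ _ _ => rfl),
            Finsupp.sum_add_index' (fun _ => rfl) (fun _ _ _ => rfl), ← hx, ← hy]
          rfl
        | single ψ a =>
          rw [AddMonoidAlgebra.mapRingHom_single, AddMonoidAlgebra.coeff_single, AddMonoidAlgebra.coeff_single,
            Finsupp.sum_single_index rfl, Finsupp.sum_single_index rfl]
          rfl
      exact h3 _
    · intro b χ
      rw [hHom, hθD]
      exact s.θ.co (b : A) χ
  refine ⟨⟨t, θ'', fun k => s.β k.succ, ?_, ?_⟩, htD, ?_⟩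
  · intro l k b hb i j
    apply Subtype.ext
    rw [htD, htD, htD, htD]
    refine s.comm l.succ k.succ (b : A) ?_ i j
    intro h
    refine Fin.cases (fun _ => ?_) (fun h hh => ?_) h
    · exact hRinv _ b.2
    · rw [inv_iff69]
      intro i hi
      rw [← htD, D_of_inv69 _ (hb h (Fin.succ_lt_succ_iff.1 hh)) hi]
      rfl
  · intro k i χ b hb
    have hb' : s.θ.Hom χ (b : A) := by
      rw [← hHom, ← hθ'']
      exact hb
    have h2 := s.wt k.succ i χ (b : A) hb'
    show θ''.θ ((t k).D i b) = AddMonoidAlgebra.single (χ + i • s.β k.succ) ((t k).D i b)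
    rw [hθ'', hHom, htD]
    exact h2
  · intro b χ
    rw [hθ'']
    exact hθD b χ

/-! ### a slice with a semi-invariant leading coefficient -/

/-- Lie-Kolchin: a slice of minimal degree with a semi-invariant leading coefficient -/
theorem SolvData.exists_slice [IsDomain A] (s : SolvData A (N + 1) n) (h : (s.τ 0).inv ≠ ⊤) :
    ∃ (a : A) (e : ℕ), 0 < e ∧ ((s.τ 0).τ a).natDegree = e ∧
      (∀ c, ((s.τ 0).τ c).natDegree = 0 ∨ e ≤ ((s.τ 0).τ c).natDegree) ∧
      s.Semi ((s.τ 0).D e a) := by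
  classical
  -- the minimal positive degree
  have hex : ∃ e, 0 < e ∧ ∃ a, ((s.τ 0).τ a).natDegree = e := by
    by_contra hcon
    push Not at hcon
    apply h
    rw [eq_top_iff]
    intro a _
    rw [GaCo.mem_inv_iff]
    intro i hi
    have h1 : ((s.τ 0).τ a).natDegree = 0 := by
      by_contra h2
      exact hcon _ (Nat.pos_of_ne_zero h2) a rfl
    exact coeff_eq_zero_of_natDegree_lt (by omega)
  obtain ⟨e, he⟩ : ∃ e, e = Nat.find hex := ⟨_, rfl⟩
  obtain ⟨he0, a0, ha0⟩ : 0 < e ∧ ∃ a, ((s.τ 0).τ a).natDegree = e := he ▸ Nat.find_spec hex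
  have hmin : ∀ c, ((s.τ 0).τ c).natDegree = 0 ∨ e ≤ ((s.τ 0).τ c).natDegree := by
    intro c
    by_contra hc
    push Not at hc
    refine Nat.find_min hex (m := ((s.τ 0).τ c).natDegree) (he ▸ hc.2) ⟨Nat.pos_of_ne_zero hc.1, c, rfl⟩
  have hdeg : ∀ a, (∀ j, e < j → (s.τ 0).D j a = 0) → (s.τ 0).D e a ≠ 0 → ((s.τ 0).τ a).natDegree = e := by
    intro a h1 h2
    apply le_antisymm
    · rw [natDegree_le_iff_coeff_eq_zero]
      exact h1
    · exact le_natDegree_of_ne_zero h2
  have hbig : ∀ a, ((s.τ 0).τ a).natDegree = e → (∀ j, e < j → (s.τ 0).D j a = 0) := by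
    intro a h1 j hj
    exact coeff_eq_zero_of_natDegree_lt (by omega)
  have htop : ∀ a, ((s.τ 0).τ a).natDegree = e → (s.τ 0).D e a ≠ 0 := by
    intro a h1 h2
    have h3 : ((s.τ 0).τ a).leadingCoeff = 0 := by
      unfold leadingCoeff
      rw [h1]
      exact h2
    rw [leadingCoeff_eq_zero] at h3
    rw [h3, natDegree_zero] at h1
    omega
  -- induction on the number of coactions
  have key : ∀ k : ℕ, k ≤ N + 1 → ∃ a χ, s.θ.Hom χ a ∧ ((s.τ 0).τ a).natDegree = e ∧
      ∀ h : Fin (N + 1), (h : ℕ) < k → (s.τ h).τ ((s.τ 0).D e a) = C ((s.τ 0).D e a) := by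
    intro k
    induction k with
    | zero =>
      intro _
      have h1 : ∃ χ ∈ (s.θ.θ a0).coeff.support, (s.τ 0).D e ((s.θ.θ a0).coeff χ) ≠ 0 := by
        apply Finset.exists_ne_zero_of_sum_ne_zero
        rw [← D_sum69, sum_coeff69]
        exact htop a0 ha0
      obtain ⟨χ, -, h2⟩ := h1
      refine ⟨(s.θ.θ a0).coeff χ, χ, s.θ.co a0 χ, hdeg _ ?_ h2, fun h hh => absurd hh (Nat.not_lt_zero _)⟩
      intro j hj
      rw [← comp69, hbig a0 ha0 j hj, map_zero, AddMonoidAlgebra.coeff_zero, Finsupp.coe_zero, Pi.zero_apply]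
    | succ k ih =>
      intro hk
      obtain ⟨a, χ, h1, h2, h3⟩ := ih (by omega)
      obtain ⟨κ, hκ⟩ : ∃ κ : Fin (N + 1), (κ : ℕ) = k := ⟨⟨k, by omega⟩, rfl⟩
      obtain ⟨m, hm⟩ : ∃ m, m = ((s.τ κ).τ ((s.τ 0).D e a)).natDegree := ⟨_, rfl⟩
      have hcomm : ∀ j, (s.τ 0).D j ((s.τ κ).D m a) = (s.τ κ).D m ((s.τ 0).D j a) := fun j =>
        s.comm 0 κ a (fun h hh => absurd hh (Fin.not_lt_zero h)) m j
      have hne : (s.τ κ).D m ((s.τ 0).D e a) ≠ 0 := by
        intro h4
        have h5 : ((s.τ κ).τ ((s.τ 0).D e a)).leadingCoeff = 0 := by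
          unfold leadingCoeff
          rw [← hm]
          exact h4
        rw [leadingCoeff_eq_zero] at h5
        have h6 := (s.τ κ).zero ((s.τ 0).D e a)
        rw [h5, coeff_zero] at h6
        exact htop a h2 h6.symm
      refine ⟨(s.τ κ).D m a, χ + m • s.β κ, s.wt κ m χ a h1, hdeg _ ?_ ?_, ?_⟩
      · intro j hj
        rw [hcomm, hbig a h2 j hj, D_zero69]
      · rw [hcomm]
        exact hne
      · intro h hh
        rw [hcomm]
        rcases Nat.lt_succ_iff_lt_or_eq.1 hh with h4 | h4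
        · rw [inv_iff69]
          intro j hj
          have h5 : ∀ h' < h, (s.τ h').τ ((s.τ 0).D e a) = C ((s.τ 0).D e a) := fun h' hh' =>
            h3 h' (lt_trans (by exact_mod_cast hh') h4)
          rw [s.comm h κ _ h5 m j, D_of_inv69 _ (h3 h h4) hj, D_zero69]
        · have h5 : h = κ := Fin.ext (h4.trans hκ.symm)
          rw [h5, ← GaCo.mem_inv, hm]
          exact (s.τ κ).top_mem _
  obtain ⟨a, χ, h1, h2, h3⟩ := key (N + 1) le_rfl
  exact ⟨a, e, he0, h2, hmin, fun h => h3 h h.2, _, s.wt 0 e χ a h1⟩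

end Pool.Agent.Helper72.OB
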